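import Pool.Agent.H77.PX.EDef

/-!
# [H77 PX ROOT] Roots of quadratic polynomials modulo `P^j` (80-120 lines)

`coset_card`: the map `𝓞 K / P^j → 𝓞 K / P^i` (`Ideal.Quotient.factor`, `P^j ≤ P^i`) is a surjective homomorphism; all its fibres have
`N^j / N^i` elements (`N = absNorm P`, `card (𝓞 K / P^k) = absNorm (P^k) = N^k`, `Ideal.absNorm_apply`, `Submodule.cardQuot_apply`); the set is
the fibre over the class of `x0`. (Fibres of a surjective homomorphism of finite groups: the kernel has `N^j/N^i` elements, the fibre is a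
translate of the kernel; `AddSubgroup.card_eq_card_quotient_mul_card_addSubgroup`.)

`root_card`: if there is a root `u`: for every root `x`, `(x - u) (a (x + u) + B) ∈ P^j`. Let `r = (j + 1) / 2`, so `j - r = j / 2`.
If `x - u ∉ P^r` then `a (x + u) + B ∈ P^r`: for `y ∉ P^r` and `y z ∈ P^j`, the exponents satisfy `v(y) ≤ r - 1`, `v(z) ≥ j - (r - 1) ≥ r`
(`2 r ≤ j + 1`; use e.g. `IsDedekindDomain` / `Ideal.IsPrime.mul_mem_pow`: `y z ∈ P^(i)`, or induction with `Ideal.IsPrime.mem_or_mem_of_mul_mem`;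
`emultiplicity P (span {y z}) = sum`). Choose `a'` with `a a' - 1 ∈ P^r` (`a ∉ P`, `P` maximal: `span {a} ⊔ P^r = ⊤`, `Ideal.sup_pow_eq_top`
or the unit lemma in the local ring `𝓞 K/P^r`): `x + u + a' B ∈ P^r`. So the classes of the roots are in the union of the two sets of
`coset_card` (`i = r`) with `x0 = u` and `x0 = -u - a' B`.
-/

set_option autoImplicit false

open scoped NumberField
open H88.A4 H88.WS Pool.Agent.H67.WA

noncomputable section

namespace H77.PX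

variable {K : Type} [Field K] [NumberField K]

omit [NumberField K] in
private theorem root_pow_ne {P : Ideal (𝓞 K)} (hP0 : P ≠ ⊥) (k : ℕ) : P ^ k ≠ ⊥ := pow_ne_zero k hP0

private theorem root_pos {P : Ideal (𝓞 K)} (hP0 : P ≠ ⊥) : 0 < Ideal.absNorm P := by
  rw [Nat.pos_iff_ne_zero, Ne, Ideal.absNorm_eq_zero_iff]
  exact hP0

theorem coset_card {P : Ideal (𝓞 K)} (hP : P.IsPrime) (hP0 : P ≠ ⊥) {i j : ℕ} (hij : i ≤ j) (x0 : 𝓞 K) :
    (Ideal.Quotient.mk (P ^ j) '' {x | x - x0 ∈ P ^ i}).ncard = Ideal.absNorm P ^ (j - i) := by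
  have hle : P ^ j ≤ P ^ i := Ideal.pow_le_pow_right hij
  have h1 : Nat.card (Submodule.map (Submodule.mkQ (P ^ j)) (P ^ i)) * Nat.card (𝓞 K ⧸ (P ^ i)) =
      Nat.card (𝓞 K ⧸ (P ^ j)) := Submodule.card_quotient_mul_card_quotient (P ^ i) (P ^ j) hle
  have h2 : ∀ k, Nat.card (𝓞 K ⧸ (P ^ k)) = Ideal.absNorm P ^ k := by
    intro k
    rw [← map_pow, Ideal.absNorm_apply, Submodule.cardQuot_apply]
  rw [h2, h2] at h1
  have h3 : Nat.card (Submodule.map (Submodule.mkQ (P ^ j)) (P ^ i)) = Ideal.absNorm P ^ (j - i) := by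
    have h4 : Ideal.absNorm P ^ j = Ideal.absNorm P ^ (j - i) * Ideal.absNorm P ^ i := by
      rw [← pow_add]
      congr 1
      omega
    rw [h4] at h1
    exact Nat.eq_of_mul_eq_mul_right (pow_pos (root_pos hP0) i) h1
  have h5 : Ideal.Quotient.mk (P ^ j) '' {x | x - x0 ∈ P ^ i} =
      (fun q => q + Ideal.Quotient.mk (P ^ j) x0) ''
        ((Submodule.map (Submodule.mkQ (P ^ j)) (P ^ i) : Submodule (𝓞 K) (𝓞 K ⧸ (P ^ j))) : Set (𝓞 K ⧸ (P ^ j))) := by
    ext q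
    constructor
    · rintro ⟨x, hx, rfl⟩
      refine ⟨Ideal.Quotient.mk (P ^ j) (x - x0), ⟨x - x0, hx, rfl⟩, ?_⟩
      simp
    · rintro ⟨_, ⟨y, hy, rfl⟩, rfl⟩
      refine ⟨y + x0, ?_, ?_⟩
      · show y + x0 - x0 ∈ P ^ i
        rw [add_sub_cancel_right]
        exact hy
      · rw [map_add]
        rfl
  rw [h5, Set.ncard_image_of_injective _ (add_left_injective _), ← h3]
  exact (Nat.card_coe_set_eq _).symm

private theorem root_half {P : Ideal (𝓞 K)} (hP : P.IsPrime) (hP0 : P ≠ ⊥) {r j : ℕ} (hrj : 2 * r ≤ j + 1)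
    {y z : 𝓞 K} (h : y * z ∈ P ^ j) (hy : y ∉ P ^ r) : z ∈ P ^ r := by
  have hpr : Prime P := Ideal.prime_of_isPrime hP0 hP
  have hdv : ∀ (k : ℕ) (x : 𝓞 K), x ∈ P ^ k ↔ (k : ℕ∞) ≤ emultiplicity P (Ideal.span {x}) := by
    intro k x
    rw [← pow_dvd_iff_le_emultiplicity, Ideal.dvd_span_singleton]
  rw [hdv, ← Ideal.span_singleton_mul_span_singleton, emultiplicity_mul hpr] at h
  rw [hdv, not_le] at hy
  rw [hdv]
  by_contra hz
  rw [not_le] at hz
  obtain ⟨m, hm⟩ := ENat.ne_top_iff_exists.1 (ne_top_of_lt hy)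
  obtain ⟨n, hn⟩ := ENat.ne_top_iff_exists.1 (ne_top_of_lt hz)
  rw [← hm] at hy h
  rw [← hn] at hz h
  have h1 : m < r := by exact_mod_cast hy
  have h2 : n < r := by exact_mod_cast hz
  have h3 : j ≤ m + n := by exact_mod_cast h
  omega

private theorem root_inv {P : Ideal (𝓞 K)} (hP : P.IsPrime) (hP0 : P ≠ ⊥) (r : ℕ) {a : 𝓞 K} (ha : a ∉ P) :
    ∃ a', a' * a - 1 ∈ P ^ r := by
  have hmax : P.IsMaximal := hP.isMaximal hP0
  have h1 : IsCoprime (Ideal.span {a}) P := by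
    rw [Ideal.isCoprime_iff_sup_eq]
    have h2 : P < Ideal.span {a} ⊔ P := by
      refine lt_of_le_of_ne le_sup_right ?_
      intro h3
      apply ha
      rw [h3]
      exact Ideal.mem_sup_left (Ideal.mem_span_singleton_self a)
    exact hmax.out.2 _ h2
  have h2 : IsCoprime (Ideal.span {a}) (P ^ r) := h1.pow_right
  rw [Ideal.isCoprime_iff_exists] at h2
  obtain ⟨i, hi, p, hp, hip⟩ := h2
  obtain ⟨a', ha'⟩ := Ideal.mem_span_singleton'.1 hi
  refine ⟨a', ?_⟩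
  have h3 : a' * a - 1 = -p := by
    rw [ha', ← hip]
    ring
  rw [h3]
  exact (P ^ r).neg_mem hp

theorem root_card {P : Ideal (𝓞 K)} (hP : P.IsPrime) (hP0 : P ≠ ⊥) (j : ℕ) (a B C : 𝓞 K) (ha : a ∉ P) :
    (Ideal.Quotient.mk (P ^ j) '' {x | a * x ^ 2 + B * x + C ∈ P ^ j}).ncard ≤ 2 * Ideal.absNorm P ^ (j / 2) := by
  rcases Set.eq_empty_or_nonempty {x | a * x ^ 2 + B * x + C ∈ P ^ j} with h0 | ⟨u, hu⟩
  · rw [h0, Set.image_empty, Set.ncard_empty]
    exact Nat.zero_le _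
  have hfin : Finite (𝓞 K ⧸ (P ^ j)) := finQ (root_pow_ne hP0 j)
  obtain ⟨a', ha'⟩ := root_inv hP hP0 ((j + 1) / 2) ha
  have hsub : {x | a * x ^ 2 + B * x + C ∈ P ^ j} ⊆
      {x | x - u ∈ P ^ ((j + 1) / 2)} ∪ {x | x - (-u - a' * B) ∈ P ^ ((j + 1) / 2)} := by
    intro x hx
    by_cases hxu : x - u ∈ P ^ ((j + 1) / 2)
    · exact Or.inl hxu
    right
    have h1 : (x - u) * (a * (x + u) + B) ∈ P ^ j := by
      have h2 : (x - u) * (a * (x + u) + B) = (a * x ^ 2 + B * x + C) - (a * u ^ 2 + B * u + C) := by ring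
      rw [h2]
      exact (P ^ j).sub_mem hx hu
    have h2 := root_half hP hP0 (by omega : 2 * ((j + 1) / 2) ≤ j + 1) h1 hxu
    show x - (-u - a' * B) ∈ P ^ ((j + 1) / 2)
    have h3 : x - (-u - a' * B) = a' * (a * (x + u) + B) - (a' * a - 1) * (x + u) := by ring
    rw [h3]
    exact (P ^ _).sub_mem ((P ^ _).mul_mem_left _ h2) ((P ^ _).mul_mem_right _ ha')
  calc (Ideal.Quotient.mk (P ^ j) '' {x | a * x ^ 2 + B * x + C ∈ P ^ j}).ncard
      ≤ (Ideal.Quotient.mk (P ^ j) '' ({x | x - u ∈ P ^ ((j + 1) / 2)} ∪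
          {x | x - (-u - a' * B) ∈ P ^ ((j + 1) / 2)})).ncard :=
        Set.ncard_le_ncard (Set.image_mono hsub) (Set.toFinite _)
    _ ≤ (Ideal.Quotient.mk (P ^ j) '' {x | x - u ∈ P ^ ((j + 1) / 2)}).ncard +
          (Ideal.Quotient.mk (P ^ j) '' {x | x - (-u - a' * B) ∈ P ^ ((j + 1) / 2)}).ncard := by
        rw [Set.image_union]
        exact Set.ncard_union_le _ _
    _ = 2 * Ideal.absNorm P ^ (j / 2) := by
        rw [coset_card hP hP0 (by omega), coset_card hP hP0 (by omega), show j - (j + 1) / 2 = j / 2 by omega]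
        ring

end H77.PX
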