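import Pool.Agent.H77.PX.Fcl

/-!
# [H77 PX FCE] Splitting off the content; the norm of `E` (80-120 lines)

`fcle`: `x = E_c(b) ≠ 0`, `a_P = od P (span {x})`, `k_P = od P (cn c)`. `x ∈ (cn c)^2` (`dt c ∈ (cn c)^2` by `dt_mem`, `mx b c ∈ cn c`), so
`2 k_P ≤ a_P` and `pf (cn c) ⊆ pf (span {x})`. `lf` satisfies `lf (i + j) ≤ lf i * lf j` (`i + j + 1 ≤ (i + 1)(j + 1)`), `lf 0 = 1`,
`1 ≤ lf k ≤ (k + 1)^48`. So `Fc ≤ ∏_{pf (span {x})} lf (2 k_P) * ∏_{pf (span {x})} lf (a_P - 2 k_P)`. First product: `≤ ∏_{pf (cn c)} (2 k_P + 1)^48`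
(`k_P = 0` for the other `P`). Second product: factors with `h ≤ P` are `1`; the others are among the `p i` (hypothesis `hT`), `p` injective, and all
factors are `≥ 1`, so it is `≤ ∏ i, lf (p i) (..)`.
`nnle`: `∏ i, ni (p i) ^ (a - 2k) ≤ ∏ i, ni (p i) ^ a ≤ ∏_{pf (span {x})} ni P ^ a_P = ni (span {x}) = nz x` (`prod_od`; `a = 0` for `p i` not in `pf`).
`nzE`: at every embedding `|b| ≤ |b - b0| + |b0| ≤ 2 X^A` (entries, `y ≤ X^A`), `|c| ≤ X^A`: `|E_c(b)| ≤ 8 X^(2A) 2 X^(2A) + (8 X^(2A))^2 = 80 X^(4A)`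
`≤ X^(4A+4)` (`X ≥ 3`, `3^4 = 81`); product over the embeddings (`nz_le_vol`, `vol_const`).
-/

set_option autoImplicit false

open scoped NumberField
open H88.A4 H88.WS Pool.Agent.H67.WA

noncomputable section

namespace H77.PX

private theorem fce_lf0 {K : Type} [Field K] [NumberField K] (m : ℕ) (D : 𝓞 K) (g P : Ideal (𝓞 K)) :
    lf m D g P 0 = 1 := by
  unfold lf
  split_ifs <;> simp

private theorem fce_lf1 {K : Type} [Field K] [NumberField K] (m : ℕ) (D : 𝓞 K) (g P : Ideal (𝓞 K))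
    (k : ℕ) : 0 < lf m D g P k := by
  unfold lf
  split_ifs
  · exact Nat.one_pos
  · exact Nat.pow_pos (Nat.succ_pos k)
  · exact Nat.one_pos
  · exact Nat.succ_pos k

private theorem fce_lfle {K : Type} [Field K] [NumberField K] (m : ℕ) (D : 𝓞 K) (g P : Ideal (𝓞 K))
    (k : ℕ) : lf m D g P k ≤ (k + 1) ^ 48 := by
  have h1 : 1 ≤ (k + 1) ^ 48 := Nat.pow_pos (Nat.succ_pos k)
  unfold lf
  split_ifs
  · exact h1
  · exact le_rfl
  · exact h1
  · exact Nat.le_self_pow (by norm_num) _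

private theorem fce_sub {K : Type} [Field K] [NumberField K] (m : ℕ) (D : 𝓞 K) (g P : Ideal (𝓞 K))
    (i j : ℕ) : lf m D g P (i + j) ≤ lf m D g P i * lf m D g P j := by
  have h1 : i + j + 1 ≤ (i + 1) * (j + 1) := by nlinarith [Nat.zero_le (i * j)]
  unfold lf
  split_ifs
  · exact le_rfl
  · rw [← mul_pow]
    exact Nat.pow_le_pow_left h1 48
  · exact le_rfl
  · exact h1

private theorem fce_two {K : Type} [Field K] [NumberField K] (c b : T3 K) (hc : dt c ≠ 0)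
    (hb : Ec c b ≠ 0) (P : Ideal (𝓞 K)) :
    2 * od P (cn c) ≤ od P (Ideal.span {Ec c b}) := by
  classical
  have hm : Ec c b ∈ cn c ^ 2 := by
    unfold Ec
    refine (cn c ^ 2).sub_mem ((cn c ^ 2).mul_mem_left _ (dt_mem (cn_1 c) (cn_2 c) (cn_3 c))) ?_
    refine Ideal.pow_mem_pow ?_ 2
    unfold mx
    exact (cn c).sub_mem ((cn c).add_mem ((cn c).mul_mem_left _ (cn_3 c))
      ((cn c).mul_mem_left _ (cn_1 c))) ((cn c).mul_mem_left _ (cn_2 c))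
  have hd : cn c ^ 2 ∣ Ideal.span {Ec c b} := by
    rw [Ideal.dvd_iff_le, Ideal.span_singleton_le_iff_mem]
    exact hm
  have h1 : cn c ^ 2 ≠ 0 := pow_ne_zero 2 (cn_ne hc)
  have h2 : Ideal.span {Ec c b} ≠ 0 := by
    rw [Ne, Ideal.zero_eq_bot, Ideal.span_singleton_eq_bot]
    exact hb
  have h3 := (UniqueFactorizationMonoid.dvd_iff_normalizedFactors_le_normalizedFactors h1 h2).1 hd
  rw [UniqueFactorizationMonoid.normalizedFactors_pow] at h3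
  have h4 := Multiset.count_le_of_le P h3
  rw [Multiset.count_nsmul] at h4
  unfold od
  exact h4

private theorem fce_pf {K : Type} [Field K] [NumberField K] (I P : Ideal (𝓞 K)) :
    P ∈ pf I ↔ od P I ≠ 0 := by
  classical
  unfold pf od
  rw [Multiset.mem_toFinset, Ne, Multiset.count_eq_zero, not_not]

private theorem fce_nat {K : Type} [Field K] [NumberField K] (m : ℕ) (c b : T3 K) (hc : dt c ≠ 0)
    (hb : Ec c b ≠ 0) (h : Ideal (𝓞 K)) (n : ℕ) (p : Fin n → Ideal (𝓞 K))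
    (hp : Function.Injective p)
    (hT : ∀ P ∈ pf (Ideal.span {Ec c b}), ¬ h ≤ P → ∃ i, p i = P) :
    Fc m (dt c) h (Ec c b) ≤ (∏ P ∈ pf (cn c), (2 * od P (cn c) + 1) ^ 48) *
      ∏ i, lf m (dt c) h (p i) (od (p i) (Ideal.span {Ec c b}) - 2 * od (p i) (cn c)) := by
  classical
  obtain ⟨I, hI⟩ : ∃ I, I = Ideal.span {Ec c b} := ⟨_, rfl⟩
  unfold Fc
  rw [← hI]
  rw [← hI] at hT
  have h2 : ∀ P, 2 * od P (cn c) ≤ od P I := fun P => by
    rw [hI]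
    exact fce_two c b hc hb P
  have hs : pf (cn c) ⊆ pf I := by
    intro P hP
    rw [fce_pf] at hP ⊢
    have := h2 P
    omega
  have e1 : ∏ P ∈ pf I, lf m (dt c) h P (od P I) ≤
      (∏ P ∈ pf I, lf m (dt c) h P (2 * od P (cn c))) *
        ∏ P ∈ pf I, lf m (dt c) h P (od P I - 2 * od P (cn c)) := by
    rw [← Finset.prod_mul_distrib]
    refine Finset.prod_le_prod' fun P _ => ?_
    have h3 := fce_sub m (dt c) h P (2 * od P (cn c)) (od P I - 2 * od P (cn c))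
    rw [Nat.add_sub_cancel' (h2 P)] at h3
    exact h3
  have e2 : ∏ P ∈ pf I, lf m (dt c) h P (2 * od P (cn c)) ≤
      ∏ P ∈ pf (cn c), (2 * od P (cn c) + 1) ^ 48 := by
    have h4 : ∏ P ∈ pf (cn c), (2 * od P (cn c) + 1) ^ 48 =
        ∏ P ∈ pf I, (2 * od P (cn c) + 1) ^ 48 := by
      refine Finset.prod_subset hs fun P _ hP => ?_
      rw [fce_pf, not_not] at hP
      rw [hP]
      norm_num
    rw [h4]
    exact Finset.prod_le_prod' fun P _ => fce_lfle m (dt c) h P _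
  have e3 : ∏ P ∈ pf I, lf m (dt c) h P (od P I - 2 * od P (cn c)) ≤
      ∏ i, lf m (dt c) h (p i) (od (p i) I - 2 * od (p i) (cn c)) := by
    have h5 : ∏ P ∈ (pf I).filter (fun P => ¬ h ≤ P),
        lf m (dt c) h P (od P I - 2 * od P (cn c)) =
        ∏ P ∈ pf I, lf m (dt c) h P (od P I - 2 * od P (cn c)) := by
      refine Finset.prod_subset (Finset.filter_subset _ _) fun P hP hP' => ?_
      rw [Finset.mem_filter, not_and, not_not] at hP'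
      unfold lf
      rw [if_pos (hP' hP)]
    have h6 : (pf I).filter (fun P => ¬ h ≤ P) ⊆ Finset.univ.image p := by
      intro P hP
      rw [Finset.mem_filter] at hP
      obtain ⟨i, hi⟩ := hT P hP.1 hP.2
      rw [Finset.mem_image]
      exact ⟨i, Finset.mem_univ i, hi⟩
    have h7 : ∏ i, lf m (dt c) h (p i) (od (p i) I - 2 * od (p i) (cn c)) =
        ∏ P ∈ Finset.univ.image p, lf m (dt c) h P (od P I - 2 * od P (cn c)) := by
      rw [Finset.prod_image]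
      exact fun i _ j _ hij => hp hij
    rw [← h5, h7, ← Finset.prod_sdiff h6]
    exact Nat.le_mul_of_pos_left _ (Finset.prod_pos fun P _ => fce_lf1 m (dt c) h P _)
  exact e1.trans (Nat.mul_le_mul e2 e3)

theorem fcle {K : Type} [Field K] [NumberField K] (m : ℕ) (c b : T3 K) (hc : dt c ≠ 0) (hb : Ec c b ≠ 0)
    (h : Ideal (𝓞 K)) (n : ℕ) (p : Fin n → Ideal (𝓞 K)) (hp : Function.Injective p)
    (hT : ∀ P ∈ pf (Ideal.span {Ec c b}), ¬ h ≤ P → ∃ i, p i = P) :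
    (Fc m (dt c) h (Ec c b) : ℝ) ≤ (∏ P ∈ pf (cn c), ((2 * od P (cn c) + 1 : ℕ) : ℝ) ^ 48) *
      ∏ i, (lf m (dt c) h (p i) (od (p i) (Ideal.span {Ec c b}) - 2 * od (p i) (cn c)) : ℝ) := by
  have h1 := fce_nat m c b hc hb h n p hp hT
  exact_mod_cast h1

theorem nnle {K : Type} [Field K] [NumberField K] (c b : T3 K) (hb : Ec c b ≠ 0)
    (n : ℕ) (p : Fin n → Ideal (𝓞 K)) (hp : Function.Injective p) (hp' : ∀ i, (p i).IsPrime ∧ p i ≠ ⊥) :
    ∏ i, ni (p i) ^ (od (p i) (Ideal.span {Ec c b}) - 2 * od (p i) (cn c)) ≤ nz (Ec c b) := by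
  classical
  obtain ⟨I, hI⟩ : ∃ I, I = Ideal.span {Ec c b} := ⟨_, rfl⟩
  rw [← hI]
  have hI0 : I ≠ ⊥ := by
    rw [hI, Ne, Ideal.span_singleton_eq_bot]
    exact hb
  have e1 : ∏ i, ni (p i) ^ (od (p i) I - 2 * od (p i) (cn c)) ≤ ∏ i, ni (p i) ^ od (p i) I := by
    refine Finset.prod_le_prod (fun i _ => pow_nonneg (ni_nonneg _) _) fun i _ => ?_
    exact pow_le_pow_right₀ (one_le_ni (hp' i).2) (Nat.sub_le _ _)
  have h7 : ∏ i, ni (p i) ^ od (p i) I = ∏ P ∈ Finset.univ.image p, ni P ^ od P I := by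
    rw [Finset.prod_image]
    exact fun i _ j _ hij => hp hij
  have h8 : ∏ P ∈ (Finset.univ.image p).filter (fun P => P ∈ pf I), ni P ^ od P I =
      ∏ P ∈ Finset.univ.image p, ni P ^ od P I := by
    refine Finset.prod_subset (Finset.filter_subset _ _) fun P hP hP' => ?_
    rw [Finset.mem_filter, not_and] at hP'
    have h9 := hP' hP
    rw [fce_pf, not_not] at h9
    rw [h9, pow_zero]
  have h10 : (Finset.univ.image p).filter (fun P => P ∈ pf I) ⊆ pf I := by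
    intro P hP
    exact (Finset.mem_filter.1 hP).2
  have h11 : ∀ P ∈ pf I, 1 ≤ ni P ^ od P I := by
    intro P hP
    have h12 : P ∈ UniqueFactorizationMonoid.normalizedFactors I := by
      unfold pf at hP
      rw [Multiset.mem_toFinset] at hP
      exact hP
    have h13 : P ≠ ⊥ := (UniqueFactorizationMonoid.prime_of_normalized_factor P h12).ne_zero
    exact one_le_pow₀ (one_le_ni h13)
  have h14 : ∏ P ∈ (Finset.univ.image p).filter (fun P => P ∈ pf I), ni P ^ od P I ≤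
      ∏ P ∈ pf I, ni P ^ od P I := by
    rw [← Finset.prod_sdiff h10]
    refine le_mul_of_one_le_left ?_ ?_
    · exact Finset.prod_nonneg fun P _ => pow_nonneg (ni_nonneg _) _
    · exact Finset.prod_induction _ (fun x => 1 ≤ x)
        (fun a b ha hb => one_le_mul_of_one_le_of_one_le ha hb) le_rfl
        fun P hP => h11 P (Finset.mem_sdiff.1 hP).1
  have h15 : ∏ P ∈ pf I, ni P ^ od P I = nz (Ec c b) := by
    rw [prod_od hI0, hI, nz_ni]
  rw [← h15]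
  exact e1.trans (h7.le.trans (h8.symm.le.trans h14))

private theorem fce_sz {K : Type} [Field K] [NumberField K] (φ : K →+* ℂ) {Y : ℝ} (hY : 0 ≤ Y)
    {b1 b2 b3 c1 c2 c3 : 𝓞 K} (h1 : sz φ b1 ≤ 2 * Y) (h2 : sz φ b2 ≤ 2 * Y) (h3 : sz φ b3 ≤ 2 * Y)
    (g1 : sz φ c1 ≤ Y) (g2 : sz φ c2 ≤ Y) (g3 : sz φ c3 ≤ Y) :
    sz φ ((b1 * b3 - b2 ^ 2) * (c1 * c3 - c2 ^ 2) - (b1 * c3 + b3 * c1 - 2 * b2 * c2) ^ 2) ≤
      80 * Y ^ 4 := by
  have n := fun x => sz_nonneg φ x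
  have hY2 : 0 ≤ 2 * Y := by positivity
  have m1 : sz φ (b1 * b3 - b2 ^ 2) ≤ 8 * Y ^ 2 := by
    refine (sz_sub φ _ _).trans ?_
    rw [sz_mul, sz_pow]
    have a1 : sz φ b1 * sz φ b3 ≤ 2 * Y * (2 * Y) := mul_le_mul h1 h3 (n _) hY2
    have a2 : sz φ b2 ^ 2 ≤ (2 * Y) ^ 2 := pow_le_pow_left₀ (n _) h2 2
    nlinarith
  have m2 : sz φ (c1 * c3 - c2 ^ 2) ≤ 2 * Y ^ 2 := by
    refine (sz_sub φ _ _).trans ?_
    rw [sz_mul, sz_pow]
    have a1 : sz φ c1 * sz φ c3 ≤ Y * Y := mul_le_mul g1 g3 (n _) hY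
    have a2 : sz φ c2 ^ 2 ≤ Y ^ 2 := pow_le_pow_left₀ (n _) g2 2
    nlinarith
  have m3 : sz φ (b1 * c3 + b3 * c1 - 2 * b2 * c2) ≤ 8 * Y ^ 2 := by
    refine (sz_sub φ _ _).trans ?_
    have a0 := sz_add φ (b1 * c3) (b3 * c1)
    rw [sz_mul, sz_mul] at a0
    rw [sz_mul, sz_mul, sz_two]
    have a1 : sz φ b1 * sz φ c3 ≤ 2 * Y * Y := mul_le_mul h1 g3 (n _) hY2
    have a2 : sz φ b3 * sz φ c1 ≤ 2 * Y * Y := mul_le_mul h3 g1 (n _) hY2
    have a3 : sz φ b2 * sz φ c2 ≤ 2 * Y * Y := mul_le_mul h2 g2 (n _) hY2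
    nlinarith
  refine (sz_sub φ _ _).trans ?_
  rw [sz_mul, sz_pow]
  have a1 : sz φ (b1 * b3 - b2 ^ 2) * sz φ (c1 * c3 - c2 ^ 2) ≤ 8 * Y ^ 2 * (2 * Y ^ 2) :=
    mul_le_mul m1 m2 (n _) (by positivity)
  have a2 : sz φ (b1 * c3 + b3 * c1 - 2 * b2 * c2) ^ 2 ≤ (8 * Y ^ 2) ^ 2 :=
    pow_le_pow_left₀ (n _) m3 2
  nlinarith

theorem nzE {K : Type} [Field K] [NumberField K] (X y : ℝ) (A : ℕ) (hX : 3 ≤ X) (hy : y ≤ X ^ A) (c b b0 : T3 K)
    (hc : T3.All (Bd (X ^ A)) c) (hb0 : T3.All (Bd (X ^ A)) b0) (hb : T3.All (Bd y) (b - b0)) :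
    nz (Ec c b) ≤ X ^ ((4 * A + 4) * Module.finrank ℚ K) := by
  rw [pow_mul, ← vol_const]
  refine nz_le_vol fun φ => ?_
  have hY : (0 : ℝ) ≤ X ^ A := by positivity
  have key : ∀ u u0 : 𝓞 K, Bd y (u - u0) → Bd (X ^ A) u0 → sz φ u ≤ 2 * X ^ A := by
    intro u u0 h1 h2
    have h3 := sz_add φ (u - u0) u0
    rw [sub_add_cancel] at h3
    have h4 : sz φ (u - u0) ≤ y := h1 φ
    have h5 : sz φ u0 ≤ X ^ A := h2 φ
    linarith
  have h1 := fce_sz φ hY (key b.1 b0.1 hb.1 hb0.1) (key b.2.1 b0.2.1 hb.2.1 hb0.2.1)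
    (key b.2.2 b0.2.2 hb.2.2 hb0.2.2) (hc.1 φ) (hc.2.1 φ) (hc.2.2 φ)
  have h2 : sz φ (Ec c b) ≤ 80 * (X ^ A) ^ 4 := h1
  refine h2.trans ?_
  have h3 : X ^ (4 * A + 4) = (X ^ A) ^ 4 * X ^ 4 := by
    rw [pow_add, mul_comm 4 A, pow_mul]
  rw [h3]
  have h4 : (80 : ℝ) ≤ X ^ 4 := by
    have h5 : (3 : ℝ) ^ 4 ≤ X ^ 4 := pow_le_pow_left₀ (by norm_num) hX 4
    linarith
  rw [mul_comm]
  exact mul_le_mul_of_nonneg_left h4 (by positivity)

end H77.PX
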