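import Pool.Agent.H77.PX.EDef
import Pool.Agent.H38.TD.MertB

/-!
# [H77 PX MER] Sums over prime ideals, I (60-90 lines)

`mer1`: all ideals `≠ ⊥`: at most `C0 N` ideals of norm `≤ N` (`H88.A4.ideal_card`, `N ≥ 1`), so dyadic blocks `2^k ≤ ni P < 2^(k+1)` contribute at most
`C0 2^(k+1) 2^(-3k/2)`, a convergent geometric series: `∑_{P ∈ T} ni P ^ (-3/2) ≤ B` (or Abel summation; `T` finite, so finitely many blocks).
`mer2`: `H38.TD.mert_log K ∅` (`Zs ∅ w z` = the places with `w < N v ≤ z`, take `w = 0`; `v ↦ v.asIdeal` is injective with image the primes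
`≠ ⊥`, `H38/TD/NtDefs.lean`): `∑_{ni P ≤ z} log (ni P) / ni P ≤ C log z` for `z ≥ 2`; for `1 ≤ z < 2` the sum is empty (`ni P ≥ 2`).
-/

set_option autoImplicit false

open scoped NumberField
open H88.A4 H88.WS Pool.Agent.H67.WA

noncomputable section

namespace H77.PX

theorem two_le_ni {K : Type} [Field K] [NumberField K] {P : Ideal (𝓞 K)} (hP : P.IsPrime) (hP0 : P ≠ ⊥) :
    2 ≤ ni P := by
  have h1 := one_le_ni hP0
  have h2 : Ideal.absNorm P ≠ 1 := fun h => hP.ne_top (Ideal.absNorm_eq_one_iff.1 h)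
  unfold ni at *
  have h3 : 1 ≤ Ideal.absNorm P := by exact_mod_cast h1
  have h4 : 2 ≤ Ideal.absNorm P := by omega
  exact_mod_cast h4

private theorem mer_r : 0 < 2 * (2 : ℝ) ^ (-(3 / 2) : ℝ) ∧ 2 * (2 : ℝ) ^ (-(3 / 2) : ℝ) < 1 := by
  have h1 : 2 * (2 : ℝ) ^ (-(3 / 2) : ℝ) = (2 : ℝ) ^ (-(1 / 2) : ℝ) := by
    have h2 : (-(1 / 2) : ℝ) = 1 + -(3 / 2) := by norm_num
    rw [h2, Real.rpow_add (by norm_num), Real.rpow_one]
  rw [h1]
  exact ⟨Real.rpow_pos_of_pos (by norm_num) _,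
    Real.rpow_lt_one_of_one_lt_of_neg (by norm_num) (by norm_num)⟩

theorem mer1 (K : Type) [Field K] [NumberField K] : ∃ B : ℝ, 1 ≤ B ∧ ∀ T : Finset (Ideal (𝓞 K)),
    (∀ P ∈ T, P.IsPrime ∧ P ≠ ⊥) → ∑ P ∈ T, ni P ^ (-(3 / 2) : ℝ) ≤ B := by
  classical
  obtain ⟨C0, hC0, hC⟩ := ideal_card (K := K)
  obtain ⟨hr0, hr1⟩ := mer_r
  set s : ℝ := (2 : ℝ) ^ (-(3 / 2) : ℝ) with hs
  refine ⟨max 1 (2 * C0 * (1 - 2 * s)⁻¹), le_max_left _ _, fun T hT => le_trans ?_ (le_max_right _ _)⟩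
  set g : Ideal (𝓞 K) → ℕ := fun P => Nat.log 2 (Ideal.absNorm P) with hg
  set n : ℕ := T.sup g + 1 with hn
  have hmap : ∀ P ∈ T, g P ∈ Finset.range n := by
    intro P hP
    rw [Finset.mem_range, hn]
    exact Nat.lt_succ_of_le (Finset.le_sup (f := g) hP)
  rw [← Finset.sum_fiberwise_of_maps_to hmap]
  have hblock : ∀ k ∈ Finset.range n, ∑ P ∈ T with g P = k, ni P ^ (-(3 / 2) : ℝ) ≤
      2 * C0 * (2 * s) ^ k := by
    intro k _
    have h1 : ∀ P ∈ T.filter (fun P => g P = k), ni P ^ (-(3 / 2) : ℝ) ≤ s ^ k := by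
      intro P hP
      obtain ⟨hP1, hP2⟩ := Finset.mem_filter.1 hP
      have h0 : Ideal.absNorm P ≠ 0 := by
        rw [Ne, Ideal.absNorm_eq_zero_iff]
        exact (hT P hP1).2
      have h2 : 2 ^ k ≤ Ideal.absNorm P := by
        rw [← hP2]
        exact Nat.pow_log_le_self 2 h0
      have h3 : ((2 : ℝ) ^ k) ≤ ni P := by
        unfold ni
        exact_mod_cast h2
      have h4 : s ^ k = ((2 : ℝ) ^ k) ^ (-(3 / 2) : ℝ) := by
        rw [hs, ← Real.rpow_natCast, ← Real.rpow_natCast, ← Real.rpow_mul (by norm_num),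
          ← Real.rpow_mul (by norm_num), mul_comm]
      rw [h4]
      exact Real.rpow_le_rpow_of_nonpos (by positivity) h3 (by norm_num)
    have h2 : ((T.filter (fun P => g P = k)).card : ℝ) ≤ C0 * (2 : ℝ) ^ (k + 1) := by
      refine hC _ (one_le_pow₀ (by norm_num)) _ ?_
      intro P hP
      obtain ⟨hP1, hP2⟩ := Finset.mem_filter.1 hP
      refine ⟨(hT P hP1).2, ?_⟩
      have h3 : Ideal.absNorm P < 2 ^ (k + 1) := by
        rw [← hP2]
        exact Nat.lt_pow_succ_log_self (by norm_num) _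
      exact_mod_cast h3.le
    have hs0 : 0 ≤ s := by rw [hs]; positivity
    calc ∑ P ∈ T with g P = k, ni P ^ (-(3 / 2) : ℝ)
        ≤ ∑ P ∈ T with g P = k, s ^ k := Finset.sum_le_sum h1
      _ = ((T.filter (fun P => g P = k)).card : ℝ) * s ^ k := by rw [Finset.sum_const, nsmul_eq_mul]
      _ ≤ C0 * (2 : ℝ) ^ (k + 1) * s ^ k := mul_le_mul_of_nonneg_right h2 (pow_nonneg hs0 k)
      _ = 2 * C0 * (2 * s) ^ k := by rw [mul_pow]; ring
  refine (Finset.sum_le_sum hblock).trans ?_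
  rw [← Finset.mul_sum]
  refine mul_le_mul_of_nonneg_left ?_ (by positivity)
  rw [← tsum_geometric_of_lt_one hr0.le hr1]
  exact (summable_geometric_of_lt_one hr0.le hr1).sum_le_tsum _ fun i _ => pow_nonneg hr0.le i

open Classical in
theorem mer2 (K : Type) [Field K] [NumberField K] : ∃ B : ℝ, 1 ≤ B ∧ ∀ T : Finset (Ideal (𝓞 K)),
    (∀ P ∈ T, P.IsPrime ∧ P ≠ ⊥) → ∀ z : ℝ, 1 ≤ z →
      ∑ P ∈ T with ni P ≤ z, Real.log (ni P) / ni P ≤ B * (1 + Real.log z) := by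
  obtain ⟨C, hC, h⟩ := H38.TD.mert_log K ∅
  refine ⟨max 1 C, le_max_left _ _, fun T hT z hz => ?_⟩
  have hlz : 0 ≤ Real.log z := Real.log_nonneg hz
  have hB : 0 ≤ max 1 C * (1 + Real.log z) :=
    mul_nonneg (zero_le_one.trans (le_max_left _ _)) (by linarith)
  by_cases hz2 : z < 2
  · have h1 : T.filter (fun P => ni P ≤ z) = ∅ := by
      rw [Finset.filter_eq_empty_iff]
      intro P hP hPz
      have := two_le_ni (hT P hP).1 (hT P hP).2
      linarith
    rw [h1, Finset.sum_empty]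
    exact hB
  · have h1 := h 0 z (not_lt.1 hz2)
    have h2 : ∑ P ∈ (H38.TD.Zs (∅ : Set (H38.TD.Pl K)) 0 z).image (fun v => v.1.asIdeal),
        Real.log (ni P) / ni P = ∑ v ∈ H38.TD.Zs (∅ : Set (H38.TD.Pl K)) 0 z,
          Real.log (H38.TD.nv v.1) / (H38.TD.nv v.1 : ℝ) := by
      rw [Finset.sum_image]
      · rfl
      · intro v _ v' _ hv
        exact Subtype.ext (IsDedekindDomain.HeightOneSpectrum.ext hv)
    have h3 : ∑ P ∈ T with ni P ≤ z, Real.log (ni P) / ni P ≤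
        ∑ P ∈ (H38.TD.Zs (∅ : Set (H38.TD.Pl K)) 0 z).image (fun v => v.1.asIdeal),
          Real.log (ni P) / ni P := by
      refine Finset.sum_le_sum_of_subset_of_nonneg ?_ ?_
      · intro P hP
        obtain ⟨hP1, hP2⟩ := Finset.mem_filter.1 hP
        obtain ⟨hp, hb⟩ := hT P hP1
        refine Finset.mem_image.2 ⟨⟨⟨P, hp, hb⟩, Set.notMem_empty _⟩, ?_, rfl⟩
        rw [H38.TD.mem_Zs]
        refine ⟨hP2, ?_⟩
        exact_mod_cast H38.TD.nv_pos _
      · intro P hP _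
        obtain ⟨v, -, rfl⟩ := Finset.mem_image.1 hP
        have h4 : 1 ≤ ni v.1.asIdeal := one_le_ni v.1.ne_bot
        exact div_nonneg (Real.log_nonneg h4) (by linarith)
    calc _ ≤ C * Real.log z := by rw [h2] at h3; exact h3.trans h1
      _ ≤ max 1 C * (1 + Real.log z) :=
        mul_le_mul (le_max_right _ _) (by linarith) hlz (zero_le_one.trans (le_max_left _ _))

end H77.PX
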