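import Pool.Agent.H77.PX.EDef

/-!
# [H77 PX CON] Removing the content at one prime (50-80 lines)

`k = od P (cn c)` (`cn c ≠ ⊥` by `cn_ne`), so `cn c ≤ P^k`, not `≤ P^(k+1)` (`od` is the multiplicity: `UniqueFactorizationMonoid.normalizedFactors`,
`Ideal.dvd_iff_le`, `Multiset.le_count_iff_replicate_le`, `UniqueFactorizationMonoid.dvd_iff_normalizedFactors_le_normalizedFactors`...).
Choose `π ∈ P^k`, `π ∉ P^(k+1)`. `(π) = P^k J`, `J` not `≤ P`. Choose `a ∈ J`, `a ∉ P`. For every entry `x` of `c`: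
`a x ∈ J P^k = (π)`, so `a x = π x'`; `c' = (x')`. If all entries of `c'` were in `P`: `a x ∈ P^(k+1)`, `a ∉ P`, so `x ∈ P^(k+1)` for all
entries, `cn c ≤ P^(k+1)`, a contradiction: `Pm P c'`. `a^2 dt c = π^2 dt c'`: if `dt c ∉ P` then `dt c' ∉ P` (`a ∉ P`, `P` prime: the left side
is not in `P`). `a^2 E_c(b) = E_(a c)(b) = E_(π c')(b) = π^2 E_c'(b)` (`Ec_smul`). If `j ≥ 1`: `j + 2 k ≤ od P (E_c(b))`, so
`E_c(b) ∈ P^(j + 2k)`, `π^2 E_c'(b) ∈ P^(j+2k)`, `π^2` has exponent exactly `2 k`, so `E_c'(b) ∈ P^j`. `j = 0`: trivial.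
-/

set_option autoImplicit false

open scoped NumberField
open H88.A4 H88.WS Pool.Agent.H67.WA

noncomputable section

namespace H77.PX

variable {K : Type} [Field K] [NumberField K]

private theorem le_od {P I : Ideal (𝓞 K)} (hP : P.IsPrime) (hP0 : P ≠ ⊥) (hI : I ≠ ⊥) (j : ℕ) :
    j ≤ od P I ↔ I ≤ P ^ j := by
  classical
  have hPi : Irreducible P := (Ideal.prime_of_isPrime hP0 hP).irreducible
  rw [← Ideal.dvd_iff_le]
  rw [UniqueFactorizationMonoid.dvd_iff_normalizedFactors_le_normalizedFactors (pow_ne_zero j hP0) hI,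
    UniqueFactorizationMonoid.normalizedFactors_pow, UniqueFactorizationMonoid.normalizedFactors_irreducible hPi,
    normalize_eq, Multiset.nsmul_singleton, ← Multiset.le_count_iff_replicate_le]
  unfold od
  rfl

private theorem strip {P J : Ideal (𝓞 K)} (hP : P.IsPrime) (hP0 : P ≠ ⊥) {π a : 𝓞 K} {k : ℕ}
    (hJ : Ideal.span {π} = P ^ k * J) (ha : a ∈ J) (haP : a ∉ P) {y : 𝓞 K} {j : ℕ}
    (h : π * y ∈ P ^ (k + j)) : y ∈ P ^ j := by
  have h1 : P ^ (k + j) ∣ Ideal.span {π * y} := Ideal.dvd_iff_le.2 ((Ideal.span_singleton_le_iff_mem _).2 h)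
  rw [← Ideal.span_singleton_mul_span_singleton, hJ, pow_add, mul_assoc] at h1
  have h2 : P ^ j ∣ J * Ideal.span {y} := (mul_dvd_mul_iff_left (pow_ne_zero k hP0)).1 h1
  have h3 : a * y ∈ P ^ j := Ideal.dvd_iff_le.1 h2 (Ideal.mul_mem_mul ha (Ideal.mem_span_singleton_self y))
  exact (Ideal.IsPrime.mul_mem_pow P h3).resolve_left haP

theorem con {P : Ideal (𝓞 K)} (hP : P.IsPrime) (hP0 : P ≠ ⊥) (c : T3 K) (hc : dt c ≠ 0) :
    ∃ c' : T3 K, Pm P c' ∧ (dt c ∉ P → dt c' ∉ P) ∧ ∀ (b : T3 K) (j : ℕ), Ec c b ≠ 0 →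
      j ≤ od P (Ideal.span {Ec c b}) - 2 * od P (cn c) → Ec c' b ∈ P ^ j := by
  have hcn : cn c ≠ ⊥ := cn_ne hc
  set k := od P (cn c) with hk
  have hle : cn c ≤ P ^ k := (le_od hP hP0 hcn k).1 le_rfl
  obtain ⟨π, hπ, hπ2⟩ := SetLike.exists_of_lt (Ideal.pow_succ_lt_pow hP0 k)
  obtain ⟨J, hJ⟩ := Ideal.dvd_iff_le.2 ((Ideal.span_singleton_le_iff_mem (P ^ k)).2 hπ)
  have hJP : ¬ J ≤ P := by
    intro h
    apply hπ2
    rw [← Ideal.span_singleton_le_iff_mem, hJ, pow_succ]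
    exact Ideal.mul_mono_right h
  obtain ⟨a, haJ, haP⟩ := SetLike.not_le_iff_exists.1 hJP
  have hex : ∀ x ∈ cn c, ∃ x' : 𝓞 K, a * x = π * x' := by
    intro x hx
    have h1 : a * x ∈ Ideal.span {π} := by
      rw [hJ, mul_comm (P ^ k) J]
      exact Ideal.mul_mem_mul haJ (hle hx)
    obtain ⟨x', hx'⟩ := Ideal.mem_span_singleton'.1 h1
    exact ⟨x', by rw [← hx', mul_comm]⟩
  obtain ⟨x1, h1⟩ := hex _ (cn_1 c)
  obtain ⟨x2, h2⟩ := hex _ (cn_2 c)
  obtain ⟨x3, h3⟩ := hex _ (cn_3 c)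
  have hmem : ∀ x x' : 𝓞 K, a * x = π * x' → x' ∈ P → x ∈ P ^ (k + 1) := by
    intro x x' h hx'
    have h4 : a * x ∈ P ^ (k + 1) := by
      rw [h, pow_succ]
      exact Ideal.mul_mem_mul hπ hx'
    exact (Ideal.IsPrime.mul_mem_pow P h4).resolve_left haP
  refine ⟨(x1, x2, x3), ?_, ?_, ?_⟩
  · rintro ⟨q1, q2, q3⟩
    have h4 : cn c ≤ P ^ (k + 1) := cn_le (hmem _ _ h1 q1) (hmem _ _ h2 q2) (hmem _ _ h3 q3)
    have h5 := (le_od hP hP0 hcn (k + 1)).2 h4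
    omega
  · intro hd hd'
    have e1 : a ^ 2 * dt c = π ^ 2 * dt ((x1, x2, x3) : T3 K) := by
      unfold dt
      calc a ^ 2 * (c.1 * c.2.2 - c.2.1 ^ 2) = (a * c.1) * (a * c.2.2) - (a * c.2.1) ^ 2 := by ring
        _ = (π * x1) * (π * x3) - (π * x2) ^ 2 := by rw [h1, h2, h3]
        _ = π ^ 2 * (x1 * x3 - x2 ^ 2) := by ring
    have e2 : a ^ 2 * dt c ∈ P := by
      rw [e1]
      exact P.mul_mem_left _ hd'
    rcases hP.mem_or_mem e2 with h4 | h4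
    · exact haP (hP.mem_of_pow_mem 2 h4)
    · exact hd h4
  · intro b j hE hj
    rcases Nat.eq_zero_or_pos j with rfl | hj0
    · rw [pow_zero, Ideal.one_eq_top]
      exact Submodule.mem_top
    · have h4 : k + (k + j) ≤ od P (Ideal.span {Ec c b}) := by omega
      have h5 : Ec c b ∈ P ^ (k + (k + j)) := by
        rw [← Ideal.span_singleton_le_iff_mem]
        exact (le_od hP hP0 (span_ne hE) _).1 h4
      have h6 : a ^ 2 * Ec c b = π * (π * Ec ((x1, x2, x3) : T3 K) b) := by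
        rw [← Ec_smul, h1, h2, h3]
        have h7 := Ec_smul π ((x1, x2, x3) : T3 K) b
        rw [h7]
        ring
      have h7 : π * (π * Ec ((x1, x2, x3) : T3 K) b) ∈ P ^ (k + (k + j)) := by
        rw [← h6]
        exact Ideal.mul_mem_left _ _ h5
      exact strip hP hP0 hJ haJ haP (strip hP hP0 hJ haJ haP h7)

end H77.PX
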