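import Pool.Agent.H77.PX.Cq

/-!
# [H77 PX TQ] The number of zeros of the ternary form `E_c` over a finite field (Mathlib only, 70-110 lines)

`D = c1 c3 - c2^2`, `E(b) = (b1 b3 - b2^2) D - (b1 c3 + b3 c1 - 2 b2 c2)^2`, `χ = quadraticChar F`, `q = card F`.
`num`: for `a ≠ 0` the number of `u ∈ F` with `a u^2 + B u + C = 0` is `1 + χ(B^2 - 4 a C)` (`(2 a u + B)^2 = B^2 - 4 a C`,
`quadraticChar_card_sqrts`, `u ↦ 2 a u + B` bijective).
Substitute, in three cases, `b = (u, s, t)` if `c3 ≠ 0`; `b = (t, s, u)` if `c1 ≠ 0`; `b = (u, s, u + t)` if `c1 = c3 = 0` (then `c2 ≠ 0`); each is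
a bijection of `F^3`. `E = a u^2 + B u + C` with `a = - c3^2`, `- c1^2`, `D` (all `≠ 0`), `B` linear and `C` quadratic in `(s, t)`:
case 1: `w = t c1 - 2 s c2`, `B = D t - 2 c3 w`, `C = -D s^2 - w^2`; case 2: `w = t c3 - 2 s c2`, `B = D t - 2 c1 w`, `C = -D s^2 - w^2`;
case 3: `B = D t`, `C = - D s^2 - 4 c2^2 s^2 = 3 D s^2`. Then `B^2 - 4 a C = α s^2 + β s t + γ t^2`:
case 1: `D (-4 c3^2 s^2 + 8 c2 c3 s t + (D - 4 c1 c3) t^2)`, case 2: the same with `c1, c3` exchanged, case 3: `-12 D^2 s^2 + D^2 t^2`, and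
`β^2 - 4 α γ = 48 a D^3 ≠ 0` (case 1: `16 c3^2 D^2 (4 c2^2 + D - 4 c1 c3) = -48 c3^2 D^3`; `2, 3 ≠ 0`). So the number of zeros is
`∑_(s,t) (1 + χ(α s^2 + β s t + γ t^2)) = q^2` by `cq2`.
-/

set_option autoImplicit false

namespace H77.PX

private theorem num {F : Type} [Field F] [Fintype F] [DecidableEq F] (hF : ringChar F ≠ 2) {a : F} (ha : a ≠ 0)
    (B C : F) : ((Finset.univ.filter fun u : F => a * u ^ 2 + B * u + C = 0).card : ℤ) =
      1 + quadraticChar F (B ^ 2 - 4 * a * C) := by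
  have h2 : (2 : F) ≠ 0 := Ring.two_ne_zero hF
  rw [add_comm, ← quadraticChar_card_sqrts hF (B ^ 2 - 4 * a * C)]
  congr 1
  refine Finset.card_bij (fun u _ => 2 * a * u + B) ?_ ?_ ?_
  · intro u hu
    have h3 := (Finset.mem_filter.1 hu).2
    rw [Set.mem_toFinset, Set.mem_ofPred_eq]
    linear_combination 4 * a * h3
  · intro u _ v _ huv
    exact mul_left_cancel₀ (mul_ne_zero h2 ha) (add_right_cancel huv)
  · intro x hx
    rw [Set.mem_toFinset, Set.mem_ofPred_eq] at hx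
    have h5 : 2 * a * ((x - B) / (2 * a)) = x - B := by
      field_simp
    refine ⟨(x - B) / (2 * a), ?_, ?_⟩
    · rw [Finset.mem_filter]
      refine ⟨Finset.mem_univ _, ?_⟩
      have h4 : (2 * 2 * a) * (a * ((x - B) / (2 * a)) ^ 2 + B * ((x - B) / (2 * a)) + C) = 0 := by
        have h6 : (2 * 2 * a) * (a * ((x - B) / (2 * a)) ^ 2 + B * ((x - B) / (2 * a)) + C) =
            (2 * a * ((x - B) / (2 * a))) ^ 2 + 2 * B * (2 * a * ((x - B) / (2 * a))) + 4 * a * C := by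
          ring
        rw [h6, h5]
        linear_combination hx
      exact (mul_eq_zero.1 h4).resolve_left (mul_ne_zero (mul_ne_zero h2 h2) ha)
    · rw [h5]
      ring

private theorem core {F : Type} [Field F] [Fintype F] [DecidableEq F] (hF : ringChar F ≠ 2) {a : F} (ha : a ≠ 0)
    (B C : F → F → F) (α β γ : F) (hd : β ^ 2 - 4 * α * γ ≠ 0)
    (h : ∀ s t, B s t ^ 2 - 4 * a * C s t = α * s ^ 2 + β * s * t + γ * t ^ 2) :
    (Finset.univ.filter fun b : F × F × F => a * b.1 ^ 2 + B b.2.1 b.2.2 * b.1 + C b.2.1 b.2.2 = 0).card =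
      Fintype.card F ^ 2 := by
  have h1 : ((Finset.univ.filter fun b : F × F × F =>
      a * b.1 ^ 2 + B b.2.1 b.2.2 * b.1 + C b.2.1 b.2.2 = 0).card : ℤ) = (Fintype.card F : ℤ) ^ 2 := by
    rw [Finset.card_filter]
    push_cast
    rw [Fintype.sum_prod_type_right]
    have h2 : ∀ x : F × F, ∑ u : F, (if a * u ^ 2 + B x.1 x.2 * u + C x.1 x.2 = 0 then (1 : ℤ) else 0) =
        1 + quadraticChar F (α * x.1 ^ 2 + β * x.1 * x.2 + γ * x.2 ^ 2) := by
      intro x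
      rw [← h x.1 x.2, ← num hF ha (B x.1 x.2) (C x.1 x.2), Finset.card_filter]
      push_cast
      rfl
    rw [Finset.sum_congr rfl fun x _ => h2 x, Finset.sum_add_distrib, cq2 F hF α β γ hd, add_zero,
      Finset.sum_const, Finset.card_univ, Fintype.card_prod, nsmul_eq_mul, mul_one]
    push_cast
    ring
  exact_mod_cast h1

theorem tq (F : Type) [Field F] [Fintype F] [DecidableEq F] (hF : ringChar F ≠ 2) (h3 : (3 : F) ≠ 0)
    (c1 c2 c3 : F) (hc : c1 * c3 - c2 ^ 2 ≠ 0) :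
    (Finset.univ.filter fun b : F × F × F => (b.1 * b.2.2 - b.2.1 ^ 2) * (c1 * c3 - c2 ^ 2) -
      (b.1 * c3 + b.2.2 * c1 - 2 * b.2.1 * c2) ^ 2 = 0).card = Fintype.card F ^ 2 := by
  have h2 : (2 : F) ≠ 0 := Ring.two_ne_zero hF
  have h48 : (48 : F) ≠ 0 := by
    have h5 : (48 : F) = 3 * 2 ^ 4 := by norm_num
    rw [h5]
    exact mul_ne_zero h3 (pow_ne_zero 4 h2)
  by_cases hc3 : c3 = 0
  · by_cases hc1 : c1 = 0
    · subst hc3
      subst hc1
      have hc2 : c2 ≠ 0 := by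
        rintro rfl
        apply hc
        ring
      rw [← core (a := -c2 ^ 2) hF (neg_ne_zero.2 (pow_ne_zero 2 hc2)) (fun _ t => -c2 ^ 2 * t)
        (fun s _ => -3 * c2 ^ 2 * s ^ 2) (-12 * c2 ^ 4) 0 (c2 ^ 4) (by
          have h6 : (0 : F) ^ 2 - 4 * (-12 * c2 ^ 4) * c2 ^ 4 = 48 * c2 ^ 8 := by ring
          rw [h6]
          exact mul_ne_zero h48 (pow_ne_zero 8 hc2)) (by
          intro s t
          ring)]
      refine Finset.card_bij (fun b _ => (b.1, b.2.1, b.2.2 - b.1)) ?_ ?_ ?_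
      · intro b hb
        have h7 := (Finset.mem_filter.1 hb).2
        rw [Finset.mem_filter]
        refine ⟨Finset.mem_univ _, ?_⟩
        linear_combination h7
      · rintro ⟨x1, x2, x3⟩ _ ⟨y1, y2, y3⟩ _ hxy
        simp only [Prod.mk.injEq] at hxy ⊢
        obtain ⟨h7, h8, h9⟩ := hxy
        refine ⟨h7, h8, ?_⟩
        rw [h7] at h9
        exact sub_left_injective h9
      · rintro ⟨x1, x2, x3⟩ hx
        have h7 := (Finset.mem_filter.1 hx).2
        refine ⟨(x1, x2, x3 + x1), ?_, ?_⟩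
        · rw [Finset.mem_filter]
          refine ⟨Finset.mem_univ _, ?_⟩
          linear_combination h7
        · simp
    · rw [← core (a := -c1 ^ 2) hF (neg_ne_zero.2 (pow_ne_zero 2 hc1))
        (fun s t => (c1 * c3 - c2 ^ 2) * t - 2 * c1 * (t * c3 - 2 * s * c2))
        (fun s t => -(c1 * c3 - c2 ^ 2) * s ^ 2 - (t * c3 - 2 * s * c2) ^ 2)
        ((c1 * c3 - c2 ^ 2) * (-4 * c1 ^ 2)) ((c1 * c3 - c2 ^ 2) * (8 * c2 * c1))
        ((c1 * c3 - c2 ^ 2) * ((c1 * c3 - c2 ^ 2) - 4 * c1 * c3)) (by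
          have h6 : ((c1 * c3 - c2 ^ 2) * (8 * c2 * c1)) ^ 2 - 4 * ((c1 * c3 - c2 ^ 2) * (-4 * c1 ^ 2)) *
              ((c1 * c3 - c2 ^ 2) * ((c1 * c3 - c2 ^ 2) - 4 * c1 * c3)) =
              -(48 * c1 ^ 2 * (c1 * c3 - c2 ^ 2) ^ 3) := by ring
          rw [h6]
          exact neg_ne_zero.2 (mul_ne_zero (mul_ne_zero h48 (pow_ne_zero 2 hc1)) (pow_ne_zero 3 hc))) (by
          intro s t
          ring)]
      refine Finset.card_bij (fun b _ => (b.2.2, b.2.1, b.1)) ?_ ?_ ?_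
      · intro b hb
        have h7 := (Finset.mem_filter.1 hb).2
        rw [Finset.mem_filter]
        refine ⟨Finset.mem_univ _, ?_⟩
        linear_combination h7
      · rintro ⟨x1, x2, x3⟩ _ ⟨y1, y2, y3⟩ _ hxy
        simp only [Prod.mk.injEq] at hxy ⊢
        exact ⟨hxy.2.2, hxy.2.1, hxy.1⟩
      · rintro ⟨x1, x2, x3⟩ hx
        have h7 := (Finset.mem_filter.1 hx).2
        refine ⟨(x3, x2, x1), ?_, rfl⟩
        rw [Finset.mem_filter]
        refine ⟨Finset.mem_univ _, ?_⟩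
        linear_combination h7
  · rw [← core (a := -c3 ^ 2) hF (neg_ne_zero.2 (pow_ne_zero 2 hc3))
      (fun s t => (c1 * c3 - c2 ^ 2) * t - 2 * c3 * (t * c1 - 2 * s * c2))
      (fun s t => -(c1 * c3 - c2 ^ 2) * s ^ 2 - (t * c1 - 2 * s * c2) ^ 2)
      ((c1 * c3 - c2 ^ 2) * (-4 * c3 ^ 2)) ((c1 * c3 - c2 ^ 2) * (8 * c2 * c3))
      ((c1 * c3 - c2 ^ 2) * ((c1 * c3 - c2 ^ 2) - 4 * c1 * c3)) (by
        have h6 : ((c1 * c3 - c2 ^ 2) * (8 * c2 * c3)) ^ 2 - 4 * ((c1 * c3 - c2 ^ 2) * (-4 * c3 ^ 2)) *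
            ((c1 * c3 - c2 ^ 2) * ((c1 * c3 - c2 ^ 2) - 4 * c1 * c3)) =
            -(48 * c3 ^ 2 * (c1 * c3 - c2 ^ 2) ^ 3) := by ring
        rw [h6]
        exact neg_ne_zero.2 (mul_ne_zero (mul_ne_zero h48 (pow_ne_zero 2 hc3)) (pow_ne_zero 3 hc))) (by
        intro s t
        ring)]
    congr 1
    ext b
    rw [Finset.mem_filter, Finset.mem_filter]
    refine and_congr_right fun _ => ?_
    rw [← sub_eq_zero (a := _ - _) (b := (0 : F))]
    constructor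
    · intro h7
      linear_combination h7
    · intro h7
      linear_combination h7

end H77.PX
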