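import Pool.Agent.H77.PX.Root
import Pool.Agent.H77.PX.Tq

/-!
# [H77 PX Z12] The number of classes modulo `P` and `P^2`, `P` good (90-140 lines)

`z1`: `F = 𝓞 K / P` is a finite field (`Ideal.Quotient.field`, `P` maximal), `2, 3 ≠ 0` in `F` (so `ringChar F ≠ 2`), `card F = absNorm P`.
`Zc c P` (`mem_Zc`, every triple of classes is `q3 P b`, `q3_surj`) is the set of `tq` for the classes of the entries of `c`
(`E_c(b) ∈ P` iff its class is `0`, `map_sub`, `map_mul`, ...; `dt c ∉ P`).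

`z2`: `N = absNorm P`. Reduction `ρ : Q3 (P^2) → Q3 P` (`Ideal.Quotient.factor`) maps `Zc c (P^2)` into `Zc c P` (at most `N^2` elements, `z1`).
Fibre over `q3 P b0` (`b0` any element with `E_c(b0) ∈ P^2`):
* `b0` with some entry not in `P`: the gradient `g = (b.2.2 D - 2 w c.2.2, 4 w c.2.1 - 2 b.2.1 D, b.1 D - 2 w c.1)` (`D = dt c`, `w = mx b0 c`,
  `b = b0`) is not `0` modulo `P`: if all are in `P`, then `D b ≡ 2 w c` (all three entries; for the second divide by `2 ∉ P`), and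
  `mx (.., c)` of both sides: `D w ≡ 2 w (mx c c) = 4 w D` (`mx c c = 2 dt c`), `3 w D ≡ 0`, `w ≡ 0`, `D b ≡ 0`, `b ≡ 0`. For `b = b0 + t`,
  `t ∈ P^3` (entries), `E_c(b) = E_c(b0) + E_c(t) + g t` (`Ec_add`), `E_c(t) ∈ P^2` (`Ec` is homogeneous of degree two in `t`), so `g t ∈ P^2`.
  If `g_i ∉ P`, the class of `t_i` modulo `P^2` is determined by the two others (`g_i (t_i - t'_i) ∈ P^2`). The classes modulo `P^2` of the
  elements of `P` are `N` (`coset_card`, `i = 1`, `j = 2`, `x0 = 0`, or the coset of the entry of `b0`). So the fibre has at most `N^2` elements.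
* `b0` with all entries in `P`: one such class, fibre of at most `N^3` elements.
Total `≤ N^2 N^2 + N^3 ≤ 2 N^4`.
-/

set_option autoImplicit false

open scoped NumberField
open H88.A4 H88.WS Pool.Agent.H67.WA

noncomputable section

namespace H77.PX

variable {K : Type} [Field K] [NumberField K]

private theorem z12_card (P : Ideal (𝓞 K)) : Ideal.absNorm P = Nat.card (𝓞 K ⧸ P) := by
  rw [Ideal.absNorm_apply, Submodule.cardQuot_apply]

theorem z1 {P : Ideal (𝓞 K)} (hP : P.IsPrime) (hP0 : P ≠ ⊥) (h2 : (2 : 𝓞 K) ∉ P) (h3 : (3 : 𝓞 K) ∉ P)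
    (c : T3 K) (hc : dt c ∉ P) : zn c P ≤ Ideal.absNorm P ^ 2 := by
  classical
  have hmax : P.IsMaximal := hP.isMaximal hP0
  have := finQ hP0
  letI : Field (𝓞 K ⧸ P) := Ideal.Quotient.field P
  letI : Fintype (𝓞 K ⧸ P) := Fintype.ofFinite _
  have hF : ringChar (𝓞 K ⧸ P) ≠ 2 := by
    intro h
    apply h2
    rw [← Ideal.Quotient.eq_zero_iff_mem]
    have h4 : ((2 : ℕ) : 𝓞 K ⧸ P) = 0 := (ringChar.spec _ 2).2 (by rw [h])
    rw [map_ofNat]
    exact_mod_cast h4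
  have h3' : (3 : 𝓞 K ⧸ P) ≠ 0 := by
    intro h
    apply h3
    rw [← Ideal.Quotient.eq_zero_iff_mem, map_ofNat]
    exact h
  have hD : Ideal.Quotient.mk P c.1 * Ideal.Quotient.mk P c.2.2 - Ideal.Quotient.mk P c.2.1 ^ 2 ≠ 0 := by
    intro h
    apply hc
    rw [← Ideal.Quotient.eq_zero_iff_mem]
    unfold dt
    rw [map_sub, map_mul, map_pow]
    exact h
  have key := tq (𝓞 K ⧸ P) hF h3' (Ideal.Quotient.mk P c.1) (Ideal.Quotient.mk P c.2.1)
    (Ideal.Quotient.mk P c.2.2) hD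
  unfold zn
  rw [z12_card, Nat.card_eq_fintype_card, ← key, ← Set.ncard_coe_finset]
  refine Set.ncard_le_ncard ?_ (Finset.finite_toSet _)
  rintro z ⟨b, hb, rfl⟩
  rw [Finset.mem_coe, Finset.mem_filter]
  refine ⟨Finset.mem_univ _, ?_⟩
  have h5 : Ideal.Quotient.mk P (Ec c b) = 0 := Ideal.Quotient.eq_zero_iff_mem.2 hb
  rw [← h5]
  unfold Ec mx dt
  simp only [q3, map_sub, map_mul, map_pow, map_add, map_ofNat]

/-- the fibre over a class which is not zero -/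
private theorem z12_fib {P : Ideal (𝓞 K)} (hP : P.IsPrime) (hP0 : P ≠ ⊥) (h2 : (2 : 𝓞 K) ∉ P)
    (h3 : (3 : 𝓞 K) ∉ P) (c : T3 K) (hc : dt c ∉ P) (b0 : T3 K) (hb0 : Ec c b0 ∈ P ^ 2)
    (hn : ¬ (b0.1 ∈ P ∧ b0.2.1 ∈ P ∧ b0.2.2 ∈ P)) (S : Set (Q3 (P ^ 2)))
    (hS : ∀ a ∈ S, ∃ b : T3 K, a = q3 (P ^ 2) b ∧ Ec c b ∈ P ^ 2 ∧ b.1 - b0.1 ∈ P ∧ b.2.1 - b0.2.1 ∈ P ∧
      b.2.2 - b0.2.2 ∈ P) : S.ncard ≤ Ideal.absNorm P ^ 2 := by
  classical
  have hP2 : P ^ 2 ≠ ⊥ := pow_ne_zero 2 hP0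
  have := finQ hP2
  have hcs : ∀ x0, (Ideal.Quotient.mk (P ^ 2) '' {x | x - x0 ∈ P}).ncard = Ideal.absNorm P := by
    intro x0
    have h4 := coset_card hP hP0 (i := 1) (j := 2) (by norm_num) x0
    simpa only [pow_one, show 2 - 1 = 1 from rfl] using h4
  have hpr : ∀ x y, ((Ideal.Quotient.mk (P ^ 2) '' {z | z - x ∈ P}) ×ˢ
      (Ideal.Quotient.mk (P ^ 2) '' {z | z - y ∈ P})).ncard = Ideal.absNorm P ^ 2 := by
    intro x y
    rw [Set.ncard_prod, hcs, hcs, sq]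
  -- the gradient
  set g1 := b0.2.2 * dt c - 2 * mx b0 c * c.2.2 with hg1
  set g2 := 4 * mx b0 c * c.2.1 - 2 * b0.2.1 * dt c with hg2
  set g3 := b0.1 * dt c - 2 * mx b0 c * c.1 with hg3
  have hlin : ∀ b : T3 K, Ec c b ∈ P ^ 2 → b.1 - b0.1 ∈ P → b.2.1 - b0.2.1 ∈ P → b.2.2 - b0.2.2 ∈ P →
      g1 * (b.1 - b0.1) + g2 * (b.2.1 - b0.2.1) + g3 * (b.2.2 - b0.2.2) ∈ P ^ 2 := by
    intro b hb k1 k2 k3
    have e := Ec_add c b0 (b - b0)
    rw [add_sub_cancel] at e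
    have e1 : (b - b0).1 = b.1 - b0.1 := rfl
    have e2 : (b - b0).2.1 = b.2.1 - b0.2.1 := rfl
    have e3 : (b - b0).2.2 = b.2.2 - b0.2.2 := rfl
    have e4 : Ec c (b - b0) ∈ P ^ 2 := by
      unfold Ec
      have m1 : dt (b - b0) ∈ P ^ 2 := by
        unfold dt
        rw [e1, e2, e3]
        refine Ideal.sub_mem _ ?_ (Ideal.pow_mem_pow k2 2)
        rw [sq]
        exact Ideal.mul_mem_mul k1 k3
      have m2 : mx (b - b0) c ∈ P := by
        unfold mx
        rw [e1, e2, e3]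
        exact P.sub_mem (P.add_mem (P.mul_mem_right _ k1) (P.mul_mem_right _ k3))
          (P.mul_mem_right _ (P.mul_mem_left _ k2))
      exact Ideal.sub_mem _ (Ideal.mul_mem_right _ _ m1) (Ideal.pow_mem_pow m2 2)
    have e5 : g1 * (b.1 - b0.1) + g2 * (b.2.1 - b0.2.1) + g3 * (b.2.2 - b0.2.2) =
        Ec c b - Ec c b0 - Ec c (b - b0) := by
      rw [e, e1, e2, e3]
      ring
    rw [e5]
    exact Ideal.sub_mem _ (Ideal.sub_mem _ hb hb0) e4
  have hpow : ∀ g x : 𝓞 K, g ∉ P → g * x ∈ P ^ 2 → x ∈ P ^ 2 := fun g x hg hx =>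
    (Ideal.IsPrime.mul_mem_pow P hx).resolve_left hg
  have hfin : ∀ x y, ((Ideal.Quotient.mk (P ^ 2) '' {z | z - x ∈ P}) ×ˢ
      (Ideal.Quotient.mk (P ^ 2) '' {z | z - y ∈ P})).Finite := fun _ _ => Set.toFinite _
  by_cases hh1 : g1 ∈ P
  · by_cases hh2 : g2 ∈ P
    · by_cases hh3 : g3 ∈ P
      · exfalso
        have q1 : 3 * (mx b0 c * dt c) ∈ P := by
          have e : 3 * (mx b0 c * dt c) = -(c.1 * g1 + c.2.1 * g2 + c.2.2 * g3) := by
            rw [hg1, hg2, hg3]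
            unfold mx dt
            ring
          rw [e]
          exact P.neg_mem (P.add_mem (P.add_mem (P.mul_mem_left _ hh1) (P.mul_mem_left _ hh2))
            (P.mul_mem_left _ hh3))
        have q2 : mx b0 c ∈ P := ((hP.mem_or_mem ((hP.mem_or_mem q1).resolve_left h3)).resolve_right hc)
        have q3 : b0.2.2 ∈ P := by
          have e : b0.2.2 * dt c ∈ P := by
            have e' : b0.2.2 * dt c = g1 + 2 * mx b0 c * c.2.2 := by rw [hg1]; ring
            rw [e']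
            exact P.add_mem hh1 (P.mul_mem_right _ (P.mul_mem_left _ q2))
          exact (hP.mem_or_mem e).resolve_right hc
        have q4 : b0.1 ∈ P := by
          have e : b0.1 * dt c ∈ P := by
            have e' : b0.1 * dt c = g3 + 2 * mx b0 c * c.1 := by rw [hg3]; ring
            rw [e']
            exact P.add_mem hh3 (P.mul_mem_right _ (P.mul_mem_left _ q2))
          exact (hP.mem_or_mem e).resolve_right hc
        have q5 : b0.2.1 ∈ P := by
          have e : 2 * (b0.2.1 * dt c) ∈ P := by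
            have e' : 2 * (b0.2.1 * dt c) = 4 * mx b0 c * c.2.1 - g2 := by rw [hg2]; ring
            rw [e']
            exact P.sub_mem (P.mul_mem_right _ (P.mul_mem_left _ q2)) hh2
          exact (hP.mem_or_mem ((hP.mem_or_mem e).resolve_left h2)).resolve_right hc
        exact hn ⟨q4, q5, q3⟩
      · rw [← hpr b0.1 b0.2.1]
        refine Set.ncard_le_ncard_of_injOn (fun a => (a.1, a.2.1)) ?_ ?_ (hfin _ _)
        · intro a ha
          obtain ⟨b, rfl, -, k1, k2, k3⟩ := hS a ha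
          exact ⟨⟨b.1, k1, rfl⟩, ⟨b.2.1, k2, rfl⟩⟩
        · intro a ha a' ha' haa
          obtain ⟨b, rfl, hb, k1, k2, k3⟩ := hS a ha
          obtain ⟨b', rfl, hb', k1', k2', k3'⟩ := hS a' ha'
          simp only [q3, Prod.mk.injEq, Ideal.Quotient.eq] at haa
          obtain ⟨u1, u2⟩ := haa
          refine q3_eq.2 ⟨u1, u2, hpow g3 _ hh3 ?_⟩
          have v1 := Ideal.sub_mem _ (hlin b hb k1 k2 k3) (hlin b' hb' k1' k2' k3')
          have v2 := Ideal.sub_mem _ (Ideal.sub_mem _ v1 (Ideal.mul_mem_left _ g1 u1))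
            (Ideal.mul_mem_left _ g2 u2)
          convert v2 using 1
          ring
    · rw [← hpr b0.1 b0.2.2]
      refine Set.ncard_le_ncard_of_injOn (fun a => (a.1, a.2.2)) ?_ ?_ (hfin _ _)
      · intro a ha
        obtain ⟨b, rfl, -, k1, k2, k3⟩ := hS a ha
        exact ⟨⟨b.1, k1, rfl⟩, ⟨b.2.2, k3, rfl⟩⟩
      · intro a ha a' ha' haa
        obtain ⟨b, rfl, hb, k1, k2, k3⟩ := hS a ha
        obtain ⟨b', rfl, hb', k1', k2', k3'⟩ := hS a' ha'
        simp only [q3, Prod.mk.injEq, Ideal.Quotient.eq] at haa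
        obtain ⟨u1, u3⟩ := haa
        refine q3_eq.2 ⟨u1, hpow g2 _ hh2 ?_, u3⟩
        have v1 := Ideal.sub_mem _ (hlin b hb k1 k2 k3) (hlin b' hb' k1' k2' k3')
        have v2 := Ideal.sub_mem _ (Ideal.sub_mem _ v1 (Ideal.mul_mem_left _ g1 u1))
          (Ideal.mul_mem_left _ g3 u3)
        convert v2 using 1
        ring
  · rw [← hpr b0.2.1 b0.2.2]
    refine Set.ncard_le_ncard_of_injOn (fun a => (a.2.1, a.2.2)) ?_ ?_ (hfin _ _)
    · intro a ha
      obtain ⟨b, rfl, -, k1, k2, k3⟩ := hS a ha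
      exact ⟨⟨b.2.1, k2, rfl⟩, ⟨b.2.2, k3, rfl⟩⟩
    · intro a ha a' ha' haa
      obtain ⟨b, rfl, hb, k1, k2, k3⟩ := hS a ha
      obtain ⟨b', rfl, hb', k1', k2', k3'⟩ := hS a' ha'
      simp only [q3, Prod.mk.injEq, Ideal.Quotient.eq] at haa
      obtain ⟨u2, u3⟩ := haa
      refine q3_eq.2 ⟨hpow g1 _ hh1 ?_, u2, u3⟩
      have v1 := Ideal.sub_mem _ (hlin b hb k1 k2 k3) (hlin b' hb' k1' k2' k3')
      have v2 := Ideal.sub_mem _ (Ideal.sub_mem _ v1 (Ideal.mul_mem_left _ g2 u2))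
        (Ideal.mul_mem_left _ g3 u3)
      convert v2 using 1
      ring

theorem z2 {P : Ideal (𝓞 K)} (hP : P.IsPrime) (hP0 : P ≠ ⊥) (h2 : (2 : 𝓞 K) ∉ P) (h3 : (3 : 𝓞 K) ∉ P)
    (c : T3 K) (hc : dt c ∉ P) : zn c (P ^ 2) ≤ 2 * Ideal.absNorm P ^ 4 := by
  classical
  have hP2 : P ^ 2 ≠ ⊥ := pow_ne_zero 2 hP0
  have := finQ hP0
  have := finQ hP2
  have hle : P ^ 2 ≤ P := Ideal.pow_le_self two_ne_zero
  have hcs : ∀ x0, (Ideal.Quotient.mk (P ^ 2) '' {x | x - x0 ∈ P}).ncard = Ideal.absNorm P := by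
    intro x0
    have h4 := coset_card hP hP0 (i := 1) (j := 2) (by norm_num) x0
    simpa only [pow_one, show 2 - 1 = 1 from rfl] using h4
  set ρ : Q3 (P ^ 2) → Q3 P := fun z => (Ideal.Quotient.factor hle z.1, Ideal.Quotient.factor hle z.2.1,
    Ideal.Quotient.factor hle z.2.2) with hρ
  have hρq : ∀ b, ρ (q3 (P ^ 2) b) = q3 P b := fun b => rfl
  set S := (finZ hP2 c).toFinset with hSd
  set T := (finZ hP0 c).toFinset with hTd
  have hS1 : zn c (P ^ 2) = S.card := Set.ncard_eq_toFinset_card _ (finZ hP2 c)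
  have hT1 : T.card ≤ Ideal.absNorm P ^ 2 := by
    rw [hTd, ← Set.ncard_eq_toFinset_card _ (finZ hP0 c)]
    exact z1 hP hP0 h2 h3 c hc
  have h5 : (S.filter fun z => ρ z = q3 P 0).card ≤ Ideal.absNorm P ^ 3 := by
    rw [← Set.ncard_coe_finset]
    have e : ((Ideal.Quotient.mk (P ^ 2) '' {x | x - 0 ∈ P}) ×ˢ (Ideal.Quotient.mk (P ^ 2) '' {x | x - 0 ∈ P}) ×ˢ
        (Ideal.Quotient.mk (P ^ 2) '' {x | x - 0 ∈ P})).ncard = Ideal.absNorm P ^ 3 := by
      rw [Set.ncard_prod, Set.ncard_prod, hcs]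
      ring
    rw [← e]
    refine Set.ncard_le_ncard ?_ (Set.toFinite _)
    intro z hz
    obtain ⟨hz1, hz2⟩ := Finset.mem_filter.1 (Finset.mem_coe.1 hz)
    obtain ⟨b, -, rfl⟩ := (Set.Finite.mem_toFinset _).1 hz1
    rw [hρq, q3_eq] at hz2
    exact ⟨⟨b.1, hz2.1, rfl⟩, ⟨b.2.1, hz2.2.1, rfl⟩, ⟨b.2.2, hz2.2.2, rfl⟩⟩
  have h6 : (S.filter fun z => ¬ ρ z = q3 P 0).card ≤ Ideal.absNorm P ^ 2 * T.card := by
    refine Finset.card_le_mul_card_image_of_maps_to (f := ρ) (t := T) ?_ _ ?_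
    · intro a ha
      obtain ⟨ha1, -⟩ := Finset.mem_filter.1 ha
      obtain ⟨b, hb, rfl⟩ := (Set.Finite.mem_toFinset _).1 ha1
      rw [hρq]
      exact (Set.Finite.mem_toFinset _).2 ⟨b, hle hb, rfl⟩
    · intro z0 _
      rcases Finset.eq_empty_or_nonempty ((S.filter fun z => ¬ ρ z = q3 P 0).filter fun a => ρ a = z0) with h | h
      · rw [h, Finset.card_empty]
        exact Nat.zero_le _
      · obtain ⟨a0, ha0⟩ := h
        obtain ⟨ha1, rfl⟩ := Finset.mem_filter.1 ha0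
        obtain ⟨ha2, ha3⟩ := Finset.mem_filter.1 ha1
        obtain ⟨b0, hb0, rfl⟩ := (Set.Finite.mem_toFinset _).1 ha2
        rw [← Set.ncard_coe_finset]
        refine z12_fib hP hP0 h2 h3 c hc b0 hb0 ?_ _ ?_
        · intro h
          apply ha3
          rw [hρq]
          refine q3_eq.2 ⟨?_, ?_, ?_⟩
          · rw [Prod.fst_zero, sub_zero]
            exact h.1
          · rw [Prod.snd_zero, Prod.fst_zero, sub_zero]
            exact h.2.1
          · rw [Prod.snd_zero, Prod.snd_zero, sub_zero]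
            exact h.2.2
        · intro a ha
          obtain ⟨ha4, ha5⟩ := Finset.mem_filter.1 (Finset.mem_coe.1 ha)
          obtain ⟨b, hb, rfl⟩ := (Set.Finite.mem_toFinset _).1 (Finset.mem_filter.1 ha4).1
          rw [hρq, hρq, q3_eq] at ha5
          exact ⟨b, rfl, hb, ha5⟩
  have h7 : 1 ≤ Ideal.absNorm P := Nat.one_le_iff_ne_zero.2 (by rwa [Ne, Ideal.absNorm_eq_zero_iff])
  have h8 := Finset.card_filter_add_card_filter_not (s := S) (fun z => ρ z = q3 P 0)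
  rw [hS1, ← h8]
  calc _ ≤ Ideal.absNorm P ^ 3 + Ideal.absNorm P ^ 2 * T.card := add_le_add h5 h6
    _ ≤ Ideal.absNorm P ^ 4 + Ideal.absNorm P ^ 2 * Ideal.absNorm P ^ 2 :=
        add_le_add (Nat.pow_le_pow_right h7 (by norm_num)) (Nat.mul_le_mul_left _ hT1)
    _ = 2 * Ideal.absNorm P ^ 4 := by ring

end H77.PX
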