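import Pool.Agent.H77.PX.Gen
import Pool.Agent.H77.PX.Cont
import Pool.Agent.H77.PX.Z12
import Pool.Agent.H77.PX.Mer
import Pool.Agent.H51.AV.Def

/-!
# [H77 PX DEN] The hypotheses `Hyp` and `Den` of the prefix lemma (60-90 lines)

`hyp`: `two`: `two_le_ni`; `mono`: hypothesis; `sq`, `mer`: `mer1`, `mer2` for `T = image of p` (`p` injective: `Finset.sum_image`,
`Finset.filter_image`).
`den`: `cc i` from `cont` (`Classical.choose`/`choose`). `w i k = zn (cc i) (p i ^ k) / ni (p i) ^ (3 k)`.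
`w0`: `pow_zero`, `Ideal.one_eq_top`, `zn_top`. `nonneg`: clear. `le`: `gen`: `zn ≤ 2 N^(2k + k/2)`, and `3k = (2k + k/2) + (k+1)/2`, so
`w ≤ 2 N^(-((k+1)/2)) ≤ B N^(-((k+1)/2))`. `l ∉ Z`: `m, dt c ∉ P`, so `2, 3 ∉ P` (`6 ∣ m`) and `dt (cc i) ∉ P`: `w1`: `z1`
(`pow_one`), `N^2/N^3 = 1/N`; `w2`: `z2`, `2 N^4 / N^6 = 2 / N^2 ≤ B / N^2`.
-/

set_option autoImplicit false

open scoped NumberField
open H88.A4 H88.WS Pool.Agent.H67.WA

noncomputable section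

namespace H77.PX

theorem hyp (K : Type) [Field K] [NumberField K] : ∃ B : ℝ, 1 ≤ B ∧ ∀ B' : ℝ, B ≤ B' →
    ∀ (n : ℕ) (p : Fin n → Ideal (𝓞 K)), Function.Injective p → (∀ i, (p i).IsPrime ∧ p i ≠ ⊥) →
      Monotone (fun i => ni (p i)) → H51.AV.Hyp B' (fun i => ni (p i)) := by
  classical
  obtain ⟨B1, hB1, h1⟩ := mer1 K
  obtain ⟨B2, hB2, h2⟩ := mer2 K
  refine ⟨max B1 B2, hB1.trans (le_max_left _ _), fun B' hB' n p hinj hp hmono => ?_⟩
  have hT : ∀ P ∈ Finset.univ.map ⟨p, hinj⟩, P.IsPrime ∧ P ≠ ⊥ := by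
    intro P hP
    obtain ⟨i, -, rfl⟩ := Finset.mem_map.1 hP
    exact hp i
  refine ⟨fun i => two_le_ni (hp i).1 (hp i).2, hmono, ?_, ?_⟩
  · have h3 := h1 _ hT
    rw [Finset.sum_map] at h3
    exact (h3.trans (le_max_left _ _)).trans hB'
  · intro x hx
    have h3 := h2 _ hT x hx
    rw [Finset.filter_map, Finset.sum_map] at h3
    have h4 : 0 ≤ 1 + Real.log x := by
      have := Real.log_nonneg hx
      linarith
    have h5 : B2 * (1 + Real.log x) ≤ B' * (1 + Real.log x) :=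
      mul_le_mul_of_nonneg_right ((le_max_right _ _).trans hB') h4
    refine le_trans (le_of_eq ?_) (h3.trans h5)
    refine Finset.sum_congr ?_ fun _ _ => rfl
    ext i
    simp

open Classical in
theorem den {K : Type} [Field K] [NumberField K] (m : ℕ) (hm : 6 ∣ m) (B : ℝ) (hB : 2 ≤ B) (c : T3 K)
    (hc : dt c ≠ 0) (n : ℕ) (p : Fin n → Ideal (𝓞 K)) (hp : ∀ i, (p i).IsPrime ∧ p i ≠ ⊥) :
    ∃ cc : Fin n → T3 K, (∀ (i : Fin n) (b : T3 K) (j : ℕ), Ec c b ≠ 0 →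
        j ≤ od (p i) (Ideal.span {Ec c b}) - 2 * od (p i) (cn c) → Ec (cc i) b ∈ p i ^ j) ∧
      H51.AV.Den B (fun i => ni (p i)) (Finset.univ.filter fun i => (m : 𝓞 K) ∈ p i ∨ dt c ∈ p i)
        (fun i k => (zn (cc i) (p i ^ k) : ℝ) / ni (p i) ^ (3 * k)) := by
  choose cc hcc using fun i => con (hp i).1 (hp i).2 c hc
  refine ⟨cc, fun i b j => (hcc i).2.2 b j, ?_⟩
  have hN : ∀ i, 2 ≤ ni (p i) := fun i => two_le_ni (hp i).1 (hp i).2
  have hgood : ∀ l, l ∉ (Finset.univ.filter fun i => (m : 𝓞 K) ∈ p i ∨ dt c ∈ p i) →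
      (2 : 𝓞 K) ∉ p l ∧ (3 : 𝓞 K) ∉ p l ∧ dt (cc l) ∉ p l := by
    intro l hl
    rw [Finset.mem_filter, not_and, not_or] at hl
    obtain ⟨h1, h2⟩ := hl (Finset.mem_univ l)
    obtain ⟨k, rfl⟩ := hm
    refine ⟨fun h => h1 ?_, fun h => h1 ?_, (hcc l).2.1 h2⟩
    · have e : ((6 * k : ℕ) : 𝓞 K) = 2 * (3 * (k : 𝓞 K)) := by
        push_cast
        ring
      rw [e]
      exact (p l).mul_mem_right _ h
    · have e : ((6 * k : ℕ) : 𝓞 K) = 3 * (2 * (k : 𝓞 K)) := by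
        push_cast
        ring
      rw [e]
      exact (p l).mul_mem_right _ h
  refine ⟨?_, ?_, ?_, ?_, ?_⟩
  · intro l
    simp only [pow_zero, Ideal.one_eq_top, zn_top, mul_zero, Nat.cast_one, div_one]
  · intro l k
    exact div_nonneg (Nat.cast_nonneg _) (pow_nonneg (ni_nonneg _) _)
  · intro l k hk
    have hN0 : 0 < ni (p l) := by linarith [hN l]
    have h1 := gen (hp l).1 (hp l).2 (cc l) (hcc l).1 k
    have h2 : (zn (cc l) (p l ^ k) : ℝ) ≤ 2 * ni (p l) ^ (2 * k + k / 2) := by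
      unfold ni
      exact_mod_cast h1
    have h3 : 3 * k = (2 * k + k / 2) + (k + 1) / 2 := by omega
    rw [h3, pow_add, Real.rpow_neg hN0.le, Real.rpow_natCast, div_le_iff₀ (by positivity)]
    have h4 : B * (ni (p l) ^ ((k + 1) / 2))⁻¹ * (ni (p l) ^ (2 * k + k / 2) *
        ni (p l) ^ ((k + 1) / 2)) = B * ni (p l) ^ (2 * k + k / 2) := by
      field_simp
    rw [h4]
    exact h2.trans (mul_le_mul_of_nonneg_right hB (by positivity))
  · intro l hl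
    have hN0 : 0 < ni (p l) := by linarith [hN l]
    obtain ⟨g1, g2, g3⟩ := hgood l hl
    have h1 := z1 (hp l).1 (hp l).2 g1 g2 (cc l) g3
    have h2 : (zn (cc l) (p l) : ℝ) ≤ ni (p l) ^ 2 := by
      unfold ni
      exact_mod_cast h1
    simp only [pow_one, mul_one]
    have h3 : (zn (cc l) (p l) : ℝ) / ni (p l) ^ 3 ≤ 1 / ni (p l) := by
      rw [div_le_div_iff₀ (by positivity) hN0]
      nlinarith
    have h4 : 0 ≤ B / ni (p l) ^ 2 := by positivity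
    linarith
  · intro l hl
    have hN0 : 0 < ni (p l) := by linarith [hN l]
    obtain ⟨g1, g2, g3⟩ := hgood l hl
    have h1 := z2 (hp l).1 (hp l).2 g1 g2 (cc l) g3
    have h2 : (zn (cc l) (p l ^ 2) : ℝ) ≤ 2 * ni (p l) ^ 4 := by
      unfold ni
      exact_mod_cast h1
    rw [div_le_div_iff₀ (by positivity) (by positivity)]
    calc (zn (cc l) (p l ^ 2) : ℝ) * ni (p l) ^ 2 ≤ (2 * ni (p l) ^ 4) * ni (p l) ^ 2 :=
          mul_le_mul_of_nonneg_right h2 (by positivity)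
      _ = 2 * ni (p l) ^ (3 * 2) := by ring
      _ ≤ B * ni (p l) ^ (3 * 2) := mul_le_mul_of_nonneg_right hB (by positivity)

end H77.PX
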