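import Pool.Agent.H77.PX.Root

/-!
# [H77 PX GEN] The general bound for the number of classes (70-110 lines)

`N = absNorm P`. Three cases (`Pm P c`: some entry of `c` is not in `P`):
(1) `c.2.2 ∉ P`: `E_c(b)` as a polynomial in `b.1` is `a b.1^2 + B b.1 + C` with `a = - c.2.2^2 ∉ P`, `B, C` polynomials in `b.2.1, b.2.2`
    (expand by `ring`). (2) `c.1 ∉ P`: the same with `b.2.2`, `a = - c.1^2`. (3) `c.1, c.2.2 ∈ P`, `c.2.1 ∉ P`: with `b.2.2 = b.1 + t`:
    `E = a b.1^2 + B b.1 + C`, `a = dt c - (c.1 + c.2.2)^2 ≡ - c.2.1^2`, not in `P`; `B, C` polynomials in `b.2.1, t`.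
So for fixed classes modulo `P^j` of the two other coordinates (`b.2.1, b.2.2`; `b.1, b.2.1`; `b.2.1, b.2.2 - b.1`): if `b`, `b'` have the same
other coordinates modulo `P^j` then `a b.1^2 + B' b.1 + C' ∈ P^j` with the `B', C'` of `b'`; so (fibre) the distinguished coordinate is in the
set of `root_card`, at most `2 N^(j/2)` classes, and the class of `b` is determined by it. Number of pairs of classes: `(N^j)^2`
(`card (𝓞 K / P^j) = absNorm (P^j)`). Use a fibre counting lemma (`Finset.card_le_mul_card_image`, or `Set.ncard` versions).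
-/

set_option autoImplicit false

open scoped NumberField
open H88.A4 H88.WS Pool.Agent.H67.WA

noncomputable section

namespace H77.PX

variable {K : Type} [Field K] [NumberField K]

private theorem gen_aux {P : Ideal (𝓞 K)} (hP : P.IsPrime) (hP0 : P ≠ ⊥) (c : T3 K) (j : ℕ)
    (f : Q3 (P ^ j) → (𝓞 K ⧸ (P ^ j)) × (𝓞 K ⧸ (P ^ j))) (g : Q3 (P ^ j) → 𝓞 K ⧸ (P ^ j))
    (hfg : ∀ z z', f z = f z' → g z = g z' → z = z')
    (h : ∀ y, ∃ a B C : 𝓞 K, a ∉ P ∧ ∀ z ∈ Zc c (P ^ j), f z = y →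
      g z ∈ Ideal.Quotient.mk (P ^ j) '' {x | a * x ^ 2 + B * x + C ∈ P ^ j}) :
    zn c (P ^ j) ≤ 2 * Ideal.absNorm P ^ (2 * j + j / 2) := by
  classical
  have hI : P ^ j ≠ ⊥ := pow_ne_zero j hP0
  have hfin : Finite (𝓞 K ⧸ (P ^ j)) := finQ hI
  have hft : Fintype (𝓞 K ⧸ (P ^ j)) := Fintype.ofFinite _
  have hcard : Fintype.card (𝓞 K ⧸ (P ^ j)) = Ideal.absNorm P ^ j := by
    rw [← Nat.card_eq_fintype_card, ← map_pow, Ideal.absNorm_apply, Submodule.cardQuot_apply]
  obtain ⟨s, hs⟩ : ∃ s : Finset (Q3 (P ^ j)), s = (finZ hI c).toFinset := ⟨_, rfl⟩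
  have hzn : zn c (P ^ j) = s.card := by
    rw [hs, zn, Set.ncard_eq_toFinset_card _ (finZ hI c)]
  have hfib : ∀ y ∈ s.image f, (s.filter fun z => f z = y).card ≤ 2 * Ideal.absNorm P ^ (j / 2) := by
    intro y _
    obtain ⟨a, B, C, ha, hz⟩ := h y
    refine le_trans ?_ (root_card hP hP0 j a B C ha)
    rw [← Set.ncard_coe_finset]
    apply Set.ncard_le_ncard_of_injOn g
    · intro z hz'
      simp only [Finset.coe_filter, Set.mem_ofPred_eq] at hz'
      rw [hs, Set.Finite.mem_toFinset] at hz'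
      exact hz z hz'.1 hz'.2
    · intro z hz' z' hz'' hgz
      simp only [Finset.coe_filter, Set.mem_ofPred_eq] at hz' hz''
      exact hfg z z' (hz'.2.trans hz''.2.symm) hgz
  have h1 := Finset.card_le_mul_card_image s (2 * Ideal.absNorm P ^ (j / 2)) hfib
  have h2 : (s.image f).card ≤ Ideal.absNorm P ^ j * Ideal.absNorm P ^ j := by
    refine (Finset.card_le_univ _).trans ?_
    rw [Fintype.card_prod, hcard]
  rw [hzn]
  calc s.card ≤ 2 * Ideal.absNorm P ^ (j / 2) * (s.image f).card := h1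
    _ ≤ 2 * Ideal.absNorm P ^ (j / 2) * (Ideal.absNorm P ^ j * Ideal.absNorm P ^ j) := Nat.mul_le_mul_left _ h2
    _ = 2 * Ideal.absNorm P ^ (2 * j + j / 2) := by
        rw [pow_add, two_mul j, pow_add]
        ring

theorem gen {P : Ideal (𝓞 K)} (hP : P.IsPrime) (hP0 : P ≠ ⊥) (c : T3 K) (hc : Pm P c) (j : ℕ) :
    zn c (P ^ j) ≤ 2 * Ideal.absNorm P ^ (2 * j + j / 2) := by
  by_cases h3 : c.2.2 ∈ P
  · by_cases h1 : c.1 ∈ P
    · have h2 : c.2.1 ∉ P := fun h => hc ⟨h1, h, h3⟩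
      refine gen_aux hP hP0 c j (fun z => (z.2.1, z.2.2 - z.1)) (fun z => z.1) ?_ ?_
      · rintro ⟨x, y, t⟩ ⟨x', y', t'⟩ h4 h5
        simp only [Prod.mk.injEq] at h4 h5
        obtain ⟨rfl, h6⟩ := h4
        subst h5
        have h7 : t = t' := sub_left_inj.1 h6
        rw [h7]
      · rintro ⟨y1, y2⟩
        obtain ⟨β, rfl⟩ := Ideal.Quotient.mk_surjective y1
        obtain ⟨t, rfl⟩ := Ideal.Quotient.mk_surjective y2
        refine ⟨dt c - (c.1 + c.2.2) ^ 2, t * dt c - 2 * (c.1 + c.2.2) * (t * c.1 - 2 * β * c.2.1),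
          -(β ^ 2 * dt c) - (t * c.1 - 2 * β * c.2.1) ^ 2, ?_, ?_⟩
        · intro h4
          apply h2
          have h5 : c.2.1 ^ 2 ∈ P := by
            have h6 : c.2.1 ^ 2 = c.1 * (c.2.2 - (c.1 + c.2.2)) - c.2.2 * (c.1 + c.2.2) - (dt c - (c.1 + c.2.2) ^ 2) := by
              unfold dt
              ring
            rw [h6]
            exact P.sub_mem (P.sub_mem (P.mul_mem_right _ h1) (P.mul_mem_right _ h3)) h4
          exact hP.mem_of_pow_mem 2 h5
        · rintro _ ⟨b, hb, rfl⟩ hf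
          simp only [q3, Prod.mk.injEq] at hf
          refine ⟨b.1, ?_, rfl⟩
          have h4 : q3 (P ^ j) (b.1, β, b.1 + t) = q3 (P ^ j) b := by
            simp only [q3, Prod.mk.injEq]
            refine ⟨trivial, hf.1.symm, ?_⟩
            rw [map_add, ← hf.2, add_sub_cancel]
          have h5 := Ec_congr h4 c
          have h6 := (P ^ j).add_mem h5 hb
          rw [sub_add_cancel] at h6
          have h7 : Ec c (b.1, β, b.1 + t) = (dt c - (c.1 + c.2.2) ^ 2) * b.1 ^ 2 +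
              (t * dt c - 2 * (c.1 + c.2.2) * (t * c.1 - 2 * β * c.2.1)) * b.1 +
              (-(β ^ 2 * dt c) - (t * c.1 - 2 * β * c.2.1) ^ 2) := by
            unfold Ec mx dt
            ring
          rw [h7] at h6
          exact h6
    · refine gen_aux hP hP0 c j (fun z => (z.1, z.2.1)) (fun z => z.2.2) ?_ ?_
      · rintro ⟨x, y, t⟩ ⟨x', y', t'⟩ h4 h5
        simp only [Prod.mk.injEq] at h4 h5
        obtain ⟨rfl, rfl⟩ := h4
        rw [h5]
      · rintro ⟨y1, y2⟩
        obtain ⟨β, rfl⟩ := Ideal.Quotient.mk_surjective y1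
        obtain ⟨t, rfl⟩ := Ideal.Quotient.mk_surjective y2
        refine ⟨-c.1 ^ 2, β * dt c - 2 * c.1 * (β * c.2.2 - 2 * t * c.2.1),
          -(t ^ 2 * dt c) - (β * c.2.2 - 2 * t * c.2.1) ^ 2, ?_, ?_⟩
        · intro h4
          apply h1
          have h5 := P.neg_mem h4
          rw [neg_neg] at h5
          exact hP.mem_of_pow_mem 2 h5
        · rintro _ ⟨b, hb, rfl⟩ hf
          simp only [q3, Prod.mk.injEq] at hf
          refine ⟨b.2.2, ?_, rfl⟩
          have h4 : q3 (P ^ j) (β, t, b.2.2) = q3 (P ^ j) b := by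
            simp only [q3, Prod.mk.injEq]
            exact ⟨hf.1.symm, hf.2.symm, trivial⟩
          have h5 := Ec_congr h4 c
          have h6 := (P ^ j).add_mem h5 hb
          rw [sub_add_cancel] at h6
          have h7 : Ec c (β, t, b.2.2) = -c.1 ^ 2 * b.2.2 ^ 2 +
              (β * dt c - 2 * c.1 * (β * c.2.2 - 2 * t * c.2.1)) * b.2.2 +
              (-(t ^ 2 * dt c) - (β * c.2.2 - 2 * t * c.2.1) ^ 2) := by
            unfold Ec mx dt
            ring
          rw [h7] at h6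
          exact h6
  · refine gen_aux hP hP0 c j (fun z => (z.2.1, z.2.2)) (fun z => z.1) ?_ ?_
    · rintro ⟨x, y, t⟩ ⟨x', y', t'⟩ h4 h5
      simp only [Prod.mk.injEq] at h4 h5
      obtain ⟨rfl, rfl⟩ := h4
      rw [h5]
    · rintro ⟨y1, y2⟩
      obtain ⟨β, rfl⟩ := Ideal.Quotient.mk_surjective y1
      obtain ⟨t, rfl⟩ := Ideal.Quotient.mk_surjective y2
      refine ⟨-c.2.2 ^ 2, t * dt c - 2 * c.2.2 * (t * c.1 - 2 * β * c.2.1),
        -(β ^ 2 * dt c) - (t * c.1 - 2 * β * c.2.1) ^ 2, ?_, ?_⟩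
      · intro h4
        apply h3
        have h5 := P.neg_mem h4
        rw [neg_neg] at h5
        exact hP.mem_of_pow_mem 2 h5
      · rintro _ ⟨b, hb, rfl⟩ hf
        simp only [q3, Prod.mk.injEq] at hf
        refine ⟨b.1, ?_, rfl⟩
        have h4 : q3 (P ^ j) (b.1, β, t) = q3 (P ^ j) b := by
          simp only [q3, Prod.mk.injEq]
          exact ⟨trivial, hf.1.symm, hf.2.symm⟩
        have h5 := Ec_congr h4 c
        have h6 := (P ^ j).add_mem h5 hb
        rw [sub_add_cancel] at h6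
        have h7 : Ec c (b.1, β, t) = -c.2.2 ^ 2 * b.1 ^ 2 +
            (t * dt c - 2 * c.2.2 * (t * c.1 - 2 * β * c.2.1)) * b.1 +
            (-(β ^ 2 * dt c) - (t * c.1 - 2 * β * c.2.1) ^ 2) := by
          unfold Ec mx dt
          ring
        rw [h7] at h6
        exact h6

end H77.PX
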