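import Pool.Agent.H77.PX.Pair
import Pool.Agent.H38.TD.MertB

/-!
# [H77 PX AVC] (c7): the second moment (100-150 lines)

`r = 3 [K:ℚ] = card (Kx K)` (`Fintype.card_prod`, rank of `𝓞 K`). `m ≠ 0` and `6 ∣ m` given. Let `W0 = (m : ℝ) ^ [K:ℚ]` (norm of `(m)`).
`S` injects into `Cb K n` by coordinates: `c ∈ cube n c0` is `c0 + cx x` with `x ∈ Cb K n`; so `#S ≤ n^r`.
* `w < W0`: `#S ≤ n^r ≤ W0 n^r / w`.
* `w ≥ W0`: a prime `P` of norm `> w` does not contain `m` (`P ∣ (m)` gives `N P ≤ N (m) = W0`), so `ch m (dt c) P = psi P c` and `2 ∉ P`.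
  `PrK K z` is finite; `𝒫` = the finite set of the primes with `w < N P ≤ z`. For `c ∈ S`: `1 < Xs ≤ Xs ^ 2`, so
  `#S ≤ ∑_{x ∈ Cb n} (∑_{P ∈ 𝒫} psi P (c0 + cx x) / N P) ^ 2 = ∑_{P, P'} (1/(N N')) ∑_x psi P psi P'`. Terms `P = P'`: at most `n^r / N^2`.
  Terms `P ≠ P'` (`N N' ≤ z^2 ≤ n`, `pair`): `(1/(N N')) (n^r / (N N') + 2 r N N' n^r / n) = n^r / (N N')^2 + 2 r n^r / n`.
  `∑_{P ∈ 𝒫} 1/N^2 ≤ C / w` (`H38.TD.sq_small` uses `sq_tail (cb_ideals K)` for this: same proof, all ideals of norm `> w`), in particular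
  `(∑ 1/N^2)^2 ≤ (C/w)^2 ≤ C^2 / w`; `#𝒫 ≤ C z` (`H88.A4.ideal_card`), `(#𝒫)^2 2 r n^r / n ≤ 2 r C^2 z^2 n^r / z^4 ≤ 2 r C^2 n^r / w`.
-/

set_option autoImplicit false

open scoped NumberField
open H88.A4 H88.WS Pool.Agent.H67.WA

noncomputable section

namespace H77.PX

section aux

variable {K : Type} [Field K] [NumberField K]

/-- the coordinates of a triple -/
private def kx (c : T3 K) : Kx K → ℤ := fun p =>
  if p.1 = 0 then (NumberField.RingOfIntegers.basis K).repr c.1 p.2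
  else if p.1 = 1 then (NumberField.RingOfIntegers.basis K).repr c.2.1 p.2
  else (NumberField.RingOfIntegers.basis K).repr c.2.2 p.2

private theorem cx_kx (c : T3 K) : cx (kx c) = c := by
  have h : ∀ a : 𝓞 K, ∑ i, (NumberField.RingOfIntegers.basis K).repr a i •
      NumberField.RingOfIntegers.basis K i = a :=
    fun a => (NumberField.RingOfIntegers.basis K).sum_repr a
  refine Prod.ext ?_ (Prod.ext ?_ ?_)
  · refine Eq.trans ?_ (h c.1)
    exact Finset.sum_congr rfl fun i _ => by simp [kx]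
  · refine Eq.trans ?_ (h c.2.1)
    exact Finset.sum_congr rfl fun i _ => by simp [kx]
  · refine Eq.trans ?_ (h c.2.2)
    exact Finset.sum_congr rfl fun i _ => by simp [kx]

private theorem kx_mem {n : ℕ} {c c0 : T3 K} (h : c ∈ cube n c0) : kx (c - c0) ∈ Cb K n := by
  unfold Cb
  rw [Fintype.mem_piFinset]
  rintro ⟨j, i⟩
  rw [Finset.mem_Ico]
  obtain ⟨h1, h2, h3⟩ := h i
  unfold kx
  dsimp only
  split_ifs
  · exact h1
  · exact h2
  · exact h3

private theorem card_Cb (n : ℕ) : (Cb K n).card = n ^ Fintype.card (Kx K) := by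
  unfold Cb
  rw [Fintype.card_piFinset]
  simp

private theorem card_Kx : Fintype.card (Kx K) = 3 * Module.finrank ℚ K := by
  rw [Fintype.card_prod, Fintype.card_fin, ← Module.finrank_eq_card_chooseBasisIndex,
    NumberField.RingOfIntegers.rank]

private theorem fin_PrK (z : ℝ) : (PrK K z).Finite := by
  refine (Ideal.finite_setOfPred_absNorm_le (S := 𝓞 K) ⌊z⌋₊).subset ?_
  rintro I ⟨_, _, h2⟩
  exact Nat.le_floor h2

private theorem ch_eq {m : ℕ} {P : Ideal (𝓞 K)} (hm : (m : 𝓞 K) ∉ P) (c : T3 K) :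
    ch m (dt c) P = psi P c := by
  classical
  unfold ch psi
  by_cases h1 : dt c ∈ P
  · rw [if_neg (fun h => h.2.1 h1), if_pos (Or.inr h1), if_pos h1]
  · rw [if_neg h1]
    by_cases h2 : ∃ x : 𝓞 K, x ^ 2 + dt c ∈ P
    · rw [if_pos h2, if_neg (fun h => by obtain ⟨x, hx⟩ := h2; exact h.2.2 x hx), if_neg]
      rintro (h | h)
      · exact hm h
      · exact h1 h
    · rw [if_neg h2, if_pos ⟨hm, h1, fun x hx => h2 ⟨x, hx⟩⟩]

end aux

theorem avc (K : Type) [Field K] [NumberField K] : AvcStmt K := by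
  classical
  intro m hm h6
  obtain ⟨C1, hC1, hcard⟩ := H88.A4.ideal_card K
  obtain ⟨C2, hC2, htail⟩ := H38.ML.sq_tail (H38.ML.cb_ideals K)
  set W0 : ℝ := ni (Ideal.span {(m : 𝓞 K)}) with hW0
  set r : ℕ := Fintype.card (Kx K) with hr
  have hmK : (m : 𝓞 K) ≠ 0 := by exact_mod_cast hm
  have hspan : Ideal.span {(m : 𝓞 K)} ≠ ⊥ := by
    rw [Ne, Ideal.span_singleton_eq_bot]
    exact hmK
  have hW0pos : 0 < W0 := by
    rw [hW0]
    unfold ni
    have := Ideal.absNorm_eq_zero_iff.not.2 hspan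
    exact_mod_cast Nat.pos_of_ne_zero this
  refine ⟨W0 + (C2 + C2 ^ 2 + 2 * r * C1 ^ 2), by positivity, ?_⟩
  intro w z n hw hwz hzn c0 S hS
  rw [← card_Kx, ← hr]
  have hw0 : 0 < w := by linarith
  have hz0 : 0 < z := by linarith
  have hz1 : 1 ≤ z := by linarith
  have hn0 : (0 : ℝ) < n := lt_of_lt_of_le (by positivity) hzn
  have hnr : (0 : ℝ) < (n : ℝ) ^ r := by positivity
  set Q : Finset (Kx K → ℤ) :=
    (Cb K n).filter (fun x => 1 < Xs m w z (dt (c0 + cx x))) with hQ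
  have hSQ : S.card ≤ Q.card := by
    refine Finset.card_le_card_of_injOn (fun c => kx (c - c0)) ?_ ?_
    · intro c hc
      have hc' := hS c hc
      simp only [hQ, Finset.coe_filter, Set.mem_ofPred_eq]
      refine ⟨kx_mem hc'.1, ?_⟩
      rw [cx_kx, add_sub_cancel]
      exact hc'.2.2
    · intro c _ c' _ h
      have h1 : cx (kx (c - c0)) = cx (kx (c' - c0)) := congrArg cx h
      rw [cx_kx, cx_kx] at h1
      exact sub_left_injective h1
  have hQcard : Q.card ≤ n ^ r := by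
    refine (Finset.card_filter_le _ _).trans ?_
    rw [card_Cb]
  have hSR : (S.card : ℝ) ≤ Q.card := by exact_mod_cast hSQ
  rcases lt_or_ge w W0 with hlt | hge
  · have h1 : (S.card : ℝ) ≤ (n : ℝ) ^ r := by
      have : S.card ≤ n ^ r := hSQ.trans hQcard
      exact_mod_cast this
    rw [le_div_iff₀ hw0]
    have h2 : 0 ≤ (C2 + C2 ^ 2 + 2 * r * C1 ^ 2) := by positivity
    nlinarith
  -- the main case
  have hmP : ∀ P : Ideal (𝓞 K), w < ni P → (m : 𝓞 K) ∉ P := by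
    intro P hP hmem
    have h1 : P ∣ Ideal.span {(m : 𝓞 K)} := by
      rw [Ideal.dvd_span_singleton]
      exact hmem
    have h2 : Ideal.absNorm P ∣ Ideal.absNorm (Ideal.span {(m : 𝓞 K)}) := map_dvd Ideal.absNorm h1
    have h3 : Ideal.absNorm P ≤ Ideal.absNorm (Ideal.span {(m : 𝓞 K)}) := by
      refine Nat.le_of_dvd (Nat.pos_of_ne_zero ?_) h2
      exact Ideal.absNorm_eq_zero_iff.not.2 hspan
    have h4 : ni P ≤ W0 := by
      rw [hW0]
      unfold ni
      exact_mod_cast h3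
    linarith
  have hfin : (PrK K z \ PrK K w).Finite := (fin_PrK z).subset Set.sdiff_subset
  set PP : Finset (Ideal (𝓞 K)) := hfin.toFinset with hPP
  have hmem : ∀ P ∈ PP, P.IsPrime ∧ P ≠ ⊥ ∧ ni P ≤ z ∧ w < ni P := by
    intro P hP
    rw [hPP, Set.Finite.mem_toFinset] at hP
    obtain ⟨⟨h1, h2, h3⟩, h4⟩ := hP
    refine ⟨h1, h2, h3, ?_⟩
    by_contra h
    exact h4 ⟨h1, h2, not_lt.1 h⟩
  have hXs : ∀ c : T3 K, Xs m w z (dt c) = ∑ P ∈ PP, psi P c * (ni P)⁻¹ := by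
    intro c
    unfold Xs
    rw [finsum_mem_eq_finite_toFinset_sum _ hfin]
    refine Finset.sum_congr rfl fun P hP => ?_
    rw [ch_eq (hmP P (hmem P hP).2.2.2)]
  have h2P : ∀ P ∈ PP, (2 : 𝓞 K) ∉ P := by
    intro P hP h
    refine hmP P (hmem P hP).2.2.2 ?_
    obtain ⟨k, hk⟩ : 2 ∣ m := Dvd.dvd.trans (by norm_num) h6
    rw [hk]
    push_cast
    exact P.mul_mem_right _ h
  -- the second moment
  have hsm : (Q.card : ℝ) ≤ ∑ x ∈ Cb K n, (∑ P ∈ PP, psi P (c0 + cx x) * (ni P)⁻¹) ^ 2 := by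
    calc (Q.card : ℝ) = ∑ x ∈ Q, (1 : ℝ) := by simp
      _ ≤ ∑ x ∈ Q, (∑ P ∈ PP, psi P (c0 + cx x) * (ni P)⁻¹) ^ 2 := by
          refine Finset.sum_le_sum fun x hx => ?_
          rw [hQ, Finset.mem_filter] at hx
          have h1 := hx.2
          rw [hXs] at h1
          nlinarith
      _ ≤ _ := by
          refine Finset.sum_le_sum_of_subset_of_nonneg (Finset.filter_subset _ _) ?_
          intro x _ _
          positivity
  have hexp : ∑ x ∈ Cb K n, (∑ P ∈ PP, psi P (c0 + cx x) * (ni P)⁻¹) ^ 2 =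
      ∑ P ∈ PP, ∑ P' ∈ PP, (ni P)⁻¹ * (ni P')⁻¹ *
        ∑ x ∈ Cb K n, psi P (c0 + cx x) * psi P' (c0 + cx x) := by
    have e1 : ∀ x, (∑ P ∈ PP, psi P (c0 + cx x) * (ni P)⁻¹) ^ 2 =
        ∑ P ∈ PP, ∑ P' ∈ PP, (ni P)⁻¹ * (ni P')⁻¹ * (psi P (c0 + cx x) * psi P' (c0 + cx x)) := by
      intro x
      rw [sq, Finset.sum_mul_sum]
      refine Finset.sum_congr rfl fun P _ => Finset.sum_congr rfl fun P' _ => ?_
      ring
    rw [Finset.sum_congr rfl fun x _ => e1 x, Finset.sum_comm]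
    refine Finset.sum_congr rfl fun P _ => ?_
    rw [Finset.sum_comm]
    refine Finset.sum_congr rfl fun P' _ => ?_
    rw [Finset.mul_sum]
  have hni : ∀ P ∈ PP, 1 < ni P := fun P hP => by linarith [(hmem P hP).2.2.2]
  have hterm : ∀ P ∈ PP, ∀ P' ∈ PP, (ni P)⁻¹ * (ni P')⁻¹ *
        ∑ x ∈ Cb K n, psi P (c0 + cx x) * psi P' (c0 + cx x) ≤
      (n : ℝ) ^ r * ((if P = P' then 1 / ni P ^ 2 else 0) + (1 / ni P ^ 2) * (1 / ni P' ^ 2) +
        2 * r / n) := by
    intro P hP P' hP'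
    have hp := hni P hP
    have hp' := hni P' hP'
    have hp0 : 0 < ni P := by linarith
    have hp0' : 0 < ni P' := by linarith
    by_cases heq : P = P'
    · subst heq
      rw [if_pos rfl]
      have h1 : ∑ x ∈ Cb K n, psi P (c0 + cx x) * psi P (c0 + cx x) ≤ (n : ℝ) ^ r := by
        calc ∑ x ∈ Cb K n, psi P (c0 + cx x) * psi P (c0 + cx x) ≤ ∑ x ∈ Cb K n, (1 : ℝ) := by
              refine Finset.sum_le_sum fun x _ => ?_
              have h := abs_psi_le P (c0 + cx x)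
              have h' := abs_le.1 h
              nlinarith
          _ = (n : ℝ) ^ r := by
              rw [Finset.sum_const, nsmul_eq_mul, mul_one, card_Cb]
              push_cast
              rfl
      calc (ni P)⁻¹ * (ni P)⁻¹ * ∑ x ∈ Cb K n, psi P (c0 + cx x) * psi P (c0 + cx x) ≤
            (ni P)⁻¹ * (ni P)⁻¹ * (n : ℝ) ^ r := mul_le_mul_of_nonneg_left h1 (by positivity)
        _ = (n : ℝ) ^ r * (1 / ni P ^ 2) := by
            field_simp
        _ ≤ _ := by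
            refine mul_le_mul_of_nonneg_left ?_ hnr.le
            have h2 : 0 ≤ (1 / ni P ^ 2) * (1 / ni P ^ 2) := by positivity
            have h3 : (0 : ℝ) ≤ 2 * r / n := by positivity
            linarith
    · rw [if_neg heq, zero_add]
      have hnn : Ideal.absNorm P * Ideal.absNorm P' ≤ n := by
        have h1 : ni P * ni P' ≤ n := by
          calc ni P * ni P' ≤ z * z := mul_le_mul (hmem P hP).2.2.1 (hmem P' hP').2.2.1 hp0'.le hz0.le
            _ ≤ z ^ 4 := by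
                have : 1 ≤ z ^ 2 := one_le_pow₀ hz1
                nlinarith
            _ ≤ n := hzn
        unfold ni at h1
        exact_mod_cast h1
      have h1 := pair P P' (hmem P hP).1 (hmem P' hP').1 (hmem P hP).2.1 (hmem P' hP').2.1
        (h2P P hP) (h2P P' hP') heq n hnn c0
      calc (ni P)⁻¹ * (ni P')⁻¹ * ∑ x ∈ Cb K n, psi P (c0 + cx x) * psi P' (c0 + cx x) ≤
            (ni P)⁻¹ * (ni P')⁻¹ * ((n : ℝ) ^ Fintype.card (Kx K) *
              ((ni P * ni P')⁻¹ + 2 * Fintype.card (Kx K) * (ni P * ni P') / n)) :=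
            mul_le_mul_of_nonneg_left h1 (by positivity)
        _ = _ := by
            rw [← hr]
            field_simp
  have htl : ∑ P ∈ PP, 1 / ni P ^ 2 ≤ C2 / w := by
    have h1 := htail w (by linarith) PP (fun P hP => ⟨(hmem P hP).2.1, (hmem P hP).2.2.2⟩)
    exact h1
  have htl0 : 0 ≤ ∑ P ∈ PP, 1 / ni P ^ 2 := Finset.sum_nonneg fun P _ => by positivity
  have hPc : (PP.card : ℝ) ≤ C1 * z := hcard z hz1 PP (fun P hP => ⟨(hmem P hP).2.1, (hmem P hP).2.2.1⟩)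
  have hsum : ∑ P ∈ PP, ∑ P' ∈ PP, ((n : ℝ) ^ r * ((if P = P' then 1 / ni P ^ 2 else 0) +
      (1 / ni P ^ 2) * (1 / ni P' ^ 2) + 2 * r / n)) =
      (n : ℝ) ^ r * (∑ P ∈ PP, 1 / ni P ^ 2 + (∑ P ∈ PP, 1 / ni P ^ 2) ^ 2 +
        (PP.card : ℝ) ^ 2 * (2 * r / n)) := by
    simp_rw [← Finset.mul_sum, Finset.sum_add_distrib]
    congr 1
    congr 1
    · congr 1
      · refine Finset.sum_congr rfl fun P hP => ?_
        rw [Finset.sum_ite_eq, if_pos hP]
      · rw [sq, Finset.sum_mul_sum]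
    · simp only [Finset.sum_const, nsmul_eq_mul]
      ring
  have hlast : (PP.card : ℝ) ^ 2 * (2 * r / n) ≤ 2 * r * C1 ^ 2 / w := by
    have h1 : (PP.card : ℝ) ^ 2 ≤ (C1 * z) ^ 2 := pow_le_pow_left₀ (by positivity) hPc 2
    have h2 : z ^ 2 / n ≤ 1 / w := by
      rw [div_le_div_iff₀ hn0 hw0]
      have : z ^ 2 * w ≤ z ^ 4 := by
        have h3 : w ≤ z ^ 2 := by nlinarith
        nlinarith [pow_pos hz0 2]
      linarith
    calc (PP.card : ℝ) ^ 2 * (2 * r / n) ≤ (C1 * z) ^ 2 * (2 * r / n) :=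
          mul_le_mul_of_nonneg_right h1 (by positivity)
      _ = 2 * r * C1 ^ 2 * (z ^ 2 / n) := by ring
      _ ≤ 2 * r * C1 ^ 2 * (1 / w) := mul_le_mul_of_nonneg_left h2 (by positivity)
      _ = _ := by ring
  have hmid : (∑ P ∈ PP, 1 / ni P ^ 2) ^ 2 ≤ C2 ^ 2 / w := by
    have h1 : (∑ P ∈ PP, 1 / ni P ^ 2) ^ 2 ≤ (C2 / w) ^ 2 := pow_le_pow_left₀ htl0 htl 2
    refine h1.trans ?_
    rw [div_pow, div_le_div_iff₀ (by positivity) hw0]
    have : w ≤ w ^ 2 := by nlinarith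
    exact mul_le_mul_of_nonneg_left this (by positivity)
  calc (S.card : ℝ) ≤ Q.card := hSR
    _ ≤ _ := hsm
    _ = _ := hexp
    _ ≤ _ := Finset.sum_le_sum fun P hP => Finset.sum_le_sum fun P' hP' => hterm P hP P' hP'
    _ = _ := hsum
    _ ≤ (n : ℝ) ^ r * (C2 / w + C2 ^ 2 / w + 2 * r * C1 ^ 2 / w) := by
        refine mul_le_mul_of_nonneg_left ?_ hnr.le
        linarith
    _ = (C2 + C2 ^ 2 + 2 * r * C1 ^ 2) * (n : ℝ) ^ r / w := by ring
    _ ≤ _ := by
        rw [div_le_div_iff_of_pos_right hw0]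
        refine mul_le_mul_of_nonneg_right ?_ hnr.le
        linarith

end H77.PX
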