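import Pool.Agent.H77.PX.EDef

/-!
# [H77 PX CRT] Points of a cube with prescribed divisibility (100-150 lines)

`d = [K:ℚ]`, `J = h * ∏ i, p i ^ k i`, `ni J = ni h * ∏ ni (p i) ^ k i ≤ y ^ d` (`ni_mul`, `map_prod`, `map_pow`). The ideals `h`,
`p i ^ k i` are pairwise coprime (`p i` maximal, distinct, `h` not `≤ p i`), so an element of `h` and of all `p i ^ k i` is in `J`
(`Ideal.prod_eq_iInf..`, `IsCoprime.prod_dvd`, `Ideal.dvd_iff_le`, `Finset.prod_dvd_of_coprime`).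
(1) An entry: a finite set `E` of elements of `𝓞 K` which are pairwise congruent modulo `J` and at distance `≤ y` from the entry `x0` of `b0`
    (`Bd y (x - x0)`) has at most `C0 (1 + (2y)^d / ni J) ≤ C1 y^d / ni J` elements: `H88.A4.box_card` with `ν = ni J`, `R φ = 2 y`
    (`∏ φ, R φ = (2 y)^d`: `vol_const`): for `x ≠ x'` in `E`: `x - x' ∈ J` nonzero, `ni J ≤ nz (x - x')` (`ni_le_nz`), `nz = nm` (`nz_def`).
(2) `b ↦ (q3 (p i ^ k i) b)_i` maps `S` into the product of the `Zc (cc i) (p i ^ k i)` (`mem_Zc`), which has `∏ zn` elements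
    (`Set.ncard` / `Finset.card_pi`, `Fintype.card_piFinset`, the sets are finite: `finZ`). Elements `b, b'` of a fibre have entries
    congruent modulo all `p i ^ k i` (`q3_eq`) and in `h`, so congruent modulo `J`: by (1) for the three entries a fibre has at most
    `(C1 y^d / ni J)^3` elements. So `#S ≤ ∏ zn * C1^3 y^(3d) (ni J)^(-3)`, and `(ni J)^3 = (ni h)^3 ∏ ni (p i)^(3 k i)`.
-/

set_option autoImplicit false

open scoped NumberField
open H88.A4 H88.WS Pool.Agent.H67.WA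

noncomputable section

namespace H77.PX

private theorem crt_entry (K : Type) [Field K] [NumberField K] : ∃ C : ℝ, 0 < C ∧
    ∀ (J : Ideal (𝓞 K)) (y : ℝ) (x0 : 𝓞 K) (E : Finset (𝓞 K)), J ≠ ⊥ → 1 ≤ y →
      ni J ≤ y ^ Module.finrank ℚ K → (∀ x ∈ E, Bd y (x - x0)) →
      (∀ x ∈ E, ∀ x' ∈ E, x - x' ∈ J) →
      (E.card : ℝ) ≤ C * (y ^ Module.finrank ℚ K / ni J) := by
  obtain ⟨C0, hC0, h0⟩ := box_card K
  refine ⟨C0 * (1 + 2 ^ Module.finrank ℚ K), by positivity, ?_⟩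
  intro J y x0 E hJ hy hle hE hc
  have hn : 0 < ni J := lt_of_lt_of_le one_pos (one_le_ni hJ)
  have hy0 : 0 < y := lt_of_lt_of_le one_pos hy
  have h1 := h0 (ni J) hn (fun _ => 2 * y) (fun _ => by positivity)
    (E.map ⟨fun x : 𝓞 K => (x : K), NumberField.RingOfIntegers.coe_injective⟩) (by
      intro x hx x' hx' hne
      simp only [Finset.mem_map, Function.Embedding.coeFn_mk] at hx hx'
      obtain ⟨a, ha, rfl⟩ := hx
      obtain ⟨a', ha', rfl⟩ := hx'
      have hne' : a - a' ≠ 0 := by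
        intro h
        apply hne
        rw [sub_eq_zero.1 h]
      have := ni_le_nz (hc a ha a' ha') hne'
      rw [nz_def] at this
      simpa using this) (by
      intro x hx x' hx' φ
      simp only [Finset.mem_map, Function.Embedding.coeFn_mk] at hx hx'
      obtain ⟨a, ha, rfl⟩ := hx
      obtain ⟨a', ha', rfl⟩ := hx'
      have e1 : sz φ (a - x0) ≤ y := hE a ha φ
      have e2 : sz φ (a' - x0) ≤ y := hE a' ha' φ
      have e3 := sz_sub φ (a - x0) (a' - x0)
      rw [sub_sub_sub_cancel_right] at e3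
      have e4 : sz φ (a - a') = ‖φ ((a : K) - (a' : K))‖ := by
        unfold sz
        rw [map_sub, ← map_sub φ]
        rfl
      rw [← e4]
      linarith)
  rw [Finset.card_map] at h1
  have h2 : ∏ _φ : K →+* ℂ, 2 * y = (2 * y) ^ Module.finrank ℚ K := vol_const (2 * y)
  rw [h2, mul_pow] at h1
  have h3 : 1 ≤ y ^ Module.finrank ℚ K / ni J := (one_le_div hn).2 hle
  refine h1.trans ?_
  rw [mul_assoc, mul_div_assoc]
  apply mul_le_mul_of_nonneg_left _ hC0.le
  nlinarith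

private theorem crt_mem {K : Type} [Field K] [NumberField K] {n : ℕ} {p : Fin n → Ideal (𝓞 K)}
    {k : Fin n → ℕ} {h : Ideal (𝓞 K)} (hp : Function.Injective p)
    (hq : ∀ i, (p i).IsPrime ∧ p i ≠ ⊥ ∧ ¬ h ≤ p i) {x : 𝓞 K} (hx : x ∈ h)
    (hxi : ∀ i, x ∈ p i ^ k i) : x ∈ h * ∏ i, p i ^ k i := by
  have hmax : ∀ i, (p i).IsMaximal := fun i => (hq i).1.isMaximal (hq i).2.1
  have c1 : ∀ i, IsCoprime h (p i ^ k i) := by
    intro i
    apply IsCoprime.pow_right
    rw [Ideal.isCoprime_iff_sup_eq]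
    by_contra hne
    have hle : p i ≤ h ⊔ p i := le_sup_right
    have := (hmax i).eq_of_le hne hle
    exact (hq i).2.2 (this ▸ le_sup_left)
  have c2 : ∀ i j, i ≠ j → IsCoprime (p i ^ k i) (p j ^ k j) := by
    intro i j hij
    apply IsCoprime.pow
    exact Ideal.isCoprime_of_isMaximal (ne := fun h => hij (hp h))
  have c3 : IsCoprime h (∏ i, p i ^ k i) := IsCoprime.prod_right fun i _ => c1 i
  rw [← Ideal.dvd_span_singleton]
  refine c3.mul_dvd (Ideal.dvd_span_singleton.2 hx) ?_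
  refine Finset.prod_dvd_of_coprime ?_ fun i _ => Ideal.dvd_span_singleton.2 (hxi i)
  intro i _ j _ hij
  exact c2 i j hij

theorem crt (K : Type) [Field K] [NumberField K] : ∃ C : ℝ, 0 < C ∧
    ∀ (n : ℕ) (p : Fin n → Ideal (𝓞 K)) (k : Fin n → ℕ) (cc : Fin n → T3 K) (h : Ideal (𝓞 K)) (y : ℝ)
      (b0 : T3 K) (S : Finset (T3 K)), Function.Injective p → (∀ i, (p i).IsPrime ∧ p i ≠ ⊥ ∧ ¬ h ≤ p i) →
      h ≠ ⊥ → 1 ≤ y → ni h * ∏ i, ni (p i) ^ k i ≤ y ^ Module.finrank ℚ K →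
      (∀ b ∈ S, T3.All (Bd y) (b - b0) ∧ T3.All (fun x => x ∈ h) b ∧ ∀ i, Ec (cc i) b ∈ p i ^ k i) →
      (S.card : ℝ) ≤ C * y ^ (3 * Module.finrank ℚ K) * (ni h)⁻¹ ^ 3 *
        ∏ i, (zn (cc i) (p i ^ k i) : ℝ) / ni (p i) ^ (3 * k i) := by
  classical
  obtain ⟨C1, hC1, h1⟩ := crt_entry K
  refine ⟨C1 ^ 3, by positivity, ?_⟩
  intro n p k cc h y b0 S hp hq hh hy hle hS
  have hne : ∀ i, p i ^ k i ≠ ⊥ := fun i => by
    rw [← Ideal.zero_eq_bot]
    exact pow_ne_zero _ (hq i).2.1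
  set J : Ideal (𝓞 K) := h * ∏ i, p i ^ k i with hJ
  have hJne : J ≠ ⊥ := by
    rw [hJ, ← Ideal.zero_eq_bot]
    exact mul_ne_zero hh (Finset.prod_ne_zero_iff.2 fun i _ => hne i)
  have hniJ : ni J = ni h * ∏ i, ni (p i) ^ k i := by
    rw [hJ, ni_mul]
    congr 1
    unfold ni
    rw [map_prod, Nat.cast_prod]
    refine Finset.prod_congr rfl fun i _ => ?_
    rw [map_pow, Nat.cast_pow]
  have hJle : ni J ≤ y ^ Module.finrank ℚ K := by rw [hniJ]; exact hle
  have hnJ : 0 < ni J := lt_of_lt_of_le one_pos (one_le_ni hJne)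
  have hy0 : 0 < y := lt_of_lt_of_le one_pos hy
  set f : T3 K → (∀ i, Q3 (p i ^ k i)) := fun b i => q3 (p i ^ k i) b with hf
  set T : Finset (∀ i, Q3 (p i ^ k i)) :=
    Fintype.piFinset fun i => (finZ (hne i) (cc i)).toFinset with hT
  have hTc : (T.card : ℝ) = ∏ i, (zn (cc i) (p i ^ k i) : ℝ) := by
    rw [hT, Fintype.card_piFinset, Nat.cast_prod]
    refine Finset.prod_congr rfl fun i _ => ?_
    unfold zn
    rw [Set.ncard_eq_toFinset_card _ (finZ (hne i) (cc i))]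
  have hmaps : ∀ b ∈ S, f b ∈ T := by
    intro b hb
    rw [hT, Fintype.mem_piFinset]
    intro i
    rw [Set.Finite.mem_toFinset]
    exact mem_Zc.2 ((hS b hb).2.2 i)
  set A : ℝ := C1 * (y ^ Module.finrank ℚ K / ni J) with hA
  have hA0 : 0 ≤ A := by positivity
  have hfib : ∀ z ∈ T, ((S.filter fun b => f b = z).card : ℝ) ≤ A ^ 3 := by
    intro z _
    set F := S.filter fun b => f b = z with hF
    have hFS : ∀ b ∈ F, b ∈ S ∧ f b = z := fun b hb => Finset.mem_filter.1 hb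
    have hcong : ∀ b ∈ F, ∀ b' ∈ F, b.1 - b'.1 ∈ J ∧ b.2.1 - b'.2.1 ∈ J ∧
        b.2.2 - b'.2.2 ∈ J := by
      intro b hb b' hb'
      obtain ⟨hbS, hbz⟩ := hFS b hb
      obtain ⟨hbS', hbz'⟩ := hFS b' hb'
      have hq3 : ∀ i, q3 (p i ^ k i) b = q3 (p i ^ k i) b' := fun i =>
        congrFun (hbz.trans hbz'.symm) i
      obtain ⟨-, ⟨m1, m2, m3⟩, -⟩ := hS b hbS
      obtain ⟨-, ⟨m1', m2', m3'⟩, -⟩ := hS b' hbS'
      exact ⟨crt_mem hp hq (h.sub_mem m1 m1') fun i => (q3_eq.1 (hq3 i)).1,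
        crt_mem hp hq (h.sub_mem m2 m2') fun i => (q3_eq.1 (hq3 i)).2.1,
        crt_mem hp hq (h.sub_mem m3 m3') fun i => (q3_eq.1 (hq3 i)).2.2⟩
    have e1 : ((F.image fun b => b.1).card : ℝ) ≤ A := by
      apply h1 J y b0.1 _ hJne hy hJle
      · intro x hx
        obtain ⟨b, hb, rfl⟩ := Finset.mem_image.1 hx
        exact (hS b (hFS b hb).1).1.1
      · intro x hx x' hx'
        obtain ⟨b, hb, rfl⟩ := Finset.mem_image.1 hx
        obtain ⟨b', hb', rfl⟩ := Finset.mem_image.1 hx'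
        exact (hcong b hb b' hb').1
    have e2 : ((F.image fun b => b.2.1).card : ℝ) ≤ A := by
      apply h1 J y b0.2.1 _ hJne hy hJle
      · intro x hx
        obtain ⟨b, hb, rfl⟩ := Finset.mem_image.1 hx
        exact (hS b (hFS b hb).1).1.2.1
      · intro x hx x' hx'
        obtain ⟨b, hb, rfl⟩ := Finset.mem_image.1 hx
        obtain ⟨b', hb', rfl⟩ := Finset.mem_image.1 hx'
        exact (hcong b hb b' hb').2.1
    have e3 : ((F.image fun b => b.2.2).card : ℝ) ≤ A := by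
      apply h1 J y b0.2.2 _ hJne hy hJle
      · intro x hx
        obtain ⟨b, hb, rfl⟩ := Finset.mem_image.1 hx
        exact (hS b (hFS b hb).1).1.2.2
      · intro x hx x' hx'
        obtain ⟨b, hb, rfl⟩ := Finset.mem_image.1 hx
        obtain ⟨b', hb', rfl⟩ := Finset.mem_image.1 hx'
        exact (hcong b hb b' hb').2.2
    have hsub : F ⊆ (F.image fun b => b.1) ×ˢ ((F.image fun b => b.2.1) ×ˢ
        (F.image fun b => b.2.2)) := by
      intro b hb
      simp only [Finset.mem_product, Finset.mem_image]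
      exact ⟨⟨b, hb, rfl⟩, ⟨b, hb, rfl⟩, ⟨b, hb, rfl⟩⟩
    have hcard := Finset.card_le_card hsub
    rw [Finset.card_product, Finset.card_product] at hcard
    have hcard' : (F.card : ℝ) ≤ ((F.image fun b => b.1).card : ℝ) *
        (((F.image fun b => b.2.1).card : ℝ) * ((F.image fun b => b.2.2).card : ℝ)) := by
      exact_mod_cast hcard
    refine hcard'.trans ?_
    calc ((F.image fun b => b.1).card : ℝ) *
        (((F.image fun b => b.2.1).card : ℝ) * ((F.image fun b => b.2.2).card : ℝ))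
        ≤ A * (A * A) := by
          apply mul_le_mul e1 _ (by positivity) hA0
          exact mul_le_mul e2 e3 (by positivity) hA0
      _ = A ^ 3 := by ring
  have htot : (S.card : ℝ) ≤ (∏ i, (zn (cc i) (p i ^ k i) : ℝ)) * A ^ 3 := by
    rw [← hTc, Finset.card_eq_sum_card_fiberwise (f := f) (t := T) (fun b hb => hmaps b hb),
      Nat.cast_sum]
    calc ∑ z ∈ T, ((S.filter fun b => f b = z).card : ℝ) ≤ ∑ _z ∈ T, A ^ 3 :=
          Finset.sum_le_sum hfib
      _ = (T.card : ℝ) * A ^ 3 := by rw [Finset.sum_const, nsmul_eq_mul]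
  refine htot.trans (le_of_eq ?_)
  rw [Finset.prod_div_distrib, hA, hniJ]
  have hprod : ∏ i, ni (p i) ^ (3 * k i) = (∏ i, ni (p i) ^ k i) ^ 3 := by
    rw [← Finset.prod_pow]
    refine Finset.prod_congr rfl fun i _ => ?_
    rw [← pow_mul, mul_comm]
  rw [hprod, mul_comm 3 (Module.finrank ℚ K), pow_mul]
  have n1 : ni h ≠ 0 := (lt_of_lt_of_le one_pos (one_le_ni hh)).ne'
  have n2 : (∏ i, ni (p i) ^ k i) ≠ 0 := by
    refine Finset.prod_ne_zero_iff.2 fun i _ => pow_ne_zero _ ?_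
    exact (lt_of_lt_of_le one_pos (one_le_ni (hq i).2.1)).ne'
  field_simp

end H77.PX
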