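import Pool.Agent.H77.PX.Mer2

/-!
# [H77 PX HZ] Sums over primes: non inert primes, divisors of `m dt c` (70-100 lines)

`hcle`: `PrK K X` is finite (ideals of bounded norm, `Ideal.finite_setOfPred_absNorm_le`), so the `finsum` in `Hc` is a finite sum with terms `≥ 0`; the
left side is the sum over an injective family of its nonzero terms.
`zle`: the sum over the `i` with `m ∈ p i` and the sum over the `i` with `dt c ∈ p i`, both by `mer4` (`T = image`): `x = m`, `Y = max 3 (nz m)`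
(constant); `x = dt c`, `|dt c|_φ ≤ 2 X^(2A) ≤ X^(2A+1)`, `nz (dt c) ≤ X^((2A+1) d) = Y` (`≥ 3` as `d = [K:ℚ] ≥ 1`),
`log (log Y) = log ((2A+1) d) + log (log X)`, `L = log (log X) > 0` (`X ≥ 3`), `a = log ((2A+1) d) ≥ 0`:
`1 + a + L ≤ (1 + a)(L + 3)`, so `B (1 + log (1 + log (log Y))) ≤ B (1 + log (1 + a)) + B log (L + 3)`. Total `≤ C (1 + log (L + 3))`.
-/

set_option autoImplicit false

open scoped NumberField
open H88.A4 H88.WS Pool.Agent.H67.WA

noncomputable section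

namespace H77.PX

private theorem hz_fin (K : Type) [Field K] [NumberField K] (X : ℝ) : (PrK K X).Finite := by
  refine (Ideal.finite_setOfPred_absNorm_le (S := 𝓞 K) ⌊X⌋₊).subset ?_
  rintro P ⟨-, -, hP⟩
  exact Nat.le_floor hP

open Classical in
theorem hcle {K : Type} [Field K] [NumberField K] (m : ℕ) (X : ℝ) (D : 𝓞 K) (n : ℕ) (p : Fin n → Ideal (𝓞 K))
    (hp : Function.Injective p) (hp' : ∀ i, (p i).IsPrime ∧ p i ≠ ⊥) :
    Real.exp (∑ i ∈ Finset.univ.filter (fun i => ¬ Inr m D (p i)) with ni (p i) ≤ X, 1 / ni (p i)) ≤ Hc m X D := by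
  unfold Hc
  refine Real.exp_le_exp.2 ?_
  rw [finsum_mem_eq_finite_toFinset_sum _ (hz_fin K X)]
  have h1 : ∑ i ∈ (Finset.univ.filter (fun i => ¬ Inr m D (p i))).filter (fun i => ni (p i) ≤ X), 1 / ni (p i) =
      ∑ P ∈ ((Finset.univ.filter (fun i => ¬ Inr m D (p i))).filter (fun i => ni (p i) ≤ X)).image p,
        (if Inr m D P then 0 else (ni P)⁻¹) := by
    rw [Finset.sum_image fun a _ b _ hab => hp hab]
    refine Finset.sum_congr rfl fun i hi => ?_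
    rw [Finset.mem_filter, Finset.mem_filter] at hi
    rw [if_neg hi.1.2, one_div]
  rw [h1]
  refine Finset.sum_le_sum_of_subset_of_nonneg ?_ ?_
  · intro P hP
    obtain ⟨i, hi, rfl⟩ := Finset.mem_image.1 hP
    rw [Finset.mem_filter] at hi
    rw [Set.Finite.mem_toFinset]
    exact ⟨(hp' i).1, (hp' i).2, hi.2⟩
  · intro P _ _
    split_ifs
    · exact le_rfl
    · exact inv_nonneg.2 (ni_nonneg P)

/-- one element -/
private theorem hz_one {K : Type} [Field K] [NumberField K] {B : ℝ}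
    (h : ∀ T : Finset (Ideal (𝓞 K)), ∀ (Y : ℝ)
    (x : 𝓞 K), 3 ≤ Y → x ≠ 0 → nz x ≤ Y → (∀ P ∈ T, P.IsPrime ∧ P ≠ ⊥ ∧ x ∈ P) →
      ∑ P ∈ T, (ni P)⁻¹ ≤ B * (1 + Real.log (1 + Real.log (Real.log Y)))) (n : ℕ) (p : Fin n → Ideal (𝓞 K))
    (hp : Function.Injective p) (hp' : ∀ i, (p i).IsPrime ∧ p i ≠ ⊥) (U : Finset (Fin n)) (x : 𝓞 K) (hx : x ≠ 0)
    (hU : ∀ i ∈ U, x ∈ p i) (Y : ℝ) (hY : 3 ≤ Y) (hxY : nz x ≤ Y) :
    ∑ i ∈ U, 1 / ni (p i) ≤ B * (1 + Real.log (1 + Real.log (Real.log Y))) := by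
  classical
  have h1 := h (U.image p) Y x hY hx hxY ?_
  · rw [Finset.sum_image fun a _ b _ hab => hp hab] at h1
    simpa only [one_div] using h1
  · intro P hP
    obtain ⟨i, hi, rfl⟩ := Finset.mem_image.1 hP
    exact ⟨(hp' i).1, (hp' i).2, hU i hi⟩

open Classical in
theorem zle (K : Type) [Field K] [NumberField K] (m : ℕ) (hm : m ≠ 0) (A : ℕ) : ∃ C : ℝ, 0 < C ∧
    ∀ (X : ℝ) (c : T3 K), 3 ≤ X → T3.All (Bd (X ^ A)) c → dt c ≠ 0 → ∀ (n : ℕ) (p : Fin n → Ideal (𝓞 K)),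
      Function.Injective p → (∀ i, (p i).IsPrime ∧ p i ≠ ⊥) →
      ∑ i with (m : 𝓞 K) ∈ p i ∨ dt c ∈ p i, 1 / ni (p i) ≤ C * (1 + Real.log (Real.log (Real.log X) + 3)) := by
  obtain ⟨B, hB, h⟩ := mer4 K
  have hlog3 : 1 < Real.log 3 := by
    rw [Real.lt_log_iff_exp_lt (by norm_num)]
    linarith [Real.exp_one_lt_d9]
  obtain ⟨Y, hY⟩ : ∃ Y : ℝ, Y = max 3 (nz (m : 𝓞 K)) := ⟨_, rfl⟩
  have hY3 : 3 ≤ Y := by
    rw [hY]
    exact le_max_left _ _
  have hlogY : 1 < Real.log Y := hlog3.trans_le (Real.log_le_log (by norm_num) hY3)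
  obtain ⟨C1, hC1⟩ : ∃ C1 : ℝ, C1 = B * (1 + Real.log (1 + Real.log (Real.log Y))) := ⟨_, rfl⟩
  have hC10 : 0 ≤ C1 := by
    rw [hC1]
    have h1 : 0 ≤ Real.log (Real.log Y) := Real.log_nonneg hlogY.le
    have h2 : 0 ≤ Real.log (1 + Real.log (Real.log Y)) := Real.log_nonneg (by linarith)
    positivity
  obtain ⟨k, hk⟩ : ∃ k : ℕ, k = (2 * A + 1) * Module.finrank ℚ K := ⟨_, rfl⟩
  have hk1 : 1 ≤ k := by
    rw [hk]
    exact Nat.mul_pos (by omega) Module.finrank_pos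
  have hk1' : (1 : ℝ) ≤ k := by exact_mod_cast hk1
  obtain ⟨a, ha⟩ : ∃ a : ℝ, a = Real.log k := ⟨_, rfl⟩
  have ha0 : 0 ≤ a := by
    rw [ha]
    exact Real.log_nonneg hk1'
  have hla : 0 ≤ Real.log (1 + a) := Real.log_nonneg (by linarith)
  refine ⟨B * (1 + Real.log (1 + a)) + B + C1, by nlinarith, ?_⟩
  intro X c hX hc hdt n p hp hp'
  have hX0 : 0 < X := by linarith
  have hX1 : 1 ≤ X := by linarith
  have hm0 : (m : 𝓞 K) ≠ 0 := by exact_mod_cast hm
  have hlogX : 1 < Real.log X := hlog3.trans_le (Real.log_le_log (by norm_num) hX)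
  have hL : 0 ≤ Real.log (Real.log X) := Real.log_nonneg hlogX.le
  -- the size of the determinant
  have hsz : ∀ φ : K →+* ℂ, sz φ (dt c) ≤ X ^ (2 * A + 1) := by
    intro φ
    have h1 : sz φ c.1 ≤ X ^ A := hc.1 φ
    have h2 : sz φ c.2.1 ≤ X ^ A := hc.2.1 φ
    have h3 : sz φ c.2.2 ≤ X ^ A := hc.2.2 φ
    have hXA : 0 < X ^ A := pow_pos hX0 A
    unfold dt
    refine (sz_sub φ _ _).trans ?_
    rw [sz_mul, sz_pow]
    have h4 := mul_le_mul h1 h3 (sz_nonneg φ _) hXA.le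
    have h5 := pow_le_pow_left₀ (sz_nonneg φ c.2.1) h2 2
    have h6 : X ^ (2 * A + 1) = X ^ A * X ^ A * X := by ring
    rw [h6]
    have h7 : 0 < X ^ A * X ^ A := mul_pos hXA hXA
    nlinarith
  have hnz : nz (dt c) ≤ X ^ k := by
    have h1 := nz_le_vol (R := fun _ : K →+* ℂ => X ^ (2 * A + 1)) hsz
    rw [vol_const, ← pow_mul] at h1
    rw [hk]
    exact h1
  have hXk : 3 ≤ X ^ k := by
    calc (3 : ℝ) ≤ X ^ 1 := by rw [pow_one]; exact hX
      _ ≤ X ^ k := pow_le_pow_right₀ hX1 hk1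
  have h1 : ∑ i with (m : 𝓞 K) ∈ p i, 1 / ni (p i) ≤ C1 := by
    rw [hC1]
    refine hz_one h n p hp hp' _ (m : 𝓞 K) hm0 (fun i hi => (Finset.mem_filter.1 hi).2) Y hY3 ?_
    rw [hY]
    exact le_max_right _ _
  have h2 : ∑ i with dt c ∈ p i, 1 / ni (p i) ≤ B * (1 + Real.log (1 + Real.log (Real.log (X ^ k)))) :=
    hz_one h n p hp hp' _ (dt c) hdt (fun i hi => (Finset.mem_filter.1 hi).2) (X ^ k) hXk hnz
  have h3 : Real.log (Real.log (X ^ k)) = a + Real.log (Real.log X) := by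
    rw [Real.log_pow, Real.log_mul (by positivity) (by linarith), ha]
  rw [h3] at h2
  have h4 : Real.log (1 + (a + Real.log (Real.log X))) ≤ Real.log (1 + a) + Real.log (Real.log (Real.log X) + 3) := by
    rw [← Real.log_mul (by linarith) (by linarith)]
    refine Real.log_le_log (by linarith) ?_
    nlinarith [mul_nonneg ha0 hL]
  have h5 : 0 ≤ Real.log (Real.log (Real.log X) + 3) := Real.log_nonneg (by linarith)
  have h6 : ∑ i with (m : 𝓞 K) ∈ p i ∨ dt c ∈ p i, 1 / ni (p i) ≤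
      ∑ i with (m : 𝓞 K) ∈ p i, 1 / ni (p i) + ∑ i with dt c ∈ p i, 1 / ni (p i) := by
    rw [Finset.filter_or, ← Finset.sum_union_inter]
    refine le_add_of_nonneg_right (Finset.sum_nonneg fun i _ => ?_)
    exact div_nonneg zero_le_one (ni_nonneg _)
  have h7 : B * Real.log (1 + (a + Real.log (Real.log X))) ≤
      B * (Real.log (1 + a) + Real.log (Real.log (Real.log X) + 3)) := mul_le_mul_of_nonneg_left h4 (by linarith)
  have h8 : 0 ≤ (B * (1 + Real.log (1 + a)) + C1) * Real.log (Real.log (Real.log X) + 3) :=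
    mul_nonneg (by nlinarith) h5
  nlinarith

end H77.PX
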