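import Pool.Agent.H77.PX.Fce
import Pool.Agent.H77.PX.Hz
import Pool.Agent.H77.PX.Crt
import Pool.Agent.H51.AV.PfxG

/-!
# [H77 PX AVG] (c6): assembly of `AvgStmt` (100-150 lines)

`d = [K:ℚ] ≥ 1`. `c0 = min 1 (δ d / 2)`, `C0 = (4A + 4) d`, `B = max 2 (B of hyp)`, `pfxG B C0 c0 48` gives `C'`; `crt` gives `C1`,
`dvb2` gives `C2`, `zle` gives `C3`. `y ≥ X^δ ≥ 1`. `T` = the primes `P` with `¬ h ≤ P` in the union of the `pf (span {E_c(b)})`, `b ∈ S`
(elements of `pf` are prime ideals `≠ ⊥`), `enum T`: `p`. `N i = ni (p i)`, `E b i = od (p i) (span {E_c(b)}) - 2 od (p i) (cn c)`,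
`f i k = lf m (dt c) h (p i) k`, `P` = the `i` with `¬ Inr m (dt c) (p i)`, `Z` = the `i` with `m ∈ p i ∨ dt c ∈ p i`; `hyp`, `den`.
`f ≤ (k+1)^48`; `i ∉ Z`, `i ∈ P`: `f ≤ k + 1`; `i ∉ Z`, `i ∉ P`: `f = 1` (definition of `lf`). `nn N (E b) ≤ X^C0`: `nnle`, `nzE`.
Counts: `nn N e ≤ X^c0 ≤ X^(δ d/2) ≤ y^(d/2)`, `ni h ≤ y^(d/8)`, so `ni h * nn N e ≤ y^d`: `crt` for `S.filter (..)` (`Ec (cc i) b ∈ p i ^ e i`
from `den`), `T = C1 y^(3d) (ni h)^(-3)`. Conclusion with `fcle`, `dvb2`, `hcle`, `zle` (`L = log (log X)`):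
`∑ Fc ≤ C2 ni (cn c)^ε C' T exp (log Hc + C' C3 (1 + log (L + 3))) = C2 C' C1 e^(C' C3) y^(3d) (ni h)^(-3) ni (cn c)^ε (L + 3)^(C' C3) Hc`;
`C = max` of the constant and of `C' C3` (`L + 3 ≥ 1`).
-/

set_option autoImplicit false

open scoped NumberField
open H88.A4 H88.WS Pool.Agent.H67.WA

noncomputable section

namespace H77.PX

private theorem lf_le {K : Type} [Field K] [NumberField K] (m : ℕ) (D : 𝓞 K) (h P : Ideal (𝓞 K)) (k : ℕ) :
    (lf m D h P k : ℝ) ≤ ((k : ℝ) + 1) ^ 48 := by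
  have h1 : (1 : ℝ) ≤ (k : ℝ) + 1 := by have : (0 : ℝ) ≤ k := Nat.cast_nonneg k; linarith
  unfold lf
  split_ifs
  · rw [Nat.cast_one]
    exact one_le_pow₀ h1
  · push_cast
    exact le_rfl
  · rw [Nat.cast_one]
    exact one_le_pow₀ h1
  · push_cast
    calc (k : ℝ) + 1 = ((k : ℝ) + 1) ^ 1 := (pow_one _).symm
      _ ≤ _ := pow_le_pow_right₀ h1 (by norm_num)

private theorem lf_good {K : Type} [Field K] [NumberField K] (m : ℕ) (D : 𝓞 K) (h P : Ideal (𝓞 K)) (k : ℕ)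
    (hm : (m : 𝓞 K) ∉ P) : (lf m D h P k : ℝ) ≤ (k : ℝ) + 1 := by
  have h1 : (1 : ℝ) ≤ (k : ℝ) + 1 := by have : (0 : ℝ) ≤ k := Nat.cast_nonneg k; linarith
  unfold lf
  split_ifs
  · rw [Nat.cast_one]
    exact h1
  · rw [Nat.cast_one]
    exact h1
  · push_cast
    exact le_rfl

private theorem lf_inr {K : Type} [Field K] [NumberField K] (m : ℕ) (D : 𝓞 K) (h P : Ideal (𝓞 K)) (k : ℕ)
    (hi : Inr m D P) : (lf m D h P k : ℝ) ≤ 1 := by
  unfold lf
  rw [if_neg hi.1, if_pos hi]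
  split_ifs <;> simp

private theorem pf_prime {K : Type} [Field K] [NumberField K] {I P : Ideal (𝓞 K)} (h : P ∈ pf I) :
    P.IsPrime ∧ P ≠ ⊥ := by
  unfold pf at h
  rw [Multiset.mem_toFinset] at h
  have h1 := UniqueFactorizationMonoid.prime_of_normalized_factor P h
  exact ⟨Ideal.isPrime_of_prime h1, h1.ne_zero⟩

theorem avg (K : Type) [Field K] [NumberField K] : AvgStmt K := by
  classical
  intro m hm h6 A δ ε hδ hε
  have hd1 : 1 ≤ Module.finrank ℚ K := Module.finrank_pos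
  set d : ℕ := Module.finrank ℚ K with hd
  have hd1' : (1 : ℝ) ≤ (d : ℝ) := by exact_mod_cast hd1
  set c0 : ℝ := min 1 (δ * d / 2) with hc0
  have hc00 : 0 < c0 := lt_min one_pos (by positivity)
  have hc01 : c0 ≤ 1 := min_le_left _ _
  set C0 : ℝ := (((4 * A + 4) * d : ℕ) : ℝ) with hC0
  have hC01 : 1 ≤ C0 := by
    rw [hC0]
    have : 1 ≤ (4 * A + 4) * d := Nat.mul_pos (by omega) hd1
    exact_mod_cast this
  obtain ⟨B1, hB1, hhyp⟩ := hyp K
  set B : ℝ := max 2 B1 with hB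
  have hB2 : 2 ≤ B := le_max_left _ _
  obtain ⟨C', hC', hpfx⟩ := H51.AV.pfxG B C0 c0 48 (by linarith) hC01 hc00 hc01
  obtain ⟨C1, hC1, hcrt⟩ := crt K
  obtain ⟨C2, hC2, hdvb⟩ := dvb2 K ε hε
  obtain ⟨C3, hC3, hzle⟩ := zle K m hm A
  refine ⟨max (C2 * C' * C1 * Real.exp (C' * C3)) (C' * C3), lt_max_of_lt_left (by positivity), ?_⟩
  intro X y hX hy1 hy2 c hc hdc hcn h hh hcop hni b0 hb0 S hS
  have hX1 : (1 : ℝ) ≤ X := by linarith
  have hX0 : (0 : ℝ) < X := by linarith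
  have hy : 1 ≤ y := (Real.one_le_rpow hX1 hδ.le).trans hy1
  have hy0 : 0 < y := by linarith
  -- the primes
  set T : Finset (Ideal (𝓞 K)) := (S.biUnion fun b => pf (Ideal.span {Ec c b})).filter fun P => ¬ h ≤ P with hT
  obtain ⟨n, p, hpi, hpT, hTp, hpm⟩ := enum T
  have hpp : ∀ i, (p i).IsPrime ∧ p i ≠ ⊥ := by
    intro i
    have h1 := hpT i
    rw [hT, Finset.mem_filter, Finset.mem_biUnion] at h1
    obtain ⟨⟨b, -, hb⟩, -⟩ := h1
    exact pf_prime hb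
  have hph : ∀ i, ¬ h ≤ p i := by
    intro i
    have h1 := hpT i
    rw [hT, Finset.mem_filter] at h1
    exact h1.2
  obtain ⟨cc, hcc, hden⟩ := den m h6 B hB2 c hdc n p hpp
  have hH := hhyp B (le_max_right _ _) n p hpi hpp hpm
  set E : T3 K → Fin n → ℕ := fun b i => od (p i) (Ideal.span {Ec c b}) - 2 * od (p i) (cn c) with hE
  set T0 : ℝ := C1 * y ^ (3 * d) * (ni h)⁻¹ ^ 3 with hT0
  have hnh : 1 ≤ ni h := one_le_ni hh
  have hT00 : 0 ≤ T0 := by positivity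
  have hmain := hpfx (Fin n) (fun i => ni (p i)) hH _ _ hden
    (Finset.univ.filter fun i => ¬ Inr m (dt c) (p i)) X T0 (by linarith) hT00
    (fun i k => (lf m (dt c) h (p i) k : ℝ)) (fun i k => Nat.cast_nonneg _) (fun i k => lf_le _ _ _ _ _)
    (fun i k hi _ => lf_good _ _ _ _ _ (by
      intro hcon
      exact hi (Finset.mem_filter.2 ⟨Finset.mem_univ _, Or.inl hcon⟩)))
    (fun i k _ hi => lf_inr _ _ _ _ _ (by
      by_contra hcon
      exact hi (Finset.mem_filter.2 ⟨Finset.mem_univ _, hcon⟩)))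
    (T3 K) S E (by
      intro b hb
      obtain ⟨hb1, hb2, hb3⟩ := hS b hb
      have h1 := nnle c b hb3 n p hpi hpp
      have h2 := nzE X y A hX hy2 c b b0 hc hb0 hb1
      rw [hC0, Real.rpow_natCast]
      exact h1.trans h2) (by
      intro e he
      have hy3 : ni h * ∏ i, ni (p i) ^ e i ≤ y ^ d := by
        have h1 : ∏ i, ni (p i) ^ e i ≤ y ^ ((d : ℝ) / 2) := by
          calc ∏ i, ni (p i) ^ e i ≤ X ^ c0 := he
            _ ≤ X ^ (δ * d / 2) := Real.rpow_le_rpow_of_exponent_le hX1 (min_le_right _ _)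
            _ = (X ^ δ) ^ ((d : ℝ) / 2) := by
                rw [← Real.rpow_mul hX0.le]
                congr 1
                ring
            _ ≤ y ^ ((d : ℝ) / 2) := Real.rpow_le_rpow (Real.rpow_nonneg hX0.le _) hy1 (by positivity)
        calc ni h * ∏ i, ni (p i) ^ e i ≤ y ^ ((d : ℝ) / 8) * y ^ ((d : ℝ) / 2) := by
              refine mul_le_mul hni h1 (Finset.prod_nonneg fun i _ => pow_nonneg (ni_nonneg _) _)
                (Real.rpow_nonneg hy0.le _)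
          _ = y ^ ((d : ℝ) / 8 + (d : ℝ) / 2) := by rw [← Real.rpow_add hy0]
          _ ≤ y ^ (d : ℝ) := Real.rpow_le_rpow_of_exponent_le hy (by linarith)
          _ = y ^ d := Real.rpow_natCast _ _
      have h2 := hcrt n p e cc h y b0 (S.filter fun b => ∀ i, e i ≤ E b i) hpi
        (fun i => ⟨(hpp i).1, (hpp i).2, hph i⟩) hh hy hy3 (by
          intro b hb
          obtain ⟨hbS, hbe⟩ := Finset.mem_filter.1 hb
          obtain ⟨hb1, hb2, hb3⟩ := hS b hbS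
          exact ⟨hb1, hb2, fun i => hcc i b (e i) hb3 (hbe i)⟩)
      rw [hT0]
      convert h2)
  -- conclusion
  have hcn0 : cn c ≠ ⊥ := cn_ne hdc
  set Q : ℝ := ∏ P ∈ pf (cn c), ((2 * od P (cn c) + 1 : ℕ) : ℝ) ^ 48 with hQ
  have hQ0 : 0 ≤ Q := Finset.prod_nonneg fun P _ => by positivity
  have hQle : Q ≤ C2 * ni (cn c) ^ ε := hdvb (cn c) hcn0
  have hL : 0 ≤ Real.log (Real.log X) := by
    refine Real.log_nonneg ?_
    rw [← Real.log_exp 1]
    exact Real.log_le_log (Real.exp_pos 1) (by have := Real.exp_one_lt_d9; linarith)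
  set L : ℝ := Real.log (Real.log X) + 3 with hLd
  have hL3 : 3 ≤ L := by linarith
  have hz := hzle X c hX hc hdc n p hpi hpp
  have hexp : Real.exp (∑ i ∈ Finset.univ.filter (fun i => ¬ Inr m (dt c) (p i)) with ni (p i) ≤ X, 1 / ni (p i) +
      C' * ∑ i with (m : 𝓞 K) ∈ p i ∨ dt c ∈ p i, 1 / ni (p i)) ≤
      Hc m X (dt c) * (Real.exp (C' * C3) * L ^ (C' * C3)) := by
    rw [Real.exp_add]
    refine mul_le_mul (hcle m X (dt c) n p hpi hpp) ?_ (Real.exp_pos _).le (Real.exp_pos _).le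
    have h1 : C' * ∑ i with (m : 𝓞 K) ∈ p i ∨ dt c ∈ p i, 1 / ni (p i) ≤
        C' * C3 + Real.log L * (C' * C3) := by
      calc _ ≤ C' * (C3 * (1 + Real.log L)) := mul_le_mul_of_nonneg_left hz (by linarith)
        _ = _ := by ring
    calc Real.exp (C' * ∑ i with (m : 𝓞 K) ∈ p i ∨ dt c ∈ p i, 1 / ni (p i)) ≤
        Real.exp (C' * C3 + Real.log L * (C' * C3)) := Real.exp_le_exp.2 h1
      _ = Real.exp (C' * C3) * L ^ (C' * C3) := by
          rw [Real.exp_add, Real.rpow_def_of_pos (by linarith)]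
  have hsum : ∑ b ∈ S, (Fc m (dt c) h (Ec c b) : ℝ) ≤
      Q * ∑ b ∈ S, ∏ i, (lf m (dt c) h (p i) (E b i) : ℝ) := by
    rw [Finset.mul_sum]
    refine Finset.sum_le_sum fun b hb => ?_
    obtain ⟨hb1, hb2, hb3⟩ := hS b hb
    refine fcle m c b hdc hb3 h n p hpi ?_
    intro P hP hhP
    exact hTp P (by
      rw [hT, Finset.mem_filter, Finset.mem_biUnion]
      exact ⟨⟨b, hb, hP⟩, hhP⟩)
  have hnc : 0 ≤ ni (cn c) ^ ε := Real.rpow_nonneg (ni_nonneg _) _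
  have hHc : 0 < Hc m X (dt c) := Real.exp_pos _
  have hLp : 0 ≤ L ^ (C' * C3) := Real.rpow_nonneg (by linarith) _
  have hLp2 : L ^ (C' * C3) ≤ L ^ (max (C2 * C' * C1 * Real.exp (C' * C3)) (C' * C3)) :=
    Real.rpow_le_rpow_of_exponent_le (by linarith) (le_max_right _ _)
  calc ∑ b ∈ S, (Fc m (dt c) h (Ec c b) : ℝ) ≤ Q * ∑ b ∈ S, ∏ i, (lf m (dt c) h (p i) (E b i) : ℝ) := hsum
    _ ≤ Q * (C' * T0 * (Hc m X (dt c) * (Real.exp (C' * C3) * L ^ (C' * C3)))) := by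
        refine mul_le_mul_of_nonneg_left (hmain.trans ?_) hQ0
        exact mul_le_mul_of_nonneg_left hexp (by positivity)
    _ ≤ (C2 * ni (cn c) ^ ε) * (C' * T0 * (Hc m X (dt c) * (Real.exp (C' * C3) * L ^ (C' * C3)))) := by
        refine mul_le_mul_of_nonneg_right hQle (by positivity)
    _ = (C2 * C' * C1 * Real.exp (C' * C3)) * (y ^ (3 * d) * (ni h)⁻¹ ^ 3 * ni (cn c) ^ ε *
          Hc m X (dt c)) * L ^ (C' * C3) := by
        rw [hT0]
        ring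
    _ ≤ (max (C2 * C' * C1 * Real.exp (C' * C3)) (C' * C3)) * (y ^ (3 * d) * (ni h)⁻¹ ^ 3 * ni (cn c) ^ ε *
          Hc m X (dt c)) * L ^ (max (C2 * C' * C1 * Real.exp (C' * C3)) (C' * C3)) := by
        refine mul_le_mul (mul_le_mul_of_nonneg_right (le_max_left _ _) (by positivity)) hLp2 hLp (by positivity)
    _ = _ := by ring

end H77.PX
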