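import Pool.Agent.H88.WS.Iface

/-!
# [H77 PX] (c7): definitions (complete)

`cx x` = the triple of integers with the coordinates `x`; `psi P c` = the quadratic character of `- dt c` modulo `P`.
-/

set_option autoImplicit false

open scoped NumberField
open H88.A4 H88.WS Pool.Agent.H67.WA

noncomputable section

namespace H77.PX

variable {K : Type} [Field K] [NumberField K]

/-- the index set of the coordinates of a triple -/
abbrev Kx (K : Type) [Field K] [NumberField K] : Type :=
  Fin 3 × Module.Free.ChooseBasisIndex ℤ (𝓞 K)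

/-- the triple with the coordinates `x` -/
def cx (x : Kx K → ℤ) : T3 K :=
  (∑ i, x (0, i) • NumberField.RingOfIntegers.basis K i,
    ∑ i, x (1, i) • NumberField.RingOfIntegers.basis K i,
    ∑ i, x (2, i) • NumberField.RingOfIntegers.basis K i)

open Classical in
/-- the quadratic character of `- dt c` modulo `P` -/
def psi (P : Ideal (𝓞 K)) (c : T3 K) : ℝ :=
  if dt c ∈ P then 0 else if ∃ x : 𝓞 K, x ^ 2 + dt c ∈ P then 1 else -1

/-- the points of the cube with side `n` in coordinates -/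
def Cb (K : Type) [Field K] [NumberField K] (n : ℕ) : Finset (Kx K → ℤ) :=
  Fintype.piFinset fun _ => Finset.Ico (0 : ℤ) n

theorem abs_psi_le (P : Ideal (𝓞 K)) (c : T3 K) : |psi P c| ≤ 1 := by
  unfold psi
  split_ifs <;> simp

/-- `psi` depends only on the class modulo `P` -/
theorem psi_congr {P : Ideal (𝓞 K)} {c c' : T3 K} (h1 : c.1 - c'.1 ∈ P) (h2 : c.2.1 - c'.2.1 ∈ P)
    (h3 : c.2.2 - c'.2.2 ∈ P) : psi P c = psi P c' := by
  have h : dt c - dt c' ∈ P := by
    have e : dt c - dt c' = (c.1 - c'.1) * c.2.2 + c'.1 * (c.2.2 - c'.2.2) -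
        (c.2.1 - c'.2.1) * (c.2.1 + c'.2.1) := by
      unfold dt
      ring
    rw [e]
    exact P.sub_mem (P.add_mem (P.mul_mem_right _ h1) (P.mul_mem_left _ h3)) (P.mul_mem_right _ h2)
  have ha : dt c ∈ P ↔ dt c' ∈ P := by
    constructor
    · intro h'
      have := P.sub_mem h' h
      rwa [sub_sub_cancel] at this
    · intro h'
      have := P.add_mem h h'
      rwa [sub_add_cancel] at this
  have hb : (∃ x : 𝓞 K, x ^ 2 + dt c ∈ P) ↔ ∃ x : 𝓞 K, x ^ 2 + dt c' ∈ P := by
    constructor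
    · rintro ⟨x, hx⟩
      refine ⟨x, ?_⟩
      have := P.sub_mem hx h
      rwa [show x ^ 2 + dt c - (dt c - dt c') = x ^ 2 + dt c' by ring] at this
    · rintro ⟨x, hx⟩
      refine ⟨x, ?_⟩
      have := P.add_mem hx h
      rwa [show x ^ 2 + dt c' + (dt c - dt c') = x ^ 2 + dt c by ring] at this
  unfold psi
  by_cases h4 : dt c ∈ P
  · rw [if_pos h4, if_pos (ha.1 h4)]
  · rw [if_neg h4, if_neg (fun h' => h4 (ha.2 h'))]
    by_cases h5 : ∃ x : 𝓞 K, x ^ 2 + dt c ∈ P
    · rw [if_pos h5, if_pos (hb.1 h5)]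
    · rw [if_neg h5, if_neg (fun h' => h5 (hb.2 h'))]

end H77.PX
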