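import Mathlib

/-!
# [H77 PX CQ] Character sums of quadratic polynomials over a finite field (Mathlib only, 60-100 lines)

`q = card F`, `χ = quadraticChar F`.
`cq0`: `∑_x χ(x^2 + c) = -1` for `c ≠ 0`: the number of `(x, t)` with `t^2 = x^2 + c` is `∑_x (1 + χ(x^2 + c))`
(`quadraticChar_card_sqrts`: the number of roots of `t^2 = a` is `χ a + 1`) and also, by `(t - x)(t + x) = c`, the number of
`(y, z)` with `y z = c`, that is `q - 1` (bijection, `2 ≠ 0`).
`cq1`: `4 α (α x^2 + β x + γ) = (2 α x + β)^2 - (β^2 - 4 α γ)`; `x ↦ 2 α x + β` is a bijection; `χ (4 α) = χ α`, so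
`χ α ∑_x χ(α x^2 + β x + γ) = ∑_y χ(y^2 - d) = -1`, multiply by `χ α` (`χ α ^ 2 = 1`).
`cq2`: pairs `(x, 0)`: `∑_x χ(α x^2) = (q - 1) χ α` (also for `α = 0`). Pairs `(x, y)`, `y ≠ 0`, `x = s y`:
`χ(y^2 (α s^2 + β s + γ)) = χ(α s^2 + β s + γ)`, so `(q - 1) ∑_s χ(α s^2 + β s + γ)`, which is `-(q-1) χ α` for `α ≠ 0` (`cq1`) and `0` for
`α = 0` (`β ≠ 0`, `∑ χ = 0`: `quadraticChar_sum_zero`). Total `0`.
-/

set_option autoImplicit false

namespace H77.PX

private theorem sum_bij {F : Type} [Field F] [Fintype F] [DecidableEq F] {f : F → F}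
    (hf : Function.Injective f) (g : F → ℤ) : ∑ x : F, g (f x) = ∑ x : F, g x :=
  Function.Bijective.sum_comp (Finite.injective_iff_bijective.1 hf) g

private theorem sum_lin {F : Type} [Field F] [Fintype F] [DecidableEq F] (hF : ringChar F ≠ 2) {β : F}
    (hβ : β ≠ 0) (γ : F) : ∑ x : F, quadraticChar F (β * x + γ) = 0 := by
  rw [sum_bij (f := fun x => β * x + γ) (fun x y h => mul_left_cancel₀ hβ (add_right_cancel h))
    (fun x => quadraticChar F x)]
  exact quadraticChar_sum_zero hF

private theorem chi_sq {F : Type} [Field F] [Fintype F] [DecidableEq F] {a : F} (ha : a ≠ 0) :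
    quadraticChar F a * quadraticChar F a = 1 := by
  rw [← pow_two]
  exact quadraticChar_sq_one ha

private theorem sum_pair {F : Type} [Field F] [Fintype F] [DecidableEq F] (hF : ringChar F ≠ 2) {c : F}
    (hc : c ≠ 0) : ∑ a : F, quadraticChar F a * quadraticChar F (a + c) = -1 := by
  have h1 : ∀ a : F, quadraticChar F a * quadraticChar F (a + c) =
      quadraticChar F (1 + c * a⁻¹) - if a = 0 then 1 else 0 := by
    intro a
    by_cases ha : a = 0
    · rw [if_pos ha, ha, inv_zero, mul_zero, add_zero]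
      simp
    · rw [if_neg ha, sub_zero]
      have h2 : a + c = a * (1 + c * a⁻¹) := by
        field_simp
      rw [h2, map_mul, ← mul_assoc, chi_sq ha, one_mul]
  rw [Finset.sum_congr rfl (fun a _ => h1 a), Finset.sum_sub_distrib, Finset.sum_ite_eq' Finset.univ (0 : F),
    if_pos (Finset.mem_univ _)]
  rw [sum_bij (f := fun a => 1 + c * a⁻¹)
    (fun x y h => inv_injective (mul_left_cancel₀ hc (add_left_cancel h))) (fun x => quadraticChar F x),
    quadraticChar_sum_zero hF]
  rfl

theorem cq0 (F : Type) [Field F] [Fintype F] [DecidableEq F] (hF : ringChar F ≠ 2) (c : F) (hc : c ≠ 0) :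
    ∑ x : F, quadraticChar F (x ^ 2 + c) = -1 := by
  have h1 : ∀ a : F, ∑ x : F with x ^ 2 = a, quadraticChar F (x ^ 2 + c) =
      (quadraticChar F a + 1) * quadraticChar F (a + c) := by
    intro a
    have h2 : ∀ x ∈ Finset.univ.filter (fun x : F => x ^ 2 = a), quadraticChar F (x ^ 2 + c) =
        quadraticChar F (a + c) := by
      intro x hx
      rw [(Finset.mem_filter.1 hx).2]
    rw [Finset.sum_congr rfl h2, Finset.sum_const, nsmul_eq_mul]
    congr 1
    rw [← quadraticChar_card_sqrts hF a]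
    congr 2
    ext x
    simp
  rw [← Finset.sum_fiberwise Finset.univ (fun x : F => x ^ 2) (fun x => quadraticChar F (x ^ 2 + c)),
    Finset.sum_congr rfl (fun a _ => h1 a)]
  simp only [add_mul, one_mul]
  rw [Finset.sum_add_distrib, sum_pair hF hc, sum_bij (f := fun a => a + c) (fun x y h => add_right_cancel h)
    (fun x => quadraticChar F x), quadraticChar_sum_zero hF]
  rfl

theorem cq1 (F : Type) [Field F] [Fintype F] [DecidableEq F] (hF : ringChar F ≠ 2) (α β γ : F)
    (hα : α ≠ 0) (hd : β ^ 2 - 4 * α * γ ≠ 0) :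
    ∑ x : F, quadraticChar F (α * x ^ 2 + β * x + γ) = - quadraticChar F α := by
  have h2 : (2 : F) ≠ 0 := Ring.two_ne_zero hF
  have h4 : ∀ x : F, quadraticChar F α * quadraticChar F (α * x ^ 2 + β * x + γ) =
      quadraticChar F ((2 * α * x + β) ^ 2 + -(β ^ 2 - 4 * α * γ)) := by
    intro x
    have h5 : (2 * α * x + β) ^ 2 + -(β ^ 2 - 4 * α * γ) = (2 * 2) * (α * (α * x ^ 2 + β * x + γ)) := by ring
    rw [h5, map_mul, map_mul, map_mul, chi_sq h2, one_mul]
  have h5 : quadraticChar F α * ∑ x : F, quadraticChar F (α * x ^ 2 + β * x + γ) = -1 := by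
    rw [Finset.mul_sum, Finset.sum_congr rfl (fun x _ => h4 x)]
    rw [sum_bij (f := fun x => 2 * α * x + β)
      (fun x y h => mul_left_cancel₀ (mul_ne_zero h2 hα) (add_right_cancel h))
      (fun y => quadraticChar F (y ^ 2 + -(β ^ 2 - 4 * α * γ)))]
    exact cq0 F hF _ (neg_ne_zero.2 hd)
  calc ∑ x : F, quadraticChar F (α * x ^ 2 + β * x + γ) =
      (quadraticChar F α * quadraticChar F α) * ∑ x : F, quadraticChar F (α * x ^ 2 + β * x + γ) := by
        rw [chi_sq hα, one_mul]
    _ = quadraticChar F α * (quadraticChar F α * ∑ x : F, quadraticChar F (α * x ^ 2 + β * x + γ)) :=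
        mul_assoc _ _ _
    _ = - quadraticChar F α := by rw [h5]; ring

theorem cq2 (F : Type) [Field F] [Fintype F] [DecidableEq F] (hF : ringChar F ≠ 2) (α β γ : F)
    (hd : β ^ 2 - 4 * α * γ ≠ 0) :
    ∑ x : F × F, quadraticChar F (α * x.1 ^ 2 + β * x.1 * x.2 + γ * x.2 ^ 2) = 0 := by
  have hS : ∑ s : F, quadraticChar F (α * s ^ 2 + β * s + γ) = - quadraticChar F α := by
    by_cases hα : α = 0
    · rw [hα] at hd ⊢
      have hβ : β ≠ 0 := by
        rintro rfl
        apply hd
        ring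
      simp only [zero_mul, zero_add]
      rw [sum_lin hF hβ γ]
      simp
    · exact cq1 F hF α β γ hα hd
  have h0 : ∑ x : F, quadraticChar F (α * x ^ 2 + β * x * 0 + γ * 0 ^ 2) =
      ((Finset.univ.erase (0 : F)).card : ℤ) * quadraticChar F α := by
    rw [← Finset.add_sum_erase Finset.univ _ (Finset.mem_univ (0 : F))]
    have h1 : ∀ x ∈ Finset.univ.erase (0 : F), quadraticChar F (α * x ^ 2 + β * x * 0 + γ * 0 ^ 2) =
        quadraticChar F α := by
      intro x hx
      have hx0 := Finset.ne_of_mem_erase hx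
      have h2 : α * x ^ 2 + β * x * 0 + γ * 0 ^ 2 = α * (x * x) := by ring
      rw [h2, map_mul, map_mul, chi_sq hx0, mul_one]
    rw [Finset.sum_congr rfl h1, Finset.sum_const, nsmul_eq_mul]
    simp
  have h1 : ∀ y ∈ Finset.univ.erase (0 : F), ∑ x : F, quadraticChar F (α * x ^ 2 + β * x * y + γ * y ^ 2) =
      - quadraticChar F α := by
    intro y hy
    have hy0 := Finset.ne_of_mem_erase hy
    rw [← hS, ← sum_bij (f := fun s => s * y) (fun s t h => mul_right_cancel₀ hy0 h)
      (fun x => quadraticChar F (α * x ^ 2 + β * x * y + γ * y ^ 2))]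
    refine Finset.sum_congr rfl fun s _ => ?_
    have h2 : α * (s * y) ^ 2 + β * (s * y) * y + γ * y ^ 2 = (y * y) * (α * s ^ 2 + β * s + γ) := by ring
    rw [h2, map_mul, map_mul, chi_sq hy0, one_mul]
  rw [Fintype.sum_prod_type_right, ← Finset.add_sum_erase Finset.univ _ (Finset.mem_univ (0 : F)), h0,
    Finset.sum_congr rfl h1, Finset.sum_const, nsmul_eq_mul]
  ring

end H77.PX
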