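import Mathlib

/-!
# [H77 PX] The prefix argument with prime powers, abstract form: definitions (complete)

`ι` is a finite set of `primes` `i` with norms `q i ≥ 2`, an exponent function `f : ι → ℕ` is an `ideal`.
* `nf q f = ∏ q i ^ f i`, `mf l f = ∏ l i (f i)`, `cut q z f` = the part of `f` at the `i` with `q i ≤ z`.
* `Lf l`: `l i 0 = 1`, monotone, submultiplicative, at most `(k+1)^48`.
* `gm q σ l i`: the differences of `k ↦ l i k * q i ^ (σ k)`.
* `ep`: the Euler product `∏_{q i ≤ z} (1 + ∑_{1 ≤ j ≤ J} gm i j ρ i j)`.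
-/

set_option autoImplicit false

noncomputable section

namespace H77.PX

open Finset

variable {ι : Type} [Fintype ι]

/-- the norm of the exponent function `f` -/
def nf (q : ι → ℝ) (f : ι → ℕ) : ℝ := ∏ i, q i ^ f i

/-- the multiplicative function with the local values `l` -/
def mf (l : ι → ℕ → ℝ) (f : ι → ℕ) : ℝ := ∏ i, l i (f i)

/-- the part of `f` at the indices with `q i ≤ z` -/
def cut (q : ι → ℝ) (z : ℝ) (f : ι → ℕ) : ι → ℕ := fun i => if q i ≤ z then f i else 0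

/-- local values -/
structure Lf (l : ι → ℕ → ℝ) : Prop where
  zero : ∀ i, l i 0 = 1
  mono : ∀ i k, l i k ≤ l i (k + 1)
  sub : ∀ i j k, l i (j + k) ≤ l i j * l i k
  le : ∀ i k, l i k ≤ ((k : ℝ) + 1) ^ 48

/-- the differences of `k ↦ l i k * q i ^ (σ k)` -/
def gm (q : ι → ℝ) (σ : ℝ) (l : ι → ℕ → ℝ) (i : ι) : ℕ → ℝ
  | 0 => 1
  | k + 1 => l i (k + 1) * q i ^ (σ * ((k : ℝ) + 1)) - l i k * q i ^ (σ * (k : ℝ))

/-- the Euler product -/
def ep (q : ι → ℝ) (σ : ℝ) (l ρ : ι → ℕ → ℝ) (J : ℕ) (z : ℝ) : ℝ :=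
  ∏ i, if q i ≤ z then 1 + ∑ j ∈ Icc 1 J, gm q σ l i j * ρ i j else 1

theorem Lf.monotone {l : ι → ℕ → ℝ} (h : Lf l) (i : ι) : Monotone (l i) :=
  monotone_nat_of_le_succ (h.mono i)

theorem Lf.one_le {l : ι → ℕ → ℝ} (h : Lf l) (i : ι) (k : ℕ) : 1 ≤ l i k := by
  rw [← h.zero i]
  exact h.monotone i (Nat.zero_le k)

theorem one_le_nf {q : ι → ℝ} (hq : ∀ i, 2 ≤ q i) (f : ι → ℕ) : 1 ≤ nf q f := by
  unfold nf
  exact Finset.prod_induction _ (fun x => 1 ≤ x) (fun a b ha hb => one_le_mul_of_one_le_of_one_le ha hb) le_rfl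
    fun i _ => one_le_pow₀ (by linarith [hq i])

theorem nf_mono {q : ι → ℝ} (hq : ∀ i, 2 ≤ q i) {f g : ι → ℕ} (h : f ≤ g) : nf q f ≤ nf q g := by
  unfold nf
  refine Finset.prod_le_prod (fun i _ => pow_nonneg (by linarith [hq i]) _) fun i _ => ?_
  exact pow_le_pow_right₀ (by linarith [hq i]) (h i)

theorem nf_add (q : ι → ℝ) (f g : ι → ℕ) : nf q (f + g) = nf q f * nf q g := by
  unfold nf
  rw [← Finset.prod_mul_distrib]
  exact Finset.prod_congr rfl fun i _ => pow_add _ _ _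

theorem one_le_mf {l : ι → ℕ → ℝ} (h : Lf l) (f : ι → ℕ) : 1 ≤ mf l f := by
  unfold mf
  exact Finset.prod_induction _ (fun x => 1 ≤ x) (fun a b ha hb => one_le_mul_of_one_le_of_one_le ha hb) le_rfl
    fun i _ => h.one_le i _

theorem mf_add_le {l : ι → ℕ → ℝ} (h : Lf l) (f g : ι → ℕ) : mf l (f + g) ≤ mf l f * mf l g := by
  unfold mf
  rw [← Finset.prod_mul_distrib]
  exact Finset.prod_le_prod (fun i _ => by linarith [h.one_le i ((f + g) i)]) fun i _ => h.sub i _ _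

/-- `l i k ≤ 2 ^ (48 k)` -/
theorem Lf.le_two {l : ι → ℕ → ℝ} (h : Lf l) (i : ι) (k : ℕ) : l i k ≤ 2 ^ (48 * k) := by
  refine (h.le i k).trans ?_
  rw [mul_comm 48 k, pow_mul]
  refine pow_le_pow_left₀ (by positivity) ?_ 48
  have h1 : k + 1 ≤ 2 ^ k := Nat.lt_two_pow_self
  exact_mod_cast h1

theorem mf_le_two {l : ι → ℕ → ℝ} (h : Lf l) (f : ι → ℕ) : mf l f ≤ 2 ^ (48 * ∑ i, f i) := by
  unfold mf
  rw [Finset.mul_sum, ← Finset.prod_pow_eq_pow_sum]
  exact Finset.prod_le_prod (fun i _ => by linarith [h.one_le i (f i)]) fun i _ => h.le_two i _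

end H77.PX
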