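import Pool.Agent.H88.WS.Iface

/-!
# [H77 PX] (c6): definitions (complete)

* `Q3 I`, `q3 I b`: triples of classes modulo `I`, the class of `b`.
* `Zc c I`: the classes of the solutions of `E_c(b) ∈ I`, `zn c I` their number.
* `Pr P c`: not all entries of `c` are in `P`.
* `lF m D h J`: the product of the local numbers of classes of the ideal `J`.
-/

set_option autoImplicit false

open scoped NumberField
open H88.A4 H88.WS Pool.Agent.H67.WA

noncomputable section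

namespace H77.PX

variable {K : Type} [Field K] [NumberField K]

/-- triples of classes modulo `I` -/
abbrev Q3 (I : Ideal (𝓞 K)) : Type := (𝓞 K ⧸ I) × (𝓞 K ⧸ I) × (𝓞 K ⧸ I)

/-- the class of `b` modulo `I` -/
def q3 (I : Ideal (𝓞 K)) (b : T3 K) : Q3 I :=
  (Ideal.Quotient.mk I b.1, Ideal.Quotient.mk I b.2.1, Ideal.Quotient.mk I b.2.2)

/-- the classes of the solutions of `E_c(b) ∈ I` -/
def Zc (c : T3 K) (I : Ideal (𝓞 K)) : Set (Q3 I) := q3 I '' {b | Ec c b ∈ I}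

/-- the number of the classes of the solutions of `E_c(b) ∈ I` -/
def zn (c : T3 K) (I : Ideal (𝓞 K)) : ℕ := (Zc c I).ncard

/-- `c` is primitive at `P` -/
def Pm (P : Ideal (𝓞 K)) (c : T3 K) : Prop := ¬ (c.1 ∈ P ∧ c.2.1 ∈ P ∧ c.2.2 ∈ P)

theorem q3_eq {I : Ideal (𝓞 K)} {b b' : T3 K} :
    q3 I b = q3 I b' ↔ b.1 - b'.1 ∈ I ∧ b.2.1 - b'.2.1 ∈ I ∧ b.2.2 - b'.2.2 ∈ I := by
  simp only [q3, Prod.mk.injEq, Ideal.Quotient.eq]

theorem q3_surj (I : Ideal (𝓞 K)) : Function.Surjective (q3 I) := by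
  rintro ⟨x, y, z⟩
  obtain ⟨a, rfl⟩ := Ideal.Quotient.mk_surjective x
  obtain ⟨b, rfl⟩ := Ideal.Quotient.mk_surjective y
  obtain ⟨c, rfl⟩ := Ideal.Quotient.mk_surjective z
  exact ⟨(a, b, c), rfl⟩

theorem finQ {I : Ideal (𝓞 K)} (hI : I ≠ ⊥) : Finite (𝓞 K ⧸ I) :=
  Ideal.finiteQuotientOfFreeOfNeBot I hI

theorem finZ {I : Ideal (𝓞 K)} (hI : I ≠ ⊥) (c : T3 K) : (Zc c I).Finite := by
  have := finQ hI
  exact Set.toFinite _

theorem Ec_congr {I : Ideal (𝓞 K)} {b b' : T3 K} (h : q3 I b = q3 I b') (c : T3 K) :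
    Ec c b - Ec c b' ∈ I := by
  obtain ⟨h1, h2, h3⟩ := q3_eq.1 h
  have e : Ec c b - Ec c b' =
      (b.1 - b'.1) * (b.2.2 * dt c - c.2.2 * (mx b c + mx b' c)) +
      (b.2.2 - b'.2.2) * (b'.1 * dt c - c.1 * (mx b c + mx b' c)) +
      (b.2.1 - b'.2.1) * (2 * c.2.1 * (mx b c + mx b' c) - (b.2.1 + b'.2.1) * dt c) := by
    unfold Ec mx dt
    ring
  rw [e]
  exact I.add_mem (I.add_mem (I.mul_mem_right _ h1) (I.mul_mem_right _ h3)) (I.mul_mem_right _ h2)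

theorem mem_Zc {c : T3 K} {I : Ideal (𝓞 K)} {b : T3 K} : q3 I b ∈ Zc c I ↔ Ec c b ∈ I := by
  constructor
  · rintro ⟨b', hb', h⟩
    have h1 := Ec_congr h c
    have h2 := I.sub_mem hb' h1
    rwa [sub_sub_cancel] at h2
  · intro h
    exact ⟨b, h, rfl⟩

/-- `E` is homogeneous in `c` -/
theorem Ec_smul (a : 𝓞 K) (c b : T3 K) : Ec (a * c.1, a * c.2.1, a * c.2.2) b = a ^ 2 * Ec c b := by
  unfold Ec mx dt
  ring

/-- `E` at a sum -/
theorem Ec_add (c b t : T3 K) : Ec c (b + t) = Ec c b + Ec c t +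
    ((b.2.2 * dt c - 2 * mx b c * c.2.2) * t.1 + (4 * mx b c * c.2.1 - 2 * b.2.1 * dt c) * t.2.1 +
      (b.1 * dt c - 2 * mx b c * c.1) * t.2.2) := by
  unfold Ec mx dt
  simp only [Prod.fst_add, Prod.snd_add]
  ring

theorem zn_top (c : T3 K) : zn c (⊤ : Ideal (𝓞 K)) = 1 := by
  unfold zn
  have h : Zc c (⊤ : Ideal (𝓞 K)) = {q3 ⊤ 0} := by
    ext z
    obtain ⟨b, rfl⟩ := q3_surj ⊤ z
    simp only [mem_Zc, Submodule.mem_top, true_iff, Set.mem_singleton_iff]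
    exact q3_eq.2 ⟨Submodule.mem_top, Submodule.mem_top, Submodule.mem_top⟩
  rw [h, Set.ncard_singleton]

/-- a finite set of ideals can be enumerated with increasing norms -/
theorem enum (T : Finset (Ideal (𝓞 K))) : ∃ (n : ℕ) (p : Fin n → Ideal (𝓞 K)),
    Function.Injective p ∧ (∀ i, p i ∈ T) ∧ (∀ P ∈ T, ∃ i, p i = P) ∧ Monotone fun i => ni (p i) := by
  classical
  obtain ⟨e⟩ : Nonempty (Fin T.card ≃ T) := ⟨T.equivFin.symm⟩
  set f : Fin T.card → ℝ := fun i => ni (e i : Ideal (𝓞 K)) with hf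
  refine ⟨T.card, fun i => (e (Tuple.sort f i) : Ideal (𝓞 K)), ?_, fun i => (e _).2, ?_, ?_⟩
  · intro i j h
    have := e.injective (Subtype.ext h)
    exact (Tuple.sort f).injective this
  · intro P hP
    refine ⟨(Tuple.sort f).symm (e.symm ⟨P, hP⟩), ?_⟩
    simp
  · exact Tuple.monotone_sort f

end H77.PX
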