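import Pool.Agent.H77.PX.Def

/-!
# [H77 PX EXC] The exceptional functions and the divisor bound (Mathlib only, two independent theorems, 70-120 lines)

`exc`: let `b` be in the filtered set and `I = {i | q i ≤ Z1}`, `#I ≤ n0`. If `q i ^ f b i ≤ M ^ (1/n0)` for all `i ∈ I` then
`nf q (cut q Z1 (f b)) = ∏_{i ∈ I} q i ^ f b i ≤ M ^ (#I/n0) ≤ M` (`M ≥ 1`), a contradiction. So there is `i ∈ I` with
`q i ^ f b i > M ^ (1/n0)`. Let `j i` be the least `j` with `q i ^ j > M ^ (1/n0)` (`Nat.find`; `j i ≥ 1`), `e = Pi.single i (j i)`: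
`e ≤ f b`, `nf q e = q i ^ (j i) ≤ M ^ (1/n0) * Z1 ≤ M ^ (1/2) * M ^ (1/2) = M` (`n0 ≥ 2`, `Z1 ^ 2 ≤ M`). By `hc` the number of such `b`
for one `i` is `≤ W * ρ i (j i) ≤ W * 2 * q i ^ (-(j i)/2) = 2 W (q i ^ (j i)) ^ (-1/2) ≤ 2 W M ^ (-1/(2 n0))` (`mf ρ e = ρ i (j i)`, `ρ i 0 = 1`).
Sum over the `≤ n0` values of `i` (`Finset.card_biUnion_le`).

`dvb` (divisor bound): `η > 0`; `t0 = exp (48/η)`; for `q i ≥ t0`: `(k+1)^48 ≤ exp (48 k) ≤ q i ^ (η k)` (`k + 1 ≤ exp k`); for all `i`: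
`(k+1)^48 ≤ D * 2 ^ (η k) ≤ D * q i ^ (η k)` with a constant `D ≥ 1` depending on `η` (the function `(k+1)^48 / 2^(η k)` tends to `0`, so it
is bounded; or `x^48/48! ≤ exp x` with `x = (η log 2)(k+1)`). So `mf l f ≤ D ^ (n t0) * nf q f ^ η`.
-/

set_option autoImplicit false

noncomputable section

namespace H77.PX

open Finset

open Classical in
theorem exc {ι β : Type} [Fintype ι] (S : Finset β) (f : β → ι → ℕ) (q : ι → ℝ)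
    (hq : ∀ i, 2 ≤ q i) (ρ : ι → ℕ → ℝ) (hρ0 : ∀ i, ρ i 0 = 1)
    (hρ : ∀ i k, ρ i k ≤ 2 * q i ^ (-(k : ℝ) / 2)) (W M Z1 : ℝ) (n0 : ℕ) (hW : 0 ≤ W)
    (hn : 2 ≤ n0) (hZ : 1 ≤ Z1) (hM : Z1 ^ 2 ≤ M)
    (hI : (univ.filter fun i => q i ≤ Z1).card ≤ n0)
    (hc : ∀ e : ι → ℕ, nf q e ≤ M → ((S.filter fun b => e ≤ f b).card : ℝ) ≤ W * mf ρ e) :
    ((S.filter fun b => M < nf q (cut q Z1 (f b))).card : ℝ) ≤
      n0 * (2 * W * M ^ (-(1 / (2 * (n0 : ℝ))))) := by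
  sorry

open Classical in
theorem dvb (η : ℝ) (hη : 0 < η) (n : ℝ → ℕ) : ∃ C : ℝ, 1 ≤ C ∧ ∀ (ι : Type) [Fintype ι]
    (q : ι → ℝ) (l : ι → ℕ → ℝ), (∀ i, 2 ≤ q i) → Lf l →
    (∀ t, (univ.filter fun i => q i ≤ t).card ≤ n t) → ∀ f : ι → ℕ, mf l f ≤ C * nf q f ^ η := by
  sorry

end H77.PX
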