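import Pool.Agent.H77.PX.Den
import Pool.Agent.H51.AV.Gf

/-!
# [H77 PX FCL] The norm as a product; divisor bound (50-80 lines)

`prod_od`: `∏_{P ∈ pf I} ni P ^ od P I = ni I` for `I ≠ ⊥`: `normalizedFactors I` has product `I` (`Ideal.prod_normalizedFactors_eq_self`),
`map_multiset_prod` with `Ideal.absNorm`, `Finset.prod_multiset_map_count` (`od` is the count, `pf` the `toFinset`).
`dvb2`: `enum` for `T = pf I` (primes: `UniqueFactorizationMonoid.prime_of_normalized_factor`, `Ideal.isPrime_of_prime`), `hyp`, and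
`H51.AV.tg_le B (ε/2) 48` with `Z = univ`, `e i = 2 od (p i) I`: `tg = ∏ (e i + 1)^48`, `nn = ∏ ni (p i)^(2 od) = (ni I)^2` (`prod_od`).
-/

set_option autoImplicit false

open scoped NumberField
open H88.A4 H88.WS Pool.Agent.H67.WA

noncomputable section

namespace H77.PX

theorem prod_od {K : Type} [Field K] [NumberField K] {I : Ideal (𝓞 K)} (hI : I ≠ ⊥) :
    ∏ P ∈ pf I, ni P ^ od P I = ni I := by
  classical
  have h1 : (UniqueFactorizationMonoid.normalizedFactors I).prod = I := Ideal.prod_normalizedFactors_eq_self hI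
  have h2 : ((UniqueFactorizationMonoid.normalizedFactors I).map fun P => ni P).prod = ni I := by
    have h3 : ni I = ni (UniqueFactorizationMonoid.normalizedFactors I).prod := by rw [h1]
    rw [h3]
    unfold ni
    rw [map_multiset_prod, Nat.cast_multiset_prod, Multiset.map_map]
    rfl
  rw [← h2, Finset.prod_multiset_map_count]
  rfl

private theorem pf_prime {K : Type} [Field K] [NumberField K] {I : Ideal (𝓞 K)} {P : Ideal (𝓞 K)}
    (hP : P ∈ pf I) : P.IsPrime ∧ P ≠ ⊥ := by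
  classical
  have h : P ∈ UniqueFactorizationMonoid.normalizedFactors I := by
    unfold pf at hP
    exact Multiset.mem_toFinset.1 hP
  have h1 := UniqueFactorizationMonoid.prime_of_normalized_factor P h
  exact ⟨Ideal.isPrime_of_prime h1, h1.ne_zero⟩

private theorem prod_enum {α : Type} [DecidableEq α] {n : ℕ} {T : Finset α} {p : Fin n → α}
    (hp : Function.Injective p) (h1 : ∀ i, p i ∈ T) (h2 : ∀ P ∈ T, ∃ i, p i = P) (g : α → ℝ) :
    ∏ P ∈ T, g P = ∏ i, g (p i) := by
  have h : T = Finset.univ.image p := by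
    ext P
    simp only [Finset.mem_image, Finset.mem_univ, true_and]
    exact ⟨fun h => h2 P h, fun ⟨i, hi⟩ => hi ▸ h1 i⟩
  rw [h, Finset.prod_image fun i _ j _ hij => hp hij]

theorem dvb2 (K : Type) [Field K] [NumberField K] (ε : ℝ) (hε : 0 < ε) : ∃ C : ℝ, 0 < C ∧
    ∀ I : Ideal (𝓞 K), I ≠ ⊥ → ∏ P ∈ pf I, ((2 * od P I + 1 : ℕ) : ℝ) ^ 48 ≤ C * ni I ^ ε := by
  classical
  obtain ⟨B, -, hB⟩ := hyp K
  obtain ⟨C, hC, h⟩ := H51.AV.tg_le B (ε / 2) 48 (by positivity)
  refine ⟨C, by linarith, fun I hI => ?_⟩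
  obtain ⟨n, p, hp, hpT, hTp, hmono⟩ := enum (pf I)
  have hH := hB B le_rfl n p hp (fun i => pf_prime (hpT i)) hmono
  have h1 := h (Fin n) (fun i => ni (p i)) hH Finset.univ ∅ fun i => 2 * od (p i) I
  have h2 : ∏ P ∈ pf I, ((2 * od P I + 1 : ℕ) : ℝ) ^ 48
      = H51.AV.tg Finset.univ ∅ 48 fun i => 2 * od (p i) I := by
    rw [prod_enum hp hpT hTp fun P => ((2 * od P I + 1 : ℕ) : ℝ) ^ 48]
    unfold H51.AV.tg H51.AV.fl
    refine Finset.prod_congr rfl fun i _ => ?_
    rw [if_pos (Finset.mem_univ i)]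
    push_cast
    rfl
  have h3 : H51.AV.nn (fun i => ni (p i)) (fun i => 2 * od (p i) I) = ni I ^ 2 := by
    unfold H51.AV.nn
    rw [← prod_od hI, prod_enum hp hpT hTp fun P => ni P ^ od P I, ← Finset.prod_pow]
    refine Finset.prod_congr rfl fun i _ => ?_
    rw [← pow_mul, mul_comm]
  have h4 : 0 ≤ ni I := by unfold ni; exact Nat.cast_nonneg _
  rw [h2]
  refine h1.trans (le_of_eq ?_)
  rw [h3, ← Real.rpow_natCast, ← Real.rpow_mul h4]
  congr 2
  push_cast
  ring

end H77.PX
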