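import Pool.Agent.H77.PX.Rk

/-!
# [H77 PX LEV] One level of the prefix argument (Mathlib only, 60-110 lines)

Choose `a b` for `b ∈ S`. `mf l (f b) ≤ mf l (a b) * mf l (f b - a b) ≤ mf l (a b) * 2 ^ (48 n)` (`mf_add_le`, `mf_le_two`), and
`1 ≤ (nf q (a b) / M0) ^ σ`, so `mf l (f b) ≤ 2 ^ (48 n) * M0 ^ (-σ) * (mf l (a b) * nf q (a b) ^ σ)`, and by `mf_sum` the last factor is
the sum over `e ≤ a b` of `mf (gm q σ l) e ≥ 0` (`gm_nonneg`). All these `e` satisfy: `e ≤ f b`, `e i = 0` if `q i > z`,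
`nf q e ≤ nf q (a b) ≤ M` (`nf_mono`), `e i ≤ J` (`2 ^ (e i) ≤ nf q e ≤ M ≤ 2 ^ J`). So with
`E = piFinset (fun i => if q i ≤ z then range (J+1) else {0})` filtered by `nf q e ≤ M`
`∑_b mf l (f b) ≤ 2 ^ (48 n) M0 ^ (-σ) ∑_{e ∈ E} mf (gm q σ l) e * #{b ∈ S : e ≤ f b} ≤ .. W ∑_{e ∈ E} mf (gm) e * mf ρ e`; drop the
filter (`ρ ≥ 0`) and use `Finset.prod_univ_sum` backwards: `∏ i ∑_{j ∈ ..} gm i j * ρ i j`, the factor is
`1 + ∑_{j ∈ Icc 1 J}` (`gm i 0 = 1`, `ρ i 0 = 1`, `Finset.sum_range_succ'` or `range_eq_Ico`) if `q i ≤ z` and `1` otherwise.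
-/

set_option autoImplicit false

noncomputable section

namespace H77.PX

open Finset

variable {ι : Type} [Fintype ι]

open Classical in
theorem level {β : Type} (S : Finset β) (f : β → ι → ℕ) (q : ι → ℝ) (hq : ∀ i, 2 ≤ q i)
    (l ρ : ι → ℕ → ℝ) (hl : Lf l) (hρ0 : ∀ i, ρ i 0 = 1) (hρ : ∀ i k, 0 ≤ ρ i k)
    (W M M0 z σ : ℝ) (J n : ℕ) (hW : 0 ≤ W) (hM0 : 1 ≤ M0) (hσ : 0 ≤ σ) (hJ : M ≤ 2 ^ J)
    (hc : ∀ e : ι → ℕ, nf q e ≤ M → ((S.filter fun b => e ≤ f b).card : ℝ) ≤ W * mf ρ e)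
    (h : ∀ b ∈ S, ∃ a : ι → ℕ, a ≤ f b ∧ (∀ i, a i ≠ 0 → q i ≤ z) ∧ nf q a ≤ M ∧ M0 ≤ nf q a ∧
      ∑ i, (f b i - a i) ≤ n) :
    ∑ b ∈ S, mf l (f b) ≤ 2 ^ (48 * n) * M0 ^ (-σ) * (W * ep q σ l ρ J z) := by
  have hG : ∀ e, 0 ≤ mf (gm q σ l) e := fun e => by
    unfold mf
    exact Finset.prod_nonneg fun i _ => gm_nonneg hq hl hσ i _
  have hR : ∀ e, 0 ≤ mf ρ e := fun e => by
    unfold mf
    exact Finset.prod_nonneg fun i _ => hρ i _
  obtain ⟨P, hP⟩ : ∃ P, P = Fintype.piFinset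
      (fun i : ι => if q i ≤ z then range (J + 1) else ({0} : Finset ℕ)) := ⟨_, rfl⟩
  have hM0' : (0 : ℝ) < M0 := by linarith
  have h1 : ∀ b ∈ S, mf l (f b) ≤ 2 ^ (48 * n) * M0 ^ (-σ) *
      ∑ e ∈ P.filter (fun e => nf q e ≤ M), if e ≤ f b then mf (gm q σ l) e else 0 := by
    intro b hb
    obtain ⟨a, ha, haz, haM, haM0, hn⟩ := h b hb
    have h2 : a + (f b - a) = f b := add_tsub_cancel_of_le ha
    have h3 : mf l (f b) ≤ mf l a * 2 ^ (48 * n) := by
      calc mf l (f b) = mf l (a + (f b - a)) := by rw [h2]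
        _ ≤ mf l a * mf l (f b - a) := mf_add_le hl _ _
        _ ≤ mf l a * 2 ^ (48 * n) := by
          refine mul_le_mul_of_nonneg_left ((mf_le_two hl _).trans ?_) (by linarith [one_le_mf hl a])
          exact pow_le_pow_right₀ (by norm_num) (Nat.mul_le_mul_left _ hn)
    have h4 : 1 ≤ M0 ^ (-σ) * nf q a ^ σ := by
      rw [Real.rpow_neg hM0'.le, ← div_eq_inv_mul, one_le_div (Real.rpow_pos_of_pos hM0' σ)]
      exact Real.rpow_le_rpow hM0'.le haM0 hσ
    have h5 : mf l a * nf q a ^ σ ≤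
        ∑ e ∈ P.filter (fun e => nf q e ≤ M), if e ≤ f b then mf (gm q σ l) e else 0 := by
      rw [mf_sum hq hl, ← Finset.sum_filter]
      refine Finset.sum_le_sum_of_subset_of_nonneg ?_ fun e _ _ => hG e
      intro e he
      rw [Fintype.mem_piFinset] at he
      have hea' : ∀ i, e i ≤ a i := fun i => Nat.lt_succ_iff.1 (Finset.mem_range.1 (he i))
      have hea : e ≤ a := hea'
      have heM : nf q e ≤ M := (nf_mono hq hea).trans haM
      rw [Finset.mem_filter, Finset.mem_filter, hP, Fintype.mem_piFinset]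
      refine ⟨⟨fun i => ?_, heM⟩, hea.trans ha⟩
      split_ifs with hi
      · rw [Finset.mem_range]
        have h6 : q i ^ e i ≤ nf q e := by
          unfold nf
          rw [← Finset.mul_prod_erase _ _ (Finset.mem_univ i)]
          refine le_mul_of_one_le_right (pow_nonneg (by linarith [hq i]) _) ?_
          exact Finset.prod_induction _ (fun x => 1 ≤ x)
            (fun a b ha hb => one_le_mul_of_one_le_of_one_le ha hb) le_rfl
            fun i _ => one_le_pow₀ (by linarith [hq i])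
        have h7 : (2 : ℝ) ^ e i ≤ 2 ^ J :=
          ((pow_le_pow_left₀ (by norm_num) (hq i) _).trans h6).trans (heM.trans hJ)
        have h8 : e i ≤ J := (pow_le_pow_iff_right₀ (by norm_num)).1 h7
        omega
      · rw [Finset.mem_singleton]
        by_contra h0
        refine hi (haz i fun h => h0 ?_)
        have := hea' i
        omega
    have h6 : 0 ≤ mf l a := by linarith [one_le_mf hl a]
    calc mf l (f b) ≤ mf l a * 2 ^ (48 * n) := h3
      _ ≤ mf l a * 2 ^ (48 * n) * (M0 ^ (-σ) * nf q a ^ σ) :=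
        le_mul_of_one_le_right (by positivity) h4
      _ = 2 ^ (48 * n) * M0 ^ (-σ) * (mf l a * nf q a ^ σ) := by ring
      _ ≤ _ := mul_le_mul_of_nonneg_left h5 (by positivity)
  have h2 : ∑ b ∈ S, ∑ e ∈ P.filter (fun e => nf q e ≤ M),
      (if e ≤ f b then mf (gm q σ l) e else 0) ≤ W * ep q σ l ρ J z := by
    rw [Finset.sum_comm]
    have h3 : ∀ e ∈ P.filter (fun e => nf q e ≤ M),
        ∑ b ∈ S, (if e ≤ f b then mf (gm q σ l) e else 0) ≤ W * (mf (gm q σ l) e * mf ρ e) := by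
      intro e he
      rw [← Finset.sum_filter, Finset.sum_const, nsmul_eq_mul]
      have h4 := mul_le_mul_of_nonneg_right (hc e (Finset.mem_filter.1 he).2) (hG e)
      refine h4.trans (le_of_eq ?_)
      ring
    refine (Finset.sum_le_sum h3).trans ?_
    rw [← Finset.mul_sum]
    refine mul_le_mul_of_nonneg_left ?_ hW
    refine (Finset.sum_le_sum_of_subset_of_nonneg (Finset.filter_subset _ P)
      fun e _ _ => mul_nonneg (hG e) (hR e)).trans (le_of_eq ?_)
    have h4 : ∀ e, mf (gm q σ l) e * mf ρ e = ∏ i, (fun (i : ι) (j : ℕ) => gm q σ l i j * ρ i j) i (e i) := by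
      intro e
      unfold mf
      rw [← Finset.prod_mul_distrib]
    rw [Finset.sum_congr rfl fun e _ => h4 e, hP,
      ← Finset.prod_univ_sum (fun i : ι => if q i ≤ z then range (J + 1) else ({0} : Finset ℕ))
        (fun (i : ι) (j : ℕ) => gm q σ l i j * ρ i j)]
    unfold ep
    refine Finset.prod_congr rfl fun i _ => ?_
    split_ifs with hi
    · rw [Finset.sum_range_succ', add_comm]
      have h5 : gm q σ l i 0 * ρ i 0 = 1 := by
        rw [hρ0]
        show (1 : ℝ) * 1 = 1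
        norm_num
      rw [h5]
      congr 1
      rw [Finset.sum_bij (fun (j : ℕ) _ => j + 1)]
      · intro j hj
        rw [Finset.mem_range] at hj
        rw [Finset.mem_Icc]
        omega
      · intro j _ k _ hjk
        omega
      · intro j hj
        rw [Finset.mem_Icc] at hj
        refine ⟨j - 1, ?_, ?_⟩
        · rw [Finset.mem_range]
          omega
        · omega
      · intro j _
        rfl
    · rw [Finset.sum_singleton]
      show gm q σ l i 0 * ρ i 0 = 1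
      rw [hρ0]
      show (1 : ℝ) * 1 = 1
      norm_num
  calc ∑ b ∈ S, mf l (f b) ≤ ∑ b ∈ S, 2 ^ (48 * n) * M0 ^ (-σ) *
        ∑ e ∈ P.filter (fun e => nf q e ≤ M), (if e ≤ f b then mf (gm q σ l) e else 0) :=
        Finset.sum_le_sum h1
    _ = 2 ^ (48 * n) * M0 ^ (-σ) * ∑ b ∈ S, ∑ e ∈ P.filter (fun e => nf q e ≤ M),
        (if e ≤ f b then mf (gm q σ l) e else 0) := by rw [Finset.mul_sum]
    _ ≤ _ := mul_le_mul_of_nonneg_left h2 (by positivity)

end H77.PX
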