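import Pool.Agent.H77.PX.Sum
import Pool.Agent.H77.PX.Exc

/-!
# [H77 PX MAIN] The prefix argument: final abstract theorem (Mathlib only, 60-100 lines)

`levels` gives `C₂, A`. `Z1 = exp (16 A) ≥ 2`, so `A / log z ≤ 1/16` for `z ≥ Z1`. `n0 = max 2 (n (Z1 ^ 2))`, `η = δ / (2 n0 C1)`,
`dvb` gives `C₃`. `X0 = Z1 ^ (max 1 (4/δ))`, so for `X ≥ X0`: `X ≥ Z1`, `(Z1 ^ 2) ^ 2 ≤ X ^ δ`.
* `X < X0`: `mf l (f b) ≤ C₃ nf ^ η ≤ C₃ X0 ^ (C1 η)` and `#S ≤ W * mf ρ 0 = W` (`hc` with `e = 0`, `nf q 0 = 1 ≤ X ^ δ`).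
* `X ≥ X0`: `K1 = ⌊log X / log Z1⌋ ≥ 1`; `X ^ (1/K1) ≥ Z1` (`K1 ≤ log X / log Z1`) and `X ^ (1/K1) ≤ Z1 ^ 2`
  (`K1 ≥ (log X / log Z1)/2`, because `⌊x⌋ ≥ x/2` for `x ≥ 1`). The functions with `nf q (cut ..) ≤ X ^ δ`: `levels` (`hB` applies as
  `z ≥ X ^ (1/K1) ≥ Z1`). The others: `X ^ δ < nf q (cut q (X ^ (1/K1)) (f b)) ≤ nf q (cut q (Z1 ^ 2) (f b))` (`nf_mono`), `exc` with
  `Z1 ^ 2` in place of `Z1` bounds their number by `2 n0 W X ^ (-δ/(2 n0))`, `mf l (f b) ≤ C₃ X ^ (C1 η) = C₃ X ^ (δ / (2 n0))`.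
-/

set_option autoImplicit false

noncomputable section

namespace H77.PX

open Finset

private theorem cut_le {ι : Type} (q : ι → ℝ) {z z' : ℝ} (h : z ≤ z') (f : ι → ℕ) :
    cut q z f ≤ cut q z' f := by
  intro i
  unfold cut
  by_cases h1 : q i ≤ z
  · rw [if_pos h1, if_pos (h1.trans h)]
  · rw [if_neg h1]
    exact Nat.zero_le _

private theorem pfx_sum {β : Type} (S : Finset β) (g : β → ℝ) (D w : ℝ) (hD : 0 ≤ D)
    (hg : ∀ b ∈ S, g b ≤ D) (hS : (S.card : ℝ) ≤ w) : ∑ b ∈ S, g b ≤ w * D := by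
  calc ∑ b ∈ S, g b ≤ ∑ _b ∈ S, D := Finset.sum_le_sum hg
    _ = S.card * D := by rw [Finset.sum_const, nsmul_eq_mul]
    _ ≤ w * D := mul_le_mul_of_nonneg_right hS hD

/-- the number of levels -/
private theorem pfx_K (X Z : ℝ) (hZ : 1 < Z) (hX : Z ≤ X) : ∃ K1 : ℕ, 1 ≤ K1 ∧
    Z ≤ X ^ (1 / (K1 : ℝ)) ∧ X ^ (1 / (K1 : ℝ)) ≤ Z ^ 2 := by
  have hZ0 : 0 < Z := by linarith
  have hX0 : 0 < X := by linarith
  have hlZ : 0 < Real.log Z := Real.log_pos hZ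
  have hlX : Real.log Z ≤ Real.log X := Real.log_le_log hZ0 hX
  have h1 : 1 ≤ Real.log X / Real.log Z := by rwa [one_le_div hlZ]
  have hK : 1 ≤ ⌊Real.log X / Real.log Z⌋₊ := by
    rw [Nat.one_le_floor_iff]
    exact h1
  have hKr : (1 : ℝ) ≤ (⌊Real.log X / Real.log Z⌋₊ : ℝ) := by exact_mod_cast hK
  have hK1 : ((⌊Real.log X / Real.log Z⌋₊ : ℕ) : ℝ) ≤ Real.log X / Real.log Z :=
    Nat.floor_le (by linarith)
  have hK2 : Real.log X / Real.log Z < (⌊Real.log X / Real.log Z⌋₊ : ℝ) + 1 :=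
    Nat.lt_floor_add_one _
  refine ⟨⌊Real.log X / Real.log Z⌋₊, hK, ?_, ?_⟩
  · generalize (⌊Real.log X / Real.log Z⌋₊ : ℝ) = K at *
    rw [← Real.log_le_log_iff hZ0 (Real.rpow_pos_of_pos hX0 _), Real.log_rpow hX0]
    rw [le_div_iff₀ hlZ] at hK1
    rw [one_div, ← div_eq_inv_mul, le_div_iff₀ (by linarith)]
    linarith
  · generalize (⌊Real.log X / Real.log Z⌋₊ : ℝ) = K at *
    rw [← Real.log_le_log_iff (Real.rpow_pos_of_pos hX0 _) (by positivity), Real.log_rpow hX0,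
      Real.log_pow]
    rw [div_lt_iff₀ hlZ] at hK2
    rw [one_div, ← div_eq_inv_mul, div_le_iff₀ (by linarith)]
    push_cast
    nlinarith

open Classical in
theorem pfx (δ C1 : ℝ) (hδ : 0 < δ) (hC1 : 1 ≤ C1) (n : ℝ → ℕ) : ∃ C A Z1 : ℝ, 0 < C ∧ 1 ≤ A ∧ 2 ≤ Z1 ∧
    16 * A ≤ Real.log Z1 ∧
    ∀ (ι β : Type) [Fintype ι] (S : Finset β) (f : β → ι → ℕ) (q : ι → ℝ) (l ρ : ι → ℕ → ℝ)
      (W X B : ℝ) (J : ℕ), (∀ i, 2 ≤ q i) → (∀ t, (univ.filter fun i => q i ≤ t).card ≤ n t) →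
      Lf l → (∀ i, ρ i 0 = 1) → (∀ i k, 0 ≤ ρ i k) → (∀ i k, ρ i k ≤ 2 * q i ^ (-(k : ℝ) / 2)) →
      0 ≤ W → 0 ≤ B → 3 ≤ X → X ^ δ ≤ 2 ^ J → (∀ b ∈ S, nf q (f b) ≤ X ^ C1) →
      (∀ e : ι → ℕ, nf q e ≤ X ^ δ → ((S.filter fun b => e ≤ f b).card : ℝ) ≤ W * mf ρ e) →
      (∀ z : ℝ, Z1 ≤ z → z ≤ X → ep q (A / Real.log z) l ρ J z ≤ B) →
      ∑ b ∈ S, mf l (f b) ≤ C * (W * (B + 1)) := by
  obtain ⟨C2, A, hC2, hA, hlev⟩ := levels δ C1 hδ hC1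
  have hZ17 : 17 ≤ Real.exp (16 * A) := by
    have h1 := Real.add_one_le_exp (16 * A)
    linarith
  have hlZ : Real.log (Real.exp (16 * A)) = 16 * A := Real.log_exp _
  generalize Real.exp (16 * A) = Z1 at hZ17 hlZ
  set n0 : ℕ := max 2 (n (Z1 ^ 2)) with hn0
  have hn2 : 2 ≤ n0 := le_max_left _ _
  have hn2r : (2 : ℝ) ≤ n0 := by exact_mod_cast hn2
  have hnn : n (Z1 ^ 2) ≤ n0 := le_max_right _ _
  set η : ℝ := δ / (2 * n0 * C1) with hη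
  have hη0 : 0 < η := by positivity
  have hCη : C1 * η = δ * (1 / (2 * (n0 : ℝ))) := by
    rw [hη]
    field_simp
  obtain ⟨C3, hC3, hdv⟩ := dvb η hη0 n
  set X0 : ℝ := Z1 ^ (max 1 (4 / δ)) with hX0
  have hX0p : 0 < X0 := Real.rpow_pos_of_pos (by linarith) _
  refine ⟨C3 * X0 ^ (C1 * η) + C2 + C3 * (2 * n0), A, Z1, by positivity, hA, by linarith,
    hlZ.ge, ?_⟩
  intro ι β _ S f q l ρ W X B J hq hn hl hρ0 hρ hρ2 hW hB hX hJ hf hc hep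
  have hX1 : 1 ≤ X := by linarith
  have hWB : W ≤ W * (B + 1) := by nlinarith
  have hWB0 : 0 ≤ W * (B + 1) := by positivity
  -- the divisor bound
  have hdvb : ∀ b ∈ S, mf l (f b) ≤ C3 * X ^ (C1 * η) := by
    intro b hb
    refine (hdv ι q l hq hl hn (f b)).trans ?_
    rw [Real.rpow_mul (by linarith)]
    refine mul_le_mul_of_nonneg_left ?_ (by linarith)
    exact Real.rpow_le_rpow (by linarith [one_le_nf hq (f b)]) (hf b hb) hη0.le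
  by_cases hXX : X < X0
  · -- small X
    have hcard : (S.card : ℝ) ≤ W := by
      have h1 := hc 0 (by
        have h2 : nf q (0 : ι → ℕ) = 1 := by
          unfold nf
          exact Finset.prod_eq_one fun i _ => by simp
        rw [h2]
        exact Real.one_le_rpow hX1 hδ.le)
      have h2 : mf ρ (0 : ι → ℕ) = 1 := by
        unfold mf
        exact Finset.prod_eq_one fun i _ => hρ0 i
      have h3 : (S.filter fun b => (0 : ι → ℕ) ≤ f b) = S :=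
        Finset.filter_true_of_mem fun b _ i => Nat.zero_le _
      rw [h2, h3, mul_one] at h1
      exact h1
    have h4 : X ^ (C1 * η) ≤ X0 ^ (C1 * η) :=
      Real.rpow_le_rpow (by linarith) hXX.le (by positivity)
    have h5 := pfx_sum S (fun b => mf l (f b)) (C3 * X0 ^ (C1 * η)) W (by positivity)
      (fun b hb => (hdvb b hb).trans (mul_le_mul_of_nonneg_left h4 (by linarith))) hcard
    refine h5.trans ?_
    have h6 : 0 ≤ C3 * X0 ^ (C1 * η) := by positivity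
    calc W * (C3 * X0 ^ (C1 * η)) ≤ W * (B + 1) * (C3 * X0 ^ (C1 * η)) :=
          mul_le_mul_of_nonneg_right hWB h6
      _ = C3 * X0 ^ (C1 * η) * (W * (B + 1)) := by ring
      _ ≤ _ := by
          refine mul_le_mul_of_nonneg_right ?_ hWB0
          have : 0 ≤ C3 * (2 * (n0 : ℝ)) := by positivity
          linarith
  · push Not at hXX
    have hZX : Z1 ≤ X := by
      refine le_trans ?_ hXX
      calc Z1 = Z1 ^ (1 : ℝ) := (Real.rpow_one _).symm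
        _ ≤ X0 := Real.rpow_le_rpow_of_exponent_le (by linarith) (le_max_left _ _)
    have hZX4 : (Z1 ^ 2) ^ 2 ≤ X ^ δ := by
      have h1 : X0 ^ δ ≤ X ^ δ := Real.rpow_le_rpow hX0p.le hXX hδ.le
      refine le_trans ?_ h1
      rw [hX0, ← Real.rpow_mul (by linarith), ← pow_mul]
      have h2 : (4 : ℝ) ≤ max 1 (4 / δ) * δ := by
        have h3 : 4 / δ ≤ max 1 (4 / δ) := le_max_right _ _
        calc (4 : ℝ) = 4 / δ * δ := by field_simp
          _ ≤ _ := mul_le_mul_of_nonneg_right h3 hδ.le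
      calc Z1 ^ (2 * 2) = Z1 ^ ((4 : ℕ) : ℝ) := by rw [Real.rpow_natCast]
        _ ≤ _ := Real.rpow_le_rpow_of_exponent_le (by linarith) (by exact_mod_cast h2)
    obtain ⟨K1, hK1, hKa, hKb⟩ := pfx_K X Z1 (by linarith) hZX
    have hgood := hlev ι β S f q l ρ W X B J K1 hq hl hρ0 hρ hW hB hX hK1 hJ hf hc
      (fun z hz1 hz2 => hep z (hKa.trans hz1) hz2)
    have hexc := exc S f q hq ρ hρ0 hρ2 W (X ^ δ) (Z1 ^ 2) n0 hW hn2
      (one_le_pow₀ (by linarith)) hZX4 ((hn _).trans hnn) hc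
    have hsub : (S.filter fun b => ¬ nf q (cut q (X ^ (1 / (K1 : ℝ))) (f b)) ≤ X ^ δ) ⊆
        S.filter fun b => X ^ δ < nf q (cut q (Z1 ^ 2) (f b)) := by
      intro b hb
      rw [Finset.mem_filter] at hb ⊢
      refine ⟨hb.1, (not_le.1 hb.2).trans_le ?_⟩
      exact nf_mono hq (cut_le q hKb (f b))
    have hcard : (((S.filter fun b => ¬ nf q (cut q (X ^ (1 / (K1 : ℝ))) (f b)) ≤ X ^ δ).card :
        ℕ) : ℝ) ≤ n0 * (2 * W * (X ^ δ) ^ (-(1 / (2 * (n0 : ℝ))))) := by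
      refine le_trans ?_ hexc
      exact_mod_cast Finset.card_le_card hsub
    have hbad := pfx_sum (S.filter fun b => ¬ nf q (cut q (X ^ (1 / (K1 : ℝ))) (f b)) ≤ X ^ δ)
      (fun b => mf l (f b)) (C3 * X ^ (C1 * η)) _ (by positivity)
      (fun b hb => hdvb b (Finset.mem_filter.1 hb).1) hcard
    have hone : (X ^ δ) ^ (-(1 / (2 * (n0 : ℝ)))) * X ^ (C1 * η) = 1 := by
      rw [hCη, ← Real.rpow_mul (by linarith), ← Real.rpow_add (by linarith)]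
      rw [show δ * -(1 / (2 * (n0 : ℝ))) + δ * (1 / (2 * (n0 : ℝ))) = 0 by ring, Real.rpow_zero]
    have hbad2 : (n0 : ℝ) * (2 * W * (X ^ δ) ^ (-(1 / (2 * (n0 : ℝ))))) * (C3 * X ^ (C1 * η)) =
        C3 * (2 * n0) * W := by
      calc (n0 : ℝ) * (2 * W * (X ^ δ) ^ (-(1 / (2 * (n0 : ℝ))))) * (C3 * X ^ (C1 * η)) =
          C3 * (2 * n0) * W * ((X ^ δ) ^ (-(1 / (2 * (n0 : ℝ)))) * X ^ (C1 * η)) := by ring
        _ = _ := by rw [hone, mul_one]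
    rw [hbad2] at hbad
    rw [← Finset.sum_filter_add_sum_filter_not S
      (fun b => nf q (cut q (X ^ (1 / (K1 : ℝ))) (f b)) ≤ X ^ δ)]
    have h7 : 0 ≤ C3 * X0 ^ (C1 * η) := by positivity
    have h8 : C3 * (2 * (n0 : ℝ)) * W ≤ C3 * (2 * n0) * (W * (B + 1)) :=
      mul_le_mul_of_nonneg_left hWB (by positivity)
    have h9 : C2 * (W * B) ≤ C2 * (W * (B + 1)) :=
      mul_le_mul_of_nonneg_left (by nlinarith) hC2.le
    have h10 : 0 ≤ C3 * X0 ^ (C1 * η) * (W * (B + 1)) := mul_nonneg h7 hWB0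
    calc _ ≤ C2 * (W * B) + C3 * (2 * n0) * W := add_le_add hgood hbad
      _ ≤ (C3 * X0 ^ (C1 * η) + C2 + C3 * (2 * n0)) * (W * (B + 1)) := by
          rw [add_mul, add_mul]
          linarith

end H77.PX
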