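import Pool.Agent.H77.PX.Mer

/-!
# [H77 PX MER2] Sums over prime ideals, II (70-100 lines)

`mer3`: `z < 2`: the sum is empty. `z ≥ 2`: with `L_j = {P : 2^(2^j) ≤ ni P < 2^(2^(j+1))}`, `j = 0, 1, .., J`, `2^(2^J) ≤ z`:
`∑_{P ∈ L_j} 1/ni P ≤ (1 / (2^j log 2)) ∑_{ni P ≤ 2^(2^(j+1))} log (ni P) / ni P ≤ B (1 + 2^(j+1) log 2) / (2^j log 2) ≤ 4 B` (`mer2`), number of
`j`: `J + 1 ≤ 1 + log(log z / log 2)/log 2 ≤ 4 (1 + log (1 + log z))`.
`mer4`: `r` = number of the primes in `T`; `2^r ≤ ∏_{P ∈ T} ni P ≤ nz x ≤ Y` (the product of distinct primes dividing `(x)` divides `(x)`: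
`Finset.prod_primes_dvd`; `nz_ni`), `r ≤ log Y / log 2`. The primes with `ni P > log Y` contribute at most `r / log Y ≤ 1 / log 2 ≤ 2`; the
others by `mer3` with `z = log Y ≥ 1` (`Y ≥ 3 > e`: `Real.exp_one_lt_d9`).
-/

set_option autoImplicit false

open scoped NumberField
open H88.A4 H88.WS Pool.Agent.H67.WA

noncomputable section

namespace H77.PX

private theorem mer_j {N : ℕ} (hN : 2 ≤ N) :
    (2 : ℝ) ^ Nat.log 2 (Nat.log 2 N) * Real.log 2 ≤ Real.log N ∧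
      (N : ℝ) ≤ (2 : ℝ) ^ (2 ^ (Nat.log 2 (Nat.log 2 N) + 1)) := by
  have hl2 : 0 < Real.log 2 := Real.log_pos (by norm_num)
  have hk : Nat.log 2 N ≠ 0 := by
    rw [Ne, Nat.log_eq_zero_iff]
    omega
  have h1 : 2 ^ Nat.log 2 N ≤ N := Nat.pow_log_le_self 2 (by omega)
  have h2 : N < 2 ^ (Nat.log 2 N + 1) := Nat.lt_pow_succ_log_self (by norm_num) _
  have h3 : 2 ^ Nat.log 2 (Nat.log 2 N) ≤ Nat.log 2 N := Nat.pow_log_le_self 2 hk
  have h4 : Nat.log 2 N < 2 ^ (Nat.log 2 (Nat.log 2 N) + 1) := Nat.lt_pow_succ_log_self (by norm_num) _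
  constructor
  · have h5 : ((2 : ℝ) ^ Nat.log 2 N) ≤ N := by exact_mod_cast h1
    have h6 : Real.log ((2 : ℝ) ^ Nat.log 2 N) ≤ Real.log N := Real.log_le_log (by positivity) h5
    rw [Real.log_pow] at h6
    have h7 : (2 : ℝ) ^ Nat.log 2 (Nat.log 2 N) ≤ (Nat.log 2 N : ℝ) := by exact_mod_cast h3
    exact (mul_le_mul_of_nonneg_right h7 hl2.le).trans h6
  · have h5 : N ≤ 2 ^ (2 ^ (Nat.log 2 (Nat.log 2 N) + 1)) :=
      h2.le.trans (Nat.pow_le_pow_right (by norm_num) h4)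
    exact_mod_cast h5

theorem mer3 (K : Type) [Field K] [NumberField K] : ∃ B : ℝ, 1 ≤ B ∧ ∀ T : Finset (Ideal (𝓞 K)), ∀ z : ℝ, 1 ≤ z →
    (∀ P ∈ T, P.IsPrime ∧ P ≠ ⊥ ∧ ni P ≤ z) →
      ∑ P ∈ T, (ni P)⁻¹ ≤ B * (1 + Real.log (1 + Real.log z)) := by
  classical
  obtain ⟨B, hB, hm⟩ := mer2 K
  refine ⟨8 * B, by linarith, fun T z hz hT => ?_⟩
  have hl2 : (1 / 2 : ℝ) < Real.log 2 := lt_trans (by norm_num) Real.log_two_gt_d9
  have hlz : 0 ≤ Real.log z := Real.log_nonneg hz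
  have hL : 0 ≤ Real.log (1 + Real.log z) := Real.log_nonneg (by linarith)
  set g : Ideal (𝓞 K) → ℕ := fun P => Nat.log 2 (Nat.log 2 (Ideal.absNorm P)) with hg
  set R : ℝ := 1 + 2 * Real.log (1 + Real.log z) with hR
  have hN2 : ∀ P ∈ T, 2 ≤ Ideal.absNorm P := by
    intro P hP
    have := two_le_ni (hT P hP).1 (hT P hP).2.1
    unfold ni at this
    exact_mod_cast this
  have hmap : ∀ P ∈ T, g P ∈ Finset.range (⌊R⌋₊ + 1) := by
    intro P hP
    rw [Finset.mem_range]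
    refine Nat.lt_succ_of_le (Nat.le_floor ?_)
    have h1 := (mer_j (hN2 P hP)).1
    have h2 : Real.log (Ideal.absNorm P : ℝ) ≤ Real.log z := by
      refine Real.log_le_log ?_ (hT P hP).2.2
      have := hN2 P hP
      positivity
    have h3 : (2 : ℝ) ^ g P ≤ 2 * (1 + Real.log z) := by
      have h4 : (2 : ℝ) ^ g P * (1 / 2) ≤ (2 : ℝ) ^ g P * Real.log 2 :=
        mul_le_mul_of_nonneg_left hl2.le (by positivity)
      have h5 : (2 : ℝ) ^ g P * Real.log 2 ≤ Real.log z := h1.trans h2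
      linarith
    have h4 : Real.log ((2 : ℝ) ^ g P) ≤ Real.log (2 * (1 + Real.log z)) :=
      Real.log_le_log (by positivity) h3
    rw [Real.log_pow, Real.log_mul (by norm_num) (by positivity)] at h4
    have h5 : ((g P : ℝ) - 1) * Real.log 2 ≤ Real.log (1 + Real.log z) := by linarith
    by_cases h6 : (g P : ℝ) ≤ 1
    · rw [hR]; linarith
    · have h7 : ((g P : ℝ) - 1) * (1 / 2) ≤ ((g P : ℝ) - 1) * Real.log 2 :=
        mul_le_mul_of_nonneg_left hl2.le (by linarith [not_le.1 h6])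
      rw [hR]; linarith
  rw [← Finset.sum_fiberwise_of_maps_to hmap]
  have hblock : ∀ j ∈ Finset.range (⌊R⌋₊ + 1), ∑ P ∈ T with g P = j, (ni P)⁻¹ ≤ 4 * B := by
    intro j _
    have hj0 : (1 : ℝ) ≤ (2 : ℝ) ^ j := one_le_pow₀ (by norm_num)
    have hjl : 0 < (2 : ℝ) ^ j * Real.log 2 := by positivity
    have h1 : ∀ P ∈ T.filter (fun P => g P = j), (ni P)⁻¹ ≤
        ((2 : ℝ) ^ j * Real.log 2)⁻¹ * (Real.log (ni P) / ni P) := by
      intro P hP
      obtain ⟨hP1, hP2⟩ := Finset.mem_filter.1 hP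
      have h2 := (mer_j (hN2 P hP1)).1
      have h3 : (2 : ℝ) ^ j * Real.log 2 ≤ Real.log (ni P) := by
        rw [← hP2]
        exact h2
      have h4 : 0 < ni P := by
        have := two_le_ni (hT P hP1).1 (hT P hP1).2.1
        linarith
      rw [div_eq_mul_inv, ← mul_assoc]
      refine le_mul_of_one_le_left (by positivity) ?_
      rw [inv_mul_eq_div, one_le_div hjl]
      exact h3
    have h2 : ∑ P ∈ T with g P = j, Real.log (ni P) / ni P ≤
        B * (1 + (2 : ℝ) ^ (j + 1) * Real.log 2) := by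
      have h3 := hm (T.filter fun P => g P = j)
        (fun P hP => ⟨(hT P (Finset.mem_filter.1 hP).1).1, (hT P (Finset.mem_filter.1 hP).1).2.1⟩)
        ((2 : ℝ) ^ (2 ^ (j + 1))) (one_le_pow₀ (by norm_num))
      rw [Real.log_pow] at h3
      have h4 : (T.filter fun P => g P = j).filter (fun P => ni P ≤ (2 : ℝ) ^ (2 ^ (j + 1))) =
          T.filter fun P => g P = j := by
        refine Finset.filter_true_of_mem fun P hP => ?_
        obtain ⟨hP1, hP2⟩ := Finset.mem_filter.1 hP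
        have h5 := (mer_j (hN2 P hP1)).2
        have h6 : Nat.log 2 (Nat.log 2 (Ideal.absNorm P)) = j := hP2
        rw [h6] at h5
        exact h5
      rw [h4] at h3
      refine h3.trans_eq ?_
      push_cast
      ring
    calc ∑ P ∈ T with g P = j, (ni P)⁻¹
        ≤ ∑ P ∈ T with g P = j, ((2 : ℝ) ^ j * Real.log 2)⁻¹ * (Real.log (ni P) / ni P) :=
          Finset.sum_le_sum h1
      _ = ((2 : ℝ) ^ j * Real.log 2)⁻¹ * ∑ P ∈ T with g P = j, Real.log (ni P) / ni P := by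
          rw [Finset.mul_sum]
      _ ≤ ((2 : ℝ) ^ j * Real.log 2)⁻¹ * (B * (1 + (2 : ℝ) ^ (j + 1) * Real.log 2)) :=
          mul_le_mul_of_nonneg_left h2 (by positivity)
      _ ≤ 4 * B := by
          rw [inv_mul_le_iff₀ hjl]
          have h3 : 1 ≤ 2 * ((2 : ℝ) ^ j * Real.log 2) := by nlinarith
          have h4 : (2 : ℝ) ^ (j + 1) = 2 * (2 : ℝ) ^ j := by ring
          rw [h4]
          have h5 : 1 + 2 * (2 : ℝ) ^ j * Real.log 2 ≤ 4 * ((2 : ℝ) ^ j * Real.log 2) := by linarith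
          calc B * (1 + 2 * (2 : ℝ) ^ j * Real.log 2) ≤ B * (4 * ((2 : ℝ) ^ j * Real.log 2)) :=
                mul_le_mul_of_nonneg_left h5 (by linarith)
            _ = _ := by ring
  refine (Finset.sum_le_sum hblock).trans ?_
  rw [Finset.sum_const, Finset.card_range, nsmul_eq_mul]
  push_cast
  have hR0 : 0 ≤ R := by rw [hR]; linarith
  have h1 : ((⌊R⌋₊ : ℕ) : ℝ) ≤ R := Nat.floor_le hR0
  calc (((⌊R⌋₊ : ℕ) : ℝ) + 1) * (4 * B) ≤ (R + 1) * (4 * B) :=
        mul_le_mul_of_nonneg_right (by linarith) (by linarith)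
    _ = 8 * B * (1 + Real.log (1 + Real.log z)) := by rw [hR]; ring

theorem mer4 (K : Type) [Field K] [NumberField K] : ∃ B : ℝ, 1 ≤ B ∧ ∀ T : Finset (Ideal (𝓞 K)), ∀ (Y : ℝ)
    (x : 𝓞 K), 3 ≤ Y → x ≠ 0 → nz x ≤ Y → (∀ P ∈ T, P.IsPrime ∧ P ≠ ⊥ ∧ x ∈ P) →
      ∑ P ∈ T, (ni P)⁻¹ ≤ B * (1 + Real.log (1 + Real.log (Real.log Y))) := by
  classical
  obtain ⟨B, hB, hm⟩ := mer3 K
  refine ⟨B + 2, by linarith, fun T Y x hY hx hxY hT => ?_⟩
  have hl2 : (1 / 2 : ℝ) < Real.log 2 := lt_trans (by norm_num) Real.log_two_gt_d9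
  have hlY : 1 ≤ Real.log Y := by
    rw [Real.le_log_iff_exp_le (by linarith)]
    linarith [Real.exp_one_lt_d9]
  have hlz : 0 ≤ Real.log (Real.log Y) := Real.log_nonneg hlY
  have hL : 0 ≤ Real.log (1 + Real.log (Real.log Y)) := Real.log_nonneg (by linarith)
  have hcard : (T.card : ℝ) ≤ 2 * Real.log Y := by
    have h1 : ∏ P ∈ T, P ∣ Ideal.span {x} := by
      refine Finset.prod_primes_dvd _ (fun P hP => ?_) fun P hP => ?_
      · exact Ideal.prime_of_isPrime (hT P hP).2.1 (hT P hP).1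
      · rw [Ideal.dvd_span_singleton]
        exact (hT P hP).2.2
    have h0 : Ideal.absNorm (Ideal.span {x}) ≠ 0 := by
      rw [Ne, Ideal.absNorm_eq_zero_iff, Ideal.span_singleton_eq_bot]
      exact hx
    have h2 : Ideal.absNorm (∏ P ∈ T, P) ≤ Ideal.absNorm (Ideal.span {x}) :=
      Nat.le_of_dvd (Nat.pos_of_ne_zero h0) (map_dvd Ideal.absNorm h1)
    rw [map_prod] at h2
    have h3 : 2 ^ T.card ≤ ∏ P ∈ T, Ideal.absNorm P := by
      rw [← Finset.prod_const]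
      refine Finset.prod_le_prod' fun P hP => ?_
      have := two_le_ni (hT P hP).1 (hT P hP).2.1
      unfold ni at this
      exact_mod_cast this
    have h4 : ((2 : ℝ) ^ T.card) ≤ Y := by
      have h5 : ((2 ^ T.card : ℕ) : ℝ) ≤ (Ideal.absNorm (Ideal.span {x}) : ℝ) := by
        exact_mod_cast h3.trans h2
      rw [nz_ni] at hxY
      push_cast at h5
      exact h5.trans hxY
    have h5 : Real.log ((2 : ℝ) ^ T.card) ≤ Real.log Y := Real.log_le_log (by positivity) h4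
    rw [Real.log_pow] at h5
    have h6 : (T.card : ℝ) * (1 / 2) ≤ (T.card : ℝ) * Real.log 2 :=
      mul_le_mul_of_nonneg_left hl2.le (by positivity)
    linarith
  rw [← Finset.sum_filter_add_sum_filter_not T (fun P => ni P ≤ Real.log Y)]
  have h1 : ∑ P ∈ T with ni P ≤ Real.log Y, (ni P)⁻¹ ≤
      B * (1 + Real.log (1 + Real.log (Real.log Y))) := by
    refine hm _ _ hlY fun P hP => ?_
    obtain ⟨hP1, hP2⟩ := Finset.mem_filter.1 hP
    exact ⟨(hT P hP1).1, (hT P hP1).2.1, hP2⟩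
  have h2 : ∑ P ∈ T with ¬ ni P ≤ Real.log Y, (ni P)⁻¹ ≤ 2 := by
    calc ∑ P ∈ T with ¬ ni P ≤ Real.log Y, (ni P)⁻¹
        ≤ ∑ P ∈ T with ¬ ni P ≤ Real.log Y, (Real.log Y)⁻¹ := by
          refine Finset.sum_le_sum fun P hP => ?_
          have := (Finset.mem_filter.1 hP).2
          exact inv_anti₀ (by linarith) (not_le.1 this).le
      _ = ((T.filter fun P => ¬ ni P ≤ Real.log Y).card : ℝ) * (Real.log Y)⁻¹ := by
          rw [Finset.sum_const, nsmul_eq_mul]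
      _ ≤ (T.card : ℝ) * (Real.log Y)⁻¹ := by
          refine mul_le_mul_of_nonneg_right ?_ (by positivity)
          exact_mod_cast Finset.card_filter_le _ _
      _ ≤ 2 * Real.log Y * (Real.log Y)⁻¹ := mul_le_mul_of_nonneg_right hcard (by positivity)
      _ = 2 := by field_simp
  calc _ ≤ B * (1 + Real.log (1 + Real.log (Real.log Y))) + 2 := add_le_add h1 h2
    _ ≤ (B + 2) * (1 + Real.log (1 + Real.log (Real.log Y))) := by nlinarith

end H77.PX
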