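import Mathlib

/-!
# [H77 PX PER] Periodic functions on a cube (Mathlib only, 80-130 lines)

`r = card κ`, `k = n / N` (integer part), `n' = k N ≤ n`, `n - n' < N`.
(1) `|∑_{[0,n)^κ} g - ∑_{[0,n')^κ} g| ≤ n^r - n'^r ≤ r n^(r-1) (n - n') ≤ r n^(r-1) N` (the small cube is a subset of the large one;
    number of points `n^r`, `n'^r`: `Fintype.card_piFinset_const`; `n^r - n'^r ≤ r n^(r-1) (n - n')`: induction on `r`).
(2) `∑_{[0,n')^κ} g = k^r ∑_{[0,N)^κ} g`: the map `(a, b) ↦ (N a_i + b_i)_i` is a bijection `[0,k)^κ × [0,N)^κ → [0,kN)^κ`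
    (inverse: `x ↦ (x_i / N, x_i % N)`) and `g (N a + b) = g b`.
(3) `|k^r - (n/N)^r| |∑_{[0,N)^κ} g| ≤ ((n/N)^r - k^r) N^r = n^r - n'^r ≤ r n^(r-1) N`.
(`r = 0`: both sums are `g` of the only function, difference `0`.)
-/

set_option autoImplicit false

namespace H77.PX

private theorem per_pw {a b : ℝ} (ha : 0 ≤ a) (hab : a ≤ b) (r : ℕ) :
    b ^ r - a ^ r ≤ r * b ^ (r - 1) * (b - a) := by
  induction r with
  | zero => simp
  | succ r ih =>
    have hb : 0 ≤ b := ha.trans hab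
    have h1 : (r : ℝ) * b ^ (r - 1) * b = r * b ^ r := by
      rcases r with _ | r
      · simp
      · rw [Nat.add_sub_cancel, mul_assoc, ← pow_succ]
    have h2 : a ^ r ≤ b ^ r := pow_le_pow_left₀ ha hab r
    have h3 : 0 ≤ b - a := by linarith
    have h4 := mul_le_mul_of_nonneg_left ih hb
    have h5 := mul_le_mul_of_nonneg_right h2 h3
    rw [Nat.add_sub_cancel]
    push_cast
    have h6 : b * (r * b ^ (r - 1) * (b - a)) = r * b ^ r * (b - a) := by
      rw [← h1]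
      ring
    rw [h6] at h4
    have h7 : b ^ (r + 1) - a ^ (r + 1) = b * (b ^ r - a ^ r) + a ^ r * (b - a) := by ring
    rw [h7]
    linarith

private theorem per_card (κ : Type) [Fintype κ] [DecidableEq κ] (n : ℕ) :
    (Fintype.piFinset (fun _ : κ => Finset.Ico (0 : ℤ) n)).card = n ^ Fintype.card κ := by
  rw [Fintype.card_piFinset, Finset.prod_const, Finset.card_univ, Int.card_Ico, sub_zero,
    Int.toNat_natCast]

private theorem per_mul (κ : Type) [Fintype κ] [DecidableEq κ] (N k : ℕ) (hN : 0 < N)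
    (g : (κ → ℤ) → ℝ) (hp : ∀ x y : κ → ℤ, (∀ i, (N : ℤ) ∣ x i - y i) → g x = g y) :
    ∑ x ∈ Fintype.piFinset (fun _ : κ => Finset.Ico (0 : ℤ) ((N * k : ℕ) : ℤ)), g x =
      (k : ℝ) ^ Fintype.card κ *
        ∑ x ∈ Fintype.piFinset (fun _ : κ => Finset.Ico (0 : ℤ) N), g x := by
  have hN' : (0 : ℤ) < N := by exact_mod_cast hN
  have h1 : ∑ p ∈ Fintype.piFinset (fun _ : κ => Finset.Ico (0 : ℤ) k) ×ˢ
      Fintype.piFinset (fun _ : κ => Finset.Ico (0 : ℤ) N), g (fun i => N * p.1 i + p.2 i) =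
      ∑ x ∈ Fintype.piFinset (fun _ : κ => Finset.Ico (0 : ℤ) ((N * k : ℕ) : ℤ)), g x := by
    refine Finset.sum_bij' (fun p _ => fun i => (N : ℤ) * p.1 i + p.2 i)
      (fun x _ => (fun i => x i / N, fun i => x i % N)) ?_ ?_ ?_ ?_ ?_
    · intro p hp1
      rw [Finset.mem_product, Fintype.mem_piFinset, Fintype.mem_piFinset] at hp1
      rw [Fintype.mem_piFinset]
      intro i
      have h2 := Finset.mem_Ico.1 (hp1.1 i)
      have h3 := Finset.mem_Ico.1 (hp1.2 i)
      rw [Finset.mem_Ico]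
      push_cast
      constructor
      · have := mul_nonneg hN'.le h2.1
        linarith
      · have h4 : p.1 i + 1 ≤ k := h2.2
        nlinarith
    · intro x hx
      rw [Fintype.mem_piFinset] at hx
      rw [Finset.mem_product, Fintype.mem_piFinset, Fintype.mem_piFinset]
      constructor
      · intro i
        have h2 := Finset.mem_Ico.1 (hx i)
        rw [Finset.mem_Ico]
        refine ⟨Int.ediv_nonneg h2.1 hN'.le, ?_⟩
        refine Int.ediv_lt_of_lt_mul hN' ?_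
        have h3 := h2.2
        push_cast at h3
        linarith
      · intro i
        rw [Finset.mem_Ico]
        exact ⟨Int.emod_nonneg _ hN'.ne', Int.emod_lt_of_pos _ hN'⟩
    · intro p hp1
      rw [Finset.mem_product, Fintype.mem_piFinset, Fintype.mem_piFinset] at hp1
      refine Prod.ext ?_ ?_
      · funext i
        have h3 := Finset.mem_Ico.1 (hp1.2 i)
        change ((N : ℤ) * p.1 i + p.2 i) / N = p.1 i
        rw [Int.mul_add_ediv_left _ _ hN'.ne', Int.ediv_eq_zero_of_lt h3.1 h3.2, add_zero]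
      · funext i
        have h3 := Finset.mem_Ico.1 (hp1.2 i)
        change ((N : ℤ) * p.1 i + p.2 i) % N = p.2 i
        rw [Int.mul_add_emod_self_left, Int.emod_eq_of_lt h3.1 h3.2]
    · intro x _
      funext i
      exact Int.mul_ediv_add_emod (x i) N
    · intro p _
      rfl
  rw [← h1, Finset.sum_product]
  have h2 : ∀ a ∈ Fintype.piFinset (fun _ : κ => Finset.Ico (0 : ℤ) k),
      ∑ b ∈ Fintype.piFinset (fun _ : κ => Finset.Ico (0 : ℤ) N), g (fun i => N * a i + b i) =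
      ∑ b ∈ Fintype.piFinset (fun _ : κ => Finset.Ico (0 : ℤ) N), g b := by
    intro a _
    refine Finset.sum_congr rfl fun b _ => hp _ _ fun i => ⟨a i, ?_⟩
    ring
  rw [Finset.sum_congr rfl h2, Finset.sum_const, per_card, nsmul_eq_mul]
  push_cast
  rfl

theorem per (κ : Type) [Fintype κ] [DecidableEq κ] (N n : ℕ) (hN : 0 < N) (hn : N ≤ n)
    (g : (κ → ℤ) → ℝ) (hg : ∀ x, |g x| ≤ 1)
    (hp : ∀ x y : κ → ℤ, (∀ i, (N : ℤ) ∣ x i - y i) → g x = g y) :
    |∑ x ∈ Fintype.piFinset (fun _ : κ => Finset.Ico (0 : ℤ) n), g x -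
      ((n : ℝ) / N) ^ Fintype.card κ *
        ∑ x ∈ Fintype.piFinset (fun _ : κ => Finset.Ico (0 : ℤ) N), g x| ≤
      2 * Fintype.card κ * N * (n : ℝ) ^ (Fintype.card κ - 1) := by
  set r : ℕ := Fintype.card κ with hr
  set k : ℕ := n / N with hk
  have hkn : N * k ≤ n := Nat.mul_div_le n N
  have hkn2 : n < N * k + N := by
    have := Nat.lt_mul_div_succ n hN
    rw [← hk, mul_add, mul_one] at this
    exact this
  have hNR : (0 : ℝ) < N := by exact_mod_cast hN
  set A := ∑ x ∈ Fintype.piFinset (fun _ : κ => Finset.Ico (0 : ℤ) n), g x with hA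
  set A' := ∑ x ∈ Fintype.piFinset (fun _ : κ => Finset.Ico (0 : ℤ) ((N * k : ℕ) : ℤ)), g x with hA'
  set B := ∑ x ∈ Fintype.piFinset (fun _ : κ => Finset.Ico (0 : ℤ) N), g x with hB
  have hAB : A' = (k : ℝ) ^ r * B := per_mul κ N k hN g hp
  have hBb : |B| ≤ (N : ℝ) ^ r := by
    refine (Finset.abs_sum_le_sum_abs _ _).trans ?_
    refine (Finset.sum_le_sum fun x _ => hg x).trans (le_of_eq ?_)
    rw [Finset.sum_const, per_card, nsmul_eq_mul, mul_one]
    push_cast
    rfl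
  have hsub : Fintype.piFinset (fun _ : κ => Finset.Ico (0 : ℤ) ((N * k : ℕ) : ℤ)) ⊆
      Fintype.piFinset (fun _ : κ => Finset.Ico (0 : ℤ) n) := by
    refine Fintype.piFinset_subset _ _ fun i => Finset.Ico_subset_Ico le_rfl ?_
    exact_mod_cast hkn
  have hdiff : |A - A'| ≤ (n : ℝ) ^ r - ((N * k : ℕ) : ℝ) ^ r := by
    have h1 : A - A' = ∑ x ∈ Fintype.piFinset (fun _ : κ => Finset.Ico (0 : ℤ) n) \
        Fintype.piFinset (fun _ : κ => Finset.Ico (0 : ℤ) ((N * k : ℕ) : ℤ)), g x := by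
      rw [hA, hA', ← Finset.sum_sdiff hsub]
      ring
    rw [h1]
    refine (Finset.abs_sum_le_sum_abs _ _).trans ?_
    refine (Finset.sum_le_sum fun x _ => hg x).trans (le_of_eq ?_)
    rw [Finset.sum_const, nsmul_eq_mul, mul_one, Finset.card_sdiff_of_subset hsub, per_card, per_card,
      Nat.cast_sub (Nat.pow_le_pow_left hkn _)]
    push_cast
    rfl
  have hkR : (k : ℝ) ≤ n / N := by
    rw [le_div_iff₀ hNR]
    have : ((N * k : ℕ) : ℝ) ≤ n := by exact_mod_cast hkn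
    push_cast at this
    linarith
  have hk0 : (0 : ℝ) ≤ k := Nat.cast_nonneg _
  have hdiff2 : |A' - ((n : ℝ) / N) ^ r * B| ≤ (n : ℝ) ^ r - ((N * k : ℕ) : ℝ) ^ r := by
    rw [hAB, ← sub_mul, abs_mul, abs_sub_comm, abs_of_nonneg (sub_nonneg.2 (pow_le_pow_left₀ hk0 hkR r))]
    refine (mul_le_mul_of_nonneg_left hBb (sub_nonneg.2 (pow_le_pow_left₀ hk0 hkR r))).trans
      (le_of_eq ?_)
    rw [sub_mul, ← mul_pow, ← mul_pow, div_mul_cancel₀ _ hNR.ne']
    push_cast
    rw [mul_comm (k : ℝ)]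
  have hpw : (n : ℝ) ^ r - ((N * k : ℕ) : ℝ) ^ r ≤ r * (n : ℝ) ^ (r - 1) * N := by
    have h1 : ((N * k : ℕ) : ℝ) ≤ n := by exact_mod_cast hkn
    have h2 := per_pw (Nat.cast_nonneg (N * k)) h1 r
    refine h2.trans (mul_le_mul_of_nonneg_left ?_ (by positivity))
    have h3 : (n : ℝ) ≤ ((N * k : ℕ) : ℝ) + N := by exact_mod_cast hkn2.le
    linarith
  calc |A - ((n : ℝ) / N) ^ r * B| = |(A - A') + (A' - ((n : ℝ) / N) ^ r * B)| := by
        congr 1
        ring
    _ ≤ |A - A'| + |A' - ((n : ℝ) / N) ^ r * B| := abs_add_le _ _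
    _ ≤ _ := by
        have e : 2 * (r : ℝ) * N * (n : ℝ) ^ (r - 1) = 2 * (r * (n : ℝ) ^ (r - 1) * N) := by ring
        rw [e]
        linarith

end H77.PX
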