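import Pool.Agent.H77.PX.Pav
import Pool.Agent.H77.PX.Per

/-!
# [H77 PX PAIR] (c7): the sum over a cube (40-60 lines)

`g x = psi P (c0 + cx x) * psi P' (c0 + cx x)` is periodic modulo `N N'` (`psi_congr`: `N N' ∈ P ∩ P'`, `Ideal.absNorm_mem`),
`|g| ≤ 1` (`abs_psi_le`); `per` with `N N' ≤ n` and `pav`:
`∑_{Cb n} g ≤ (n / (N N'))^r (N N')^r (N-1)(N'-1)/(N^2 N'^2) + 2 r N N' n^(r-1) ≤ n^r / (N N') + 2 r N N' n^r / n`, `r = card (Kx K)`
(`r ≥ 1`; `N, N' ≥ 1`; `Cb K n` is `Fintype.piFinset ..` by definition).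
-/

set_option autoImplicit false

open scoped NumberField
open H88.A4 H88.WS Pool.Agent.H67.WA

noncomputable section

namespace H77.PX

private theorem sum_mem {K : Type} [Field K] [NumberField K] (P : Ideal (𝓞 K)) (M : ℕ) (hM : (M : 𝓞 K) ∈ P)
    (x y : Kx K → ℤ) (h : ∀ i, (M : ℤ) ∣ x i - y i) (j : Fin 3) :
    ∑ i, x (j, i) • NumberField.RingOfIntegers.basis K i -
      ∑ i, y (j, i) • NumberField.RingOfIntegers.basis K i ∈ P := by
  rw [← Finset.sum_sub_distrib]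
  refine P.sum_mem fun i _ => ?_
  rw [← sub_smul]
  obtain ⟨t, ht⟩ := h (j, i)
  rw [ht, mul_smul, natCast_zsmul, nsmul_eq_mul]
  exact P.mul_mem_right _ hM

private theorem psi_per {K : Type} [Field K] [NumberField K] (P : Ideal (𝓞 K)) (M : ℕ) (hM : (M : 𝓞 K) ∈ P)
    (c0 : T3 K) (x y : Kx K → ℤ) (h : ∀ i, (M : ℤ) ∣ x i - y i) :
    psi P (c0 + cx x) = psi P (c0 + cx y) := by
  refine psi_congr ?_ ?_ ?_
  · have e : (c0 + cx x).1 - (c0 + cx y).1 = (cx x).1 - (cx y).1 := by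
      rw [Prod.fst_add, Prod.fst_add]
      ring
    rw [e]
    exact sum_mem P M hM x y h 0
  · have e : (c0 + cx x).2.1 - (c0 + cx y).2.1 = (cx x).2.1 - (cx y).2.1 := by
      rw [Prod.snd_add, Prod.snd_add, Prod.fst_add, Prod.fst_add]
      ring
    rw [e]
    exact sum_mem P M hM x y h 1
  · have e : (c0 + cx x).2.2 - (c0 + cx y).2.2 = (cx x).2.2 - (cx y).2.2 := by
      rw [Prod.snd_add, Prod.snd_add, Prod.snd_add, Prod.snd_add]
      ring
    rw [e]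
    exact sum_mem P M hM x y h 2

private theorem frac {a : ℝ} (ha : 1 ≤ a) : 0 ≤ (a - 1) / a ^ 2 ∧ (a - 1) / a ^ 2 ≤ a⁻¹ := by
  have h0 : 0 < a := by linarith
  refine ⟨div_nonneg (by linarith) (by positivity), ?_⟩
  rw [div_le_iff₀ (by positivity), pow_two, ← mul_assoc, inv_mul_cancel₀ h0.ne', one_mul]
  linarith

private theorem one_le_ni {K : Type} [Field K] [NumberField K] (P : Ideal (𝓞 K)) (hP0 : P ≠ ⊥) : 1 ≤ ni P := by
  have h1 : Ideal.absNorm P ≠ 0 := by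
    rw [Ne, Ideal.absNorm_eq_zero_iff]
    exact hP0
  unfold ni
  exact_mod_cast Nat.one_le_iff_ne_zero.2 h1

theorem pair {K : Type} [Field K] [NumberField K] (P P' : Ideal (𝓞 K)) (hP : P.IsPrime)
    (hP' : P'.IsPrime) (hP0 : P ≠ ⊥) (hP0' : P' ≠ ⊥) (h2 : (2 : 𝓞 K) ∉ P) (h2' : (2 : 𝓞 K) ∉ P')
    (hne : P ≠ P') (n : ℕ) (hn : Ideal.absNorm P * Ideal.absNorm P' ≤ n) (c0 : T3 K) :
    ∑ x ∈ Cb K n, psi P (c0 + cx x) * psi P' (c0 + cx x) ≤
      (n : ℝ) ^ Fintype.card (Kx K) *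
        ((ni P * ni P')⁻¹ + 2 * Fintype.card (Kx K) * (ni P * ni P') / n) := by
  have hN := one_le_ni P hP0
  have hN' := one_le_ni P' hP0'
  obtain ⟨M, hMd⟩ : ∃ M, M = Ideal.absNorm P * Ideal.absNorm P' := ⟨_, rfl⟩
  have hMr : (M : ℝ) = ni P * ni P' := by
    rw [hMd, Nat.cast_mul]
    rfl
  have hM1 : (1 : ℝ) ≤ M := by
    rw [hMr]
    exact one_le_mul_of_one_le_of_one_le hN hN'
  have hM0 : 0 < M := by
    have : (0 : ℝ) < M := by linarith
    exact_mod_cast this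
  have hMP : (M : 𝓞 K) ∈ P := by
    rw [hMd, Nat.cast_mul]
    exact P.mul_mem_right _ (Ideal.absNorm_mem P)
  have hMP' : (M : 𝓞 K) ∈ P' := by
    rw [hMd, Nat.cast_mul]
    exact P'.mul_mem_left _ (Ideal.absNorm_mem P')
  have hn' : M ≤ n := by rw [hMd]; exact hn
  have hn0 : (0 : ℝ) < n := by
    have : (M : ℝ) ≤ n := by exact_mod_cast hn'
    linarith
  have h1 := per (Kx K) M n hM0 hn' (fun x => psi P (c0 + cx x) * psi P' (c0 + cx x))
    (fun x => by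
      rw [abs_mul]
      exact mul_le_one₀ (abs_psi_le P _) (abs_nonneg _) (abs_psi_le P' _))
    (fun x y h => by
      rw [psi_per P M hMP c0 x y h, psi_per P' M hMP' c0 x y h])
  have h3 := pav P P' hP hP' hP0 hP0' h2 h2' hne c0
  rw [← hMd] at h3
  have h4 : ∑ x ∈ Fintype.piFinset (fun _ : Kx K => Finset.Ico (0 : ℤ) M),
      psi P (c0 + cx x) * psi P' (c0 + cx x) = (ni P * ni P') ^ Fintype.card (Kx K) *
        ((ni P - 1) / ni P ^ 2 * ((ni P' - 1) / ni P' ^ 2)) := h3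
  have h5 := (abs_le.1 h1).2
  rw [h4, ← hMr, ← mul_assoc, ← mul_pow, div_mul_cancel₀ _ (by linarith : (M : ℝ) ≠ 0)] at h5
  have h6 : ∑ x ∈ Cb K n, psi P (c0 + cx x) * psi P' (c0 + cx x) ≤
      (n : ℝ) ^ Fintype.card (Kx K) * ((ni P - 1) / ni P ^ 2 * ((ni P' - 1) / ni P' ^ 2)) +
        2 * Fintype.card (Kx K) * M * (n : ℝ) ^ (Fintype.card (Kx K) - 1) := by
    have h7 : ∑ x ∈ Cb K n, psi P (c0 + cx x) * psi P' (c0 + cx x) =
      ∑ x ∈ Fintype.piFinset (fun _ : Kx K => Finset.Ico (0 : ℤ) n),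
        psi P (c0 + cx x) * psi P' (c0 + cx x) := rfl
    rw [h7]
    linarith
  refine h6.trans ?_
  rw [mul_add, ← hMr]
  refine add_le_add ?_ ?_
  · refine mul_le_mul_of_nonneg_left ?_ (by positivity)
    rw [hMr, mul_inv]
    exact mul_le_mul (frac hN).2 (frac hN').2 (frac hN').1 (by positivity)
  · rcases Nat.eq_zero_or_pos (Fintype.card (Kx K)) with h8 | h8
    · rw [h8]
      simp
    · obtain ⟨k, hk⟩ := Nat.exists_eq_succ_of_ne_zero h8.ne'
      rw [hk, Nat.succ_sub_one, pow_succ]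
      have h9 : (n : ℝ) ^ k * n * (2 * ((k.succ : ℕ) : ℝ) * M / n) = 2 * ((k.succ : ℕ) : ℝ) * M * (n : ℝ) ^ k := by
        field_simp
      rw [h9]

end H77.PX
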