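import Pool.Agent.H77.PX.Psi

/-!
# [H77 PX PAV] The average over a complete residue system (90-130 lines)

`m = N N'`, `m ∈ P`, `m ∈ P'` (`Ideal.absNorm_mem`). `Φ x = (classes of c0 + cx x mod P, classes mod P')`. For every
`y ∈ (O/P)^3 × (O/P')^3` there is `x_y` with `cx x_y ≡ y - c0` (CRT for the coprime ideals `P, P'`: `Ideal.quotientInfEquivQuotientProd` or
`IsCoprime`; `cx` is surjective: take the coordinates `RingOfIntegers.basis.repr`). The map `x ↦ (x + x_y - x_0) mod m` (coordinatewise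
`Int.emod`) is a bijection of `[0, m)^κ` onto itself which maps the fibre of `Φ` over `0` onto the fibre over `y` (`cx` is additive,
`cx (m x) ∈ m O ⊆ P ∩ P'`). So all `(N N')^3` fibres have the same number `k` of points, `k (N N')^3 = m^(card κ)`, and the sum is
`k ∑_y g(y_1) g'(y_2) = k N (N-1) N' (N'-1)` (`psi_sum`; `g` exists by `psi_congr`: `g y = psi P` of representatives, `Ideal.Quotient.mk_out`).
-/

set_option autoImplicit false

open scoped NumberField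
open H88.A4 H88.WS Pool.Agent.H67.WA

noncomputable section

namespace H77.PX

variable {K : Type} [Field K] [NumberField K]

/-- the classes of the entries -/
private def qc (I : Ideal (𝓞 K)) (c : T3 K) : (𝓞 K ⧸ I) × (𝓞 K ⧸ I) × (𝓞 K ⧸ I) :=
  (Ideal.Quotient.mk I c.1, Ideal.Quotient.mk I c.2.1, Ideal.Quotient.mk I c.2.2)

private theorem qc_add (I : Ideal (𝓞 K)) (c c' : T3 K) : qc I (c + c') = qc I c + qc I c' := by
  simp only [qc, Prod.fst_add, Prod.snd_add, map_add]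
  rfl

private theorem cx_add (x y : Kx K → ℤ) : cx (x + y) = cx x + cx y := by
  simp only [cx, Pi.add_apply, add_smul, Finset.sum_add_distrib]
  rfl

omit [NumberField K] in
private theorem mk_sum_eq {I : Ideal (𝓞 K)} {m : ℕ} (hm : (m : 𝓞 K) ∈ I)
    {ι : Type*} [Fintype ι] (b : ι → 𝓞 K) {x y : ι → ℤ} (h : ∀ i, (m : ℤ) ∣ x i - y i) :
    Ideal.Quotient.mk I (∑ i, x i • b i) = Ideal.Quotient.mk I (∑ i, y i • b i) := by
  rw [Ideal.Quotient.eq, ← Finset.sum_sub_distrib]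
  refine I.sum_mem fun i _ => ?_
  obtain ⟨k, hk⟩ := h i
  rw [← sub_smul, hk, zsmul_eq_mul]
  push_cast
  rw [mul_assoc]
  exact I.mul_mem_right _ hm

private theorem qc_congr {I : Ideal (𝓞 K)} {m : ℕ} (hm : (m : 𝓞 K) ∈ I) {x y : Kx K → ℤ}
    (h : ∀ k, (m : ℤ) ∣ x k - y k) : qc I (cx x) = qc I (cx y) := by
  unfold qc cx
  refine Prod.ext ?_ (Prod.ext ?_ ?_)
  · exact mk_sum_eq hm _ fun i => h (0, i)
  · exact mk_sum_eq hm _ fun i => h (1, i)
  · exact mk_sum_eq hm _ fun i => h (2, i)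

private theorem sum_hom {G H : Type*} [AddCommGroup G] [AddCommGroup H] [Fintype G] [Fintype H]
    (f : G →+ H) (hf : Function.Surjective f) (F : H → ℝ) :
    (∑ g, F (f g)) * (Fintype.card H : ℝ) = (Fintype.card G : ℝ) * ∑ h, F h := by
  classical
  set k := (Finset.univ.filter fun g => f g = 0).card with hk
  have h1 : ∀ h, (Finset.univ.filter fun g => f g = h).card = k := fun h =>
    AddMonoidHom.card_fiber_eq_of_mem_range f (hf h) (hf 0)
  have h2 : Fintype.card G = Fintype.card H * k := by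
    rw [← Finset.card_univ, Finset.card_eq_sum_card_fiberwise (f := f) (t := Finset.univ)
      (fun _ _ => Finset.mem_coe.2 (Finset.mem_univ _)), Finset.sum_congr rfl fun h _ => h1 h]
    simp
  have h3 : ∑ g, F (f g) = k * ∑ h, F h := by
    rw [← Finset.sum_fiberwise Finset.univ f, Finset.mul_sum]
    refine Finset.sum_congr rfl fun h _ => ?_
    rw [Finset.sum_congr rfl (g := fun _ => F h), Finset.sum_const, h1, nsmul_eq_mul]
    intro g hg
    rw [(Finset.mem_filter.1 hg).2]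
  rw [h3, h2]
  push_cast
  ring

/-- the classes modulo the two primes -/
private def fh (P P' : Ideal (𝓞 K)) (m : ℕ) [NeZero m] (hm : (m : 𝓞 K) ∈ P) (hm' : (m : 𝓞 K) ∈ P') :
    (Kx K → ZMod m) →+ ((𝓞 K ⧸ P) × (𝓞 K ⧸ P) × (𝓞 K ⧸ P)) × ((𝓞 K ⧸ P') × (𝓞 K ⧸ P') × (𝓞 K ⧸ P')) where
  toFun g := (qc P (cx fun k => ((g k).val : ℤ)), qc P' (cx fun k => ((g k).val : ℤ)))
  map_zero' := by
    have h : (cx fun k => (((0 : Kx K → ZMod m) k).val : ℤ)) = (0 : T3 K) := by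
      simp [cx]
    rw [h]
    simp [qc]
  map_add' g h := by
    have h1 : ∀ k, (m : ℤ) ∣ (((g + h) k).val : ℤ) -
        ((fun k => ((g k).val : ℤ)) + fun k => ((h k).val : ℤ)) k := by
      intro k
      rw [← ZMod.intCast_zmod_eq_zero_iff_dvd _ m]
      simp
    rw [Prod.mk_add_mk, ← qc_add, ← qc_add, ← cx_add, qc_congr hm h1, qc_congr hm' h1]

omit [NumberField K] in
private theorem crt {P P' : Ideal (𝓞 K)} (h : IsCoprime P P') (y : 𝓞 K ⧸ P) (y' : 𝓞 K ⧸ P') :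
    ∃ z : 𝓞 K, Ideal.Quotient.mk P z = y ∧ Ideal.Quotient.mk P' z = y' := by
  obtain ⟨a, ha, b, hb, hab⟩ := Ideal.isCoprime_iff_exists.1 h
  obtain ⟨u, rfl⟩ := Ideal.Quotient.mk_surjective y
  obtain ⟨v, rfl⟩ := Ideal.Quotient.mk_surjective y'
  refine ⟨u * b + v * a, ?_, ?_⟩
  · rw [Ideal.Quotient.eq, show u * b + v * a - u = (v - u) * a by linear_combination u * hab]
    exact P.mul_mem_left _ ha
  · rw [Ideal.Quotient.eq, show u * b + v * a - v = (u - v) * b by linear_combination v * hab]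
    exact P'.mul_mem_left _ hb

private theorem cx_surj (c : T3 K) : ∃ x : Kx K → ℤ, cx x = c := by
  obtain ⟨c1, c2, c3⟩ := c
  refine ⟨fun k => (NumberField.RingOfIntegers.basis K).repr (![c1, c2, c3] k.1) k.2, ?_⟩
  simp only [cx]
  rw [Module.Basis.sum_repr, Module.Basis.sum_repr, Module.Basis.sum_repr]
  rfl

private theorem fh_surj {P P' : Ideal (𝓞 K)} {m : ℕ} [NeZero m] (hm : (m : 𝓞 K) ∈ P)
    (hm' : (m : 𝓞 K) ∈ P') (hc : IsCoprime P P') : Function.Surjective (fh P P' m hm hm') := by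
  rintro ⟨⟨y1, y2, y3⟩, ⟨z1, z2, z3⟩⟩
  obtain ⟨c1, h1, k1⟩ := crt hc y1 z1
  obtain ⟨c2, h2, k2⟩ := crt hc y2 z2
  obtain ⟨c3, h3, k3⟩ := crt hc y3 z3
  obtain ⟨x, hx⟩ := cx_surj ((c1, c2, c3) : T3 K)
  refine ⟨fun k => ((x k : ℤ) : ZMod m), ?_⟩
  have h : ∀ k, (m : ℤ) ∣ ((((x k : ℤ) : ZMod m)).val : ℤ) - x k := by
    intro k
    rw [← ZMod.intCast_zmod_eq_zero_iff_dvd _ m]
    simp
  change (qc P (cx fun k => ((((x k : ℤ) : ZMod m)).val : ℤ)),
    qc P' (cx fun k => ((((x k : ℤ) : ZMod m)).val : ℤ))) = _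
  rw [qc_congr hm h, qc_congr hm' h, hx]
  unfold qc
  simp only [h1, h2, h3, k1, k2, k3]

private theorem card_q {P : Ideal (𝓞 K)} [Fintype (𝓞 K ⧸ P)] :
    (Fintype.card (𝓞 K ⧸ P) : ℝ) = ni P := by
  unfold ni
  rw [Ideal.absNorm_apply, Submodule.cardQuot_apply, Nat.card_eq_fintype_card]

private theorem psi_lift (P : Ideal (𝓞 K)) : ∃ g : (𝓞 K ⧸ P) × (𝓞 K ⧸ P) × (𝓞 K ⧸ P) → ℝ,
    ∀ c : T3 K, g (qc P c) = psi P c := by
  refine ⟨fun y => psi P (Quotient.out y.1, Quotient.out y.2.1, Quotient.out y.2.2), fun c => ?_⟩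
  refine psi_congr ?_ ?_ ?_
  · rw [← Ideal.Quotient.eq]
    exact Ideal.Quotient.mk_out _
  · rw [← Ideal.Quotient.eq]
    exact Ideal.Quotient.mk_out _
  · rw [← Ideal.Quotient.eq]
    exact Ideal.Quotient.mk_out _

theorem pav (P P' : Ideal (𝓞 K)) (hP : P.IsPrime) (hP' : P'.IsPrime) (hP0 : P ≠ ⊥) (hP0' : P' ≠ ⊥)
    (h2 : (2 : 𝓞 K) ∉ P) (h2' : (2 : 𝓞 K) ∉ P') (hne : P ≠ P') (c0 : T3 K) :
    ∑ x ∈ Cb K (Ideal.absNorm P * Ideal.absNorm P'), psi P (c0 + cx x) * psi P' (c0 + cx x) =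
      (ni P * ni P') ^ Fintype.card (Kx K) *
        ((ni P - 1) / ni P ^ 2 * ((ni P' - 1) / ni P' ^ 2)) := by
  classical
  have hF := Ideal.finiteQuotientOfFreeOfNeBot P hP0
  have hF' := Ideal.finiteQuotientOfFreeOfNeBot P' hP0'
  have hI : Fintype (𝓞 K ⧸ P) := Fintype.ofFinite _
  have hI' : Fintype (𝓞 K ⧸ P') := Fintype.ofFinite _
  have hM := hP.isMaximal hP0
  have hM' := hP'.isMaximal hP0'
  have hc : IsCoprime P P' := Ideal.isCoprime_of_isMaximal hne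
  have hn : Ideal.absNorm P ≠ 0 := by rwa [Ne, Ideal.absNorm_eq_zero_iff]
  have hn' : Ideal.absNorm P' ≠ 0 := by rwa [Ne, Ideal.absNorm_eq_zero_iff]
  set m := Ideal.absNorm P * Ideal.absNorm P' with hmd
  have hm0 : NeZero m := ⟨mul_ne_zero hn hn'⟩
  have hm : (m : 𝓞 K) ∈ P := by
    rw [hmd, Nat.cast_mul]
    exact P.mul_mem_right _ (Ideal.absNorm_mem P)
  have hm' : (m : 𝓞 K) ∈ P' := by
    rw [hmd, Nat.cast_mul]
    exact P'.mul_mem_left _ (Ideal.absNorm_mem P')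
  obtain ⟨g, hg⟩ := psi_lift P
  obtain ⟨g', hg'⟩ := psi_lift P'
  have hs := psi_sum P hP hP0 h2 g hg
  have hs' := psi_sum P' hP' hP0' h2' g' hg'
  -- the sum over the cube as a sum over the group
  have e1 : ∑ x ∈ Cb K m, psi P (c0 + cx x) * psi P' (c0 + cx x) =
      ∑ u : Kx K → ZMod m, (fun h : ((𝓞 K ⧸ P) × (𝓞 K ⧸ P) × (𝓞 K ⧸ P)) ×
        ((𝓞 K ⧸ P') × (𝓞 K ⧸ P') × (𝓞 K ⧸ P')) => g (qc P c0 + h.1) * g' (qc P' c0 + h.2))
        (fh P P' m hm hm' u) := by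
    refine Finset.sum_bij' (fun x _ => fun k => ((x k : ℤ) : ZMod m))
      (fun u _ => fun k => ((u k).val : ℤ)) ?_ ?_ ?_ ?_ ?_
    · intro x _
      exact Finset.mem_univ _
    · intro u _
      rw [Cb, Fintype.mem_piFinset]
      intro k
      rw [Finset.mem_Ico]
      exact ⟨by positivity, by exact_mod_cast ZMod.val_lt (u k)⟩
    · intro x hx
      rw [Cb, Fintype.mem_piFinset] at hx
      funext k
      have hk := Finset.mem_Ico.1 (hx k)
      rw [ZMod.val_intCast]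
      exact Int.emod_eq_of_lt hk.1 hk.2
    · intro u _
      funext k
      simp
    · intro x hx
      have h : ∀ k, (m : ℤ) ∣ ((((x k : ℤ) : ZMod m)).val : ℤ) - x k := by
        intro k
        rw [← ZMod.intCast_zmod_eq_zero_iff_dvd _ m]
        simp
      change _ = g (qc P c0 + qc P (cx fun k => ((((x k : ℤ) : ZMod m)).val : ℤ))) *
        g' (qc P' c0 + qc P' (cx fun k => ((((x k : ℤ) : ZMod m)).val : ℤ)))
      rw [qc_congr hm h, qc_congr hm' h, ← qc_add, ← qc_add, hg, hg']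
  have e2 := sum_hom (fh P P' m hm hm') (fh_surj hm hm' hc)
    (fun h => g (qc P c0 + h.1) * g' (qc P' c0 + h.2))
  have e3 : ∑ h : ((𝓞 K ⧸ P) × (𝓞 K ⧸ P) × (𝓞 K ⧸ P)) ×
      ((𝓞 K ⧸ P') × (𝓞 K ⧸ P') × (𝓞 K ⧸ P')), g (qc P c0 + h.1) * g' (qc P' c0 + h.2) =
      (∑ y, g y) * ∑ y, g' y := by
    rw [Fintype.sum_prod_type]
    simp only
    rw [← Equiv.sum_comp (Equiv.addLeft (qc P c0)) g, ← Equiv.sum_comp (Equiv.addLeft (qc P' c0)) g',
      Finset.sum_mul_sum]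
    rfl
  rw [← e1, e3, hs, hs'] at e2
  have c1 : (Fintype.card (((𝓞 K ⧸ P) × (𝓞 K ⧸ P) × (𝓞 K ⧸ P)) ×
      ((𝓞 K ⧸ P') × (𝓞 K ⧸ P') × (𝓞 K ⧸ P'))) : ℝ) = ni P ^ 3 * ni P' ^ 3 := by
    simp only [Fintype.card_prod]
    push_cast
    rw [card_q, card_q]
    ring
  have c2 : (Fintype.card (Kx K → ZMod m) : ℝ) = (ni P * ni P') ^ Fintype.card (Kx K) := by
    rw [Fintype.card_fun, ZMod.card, hmd]
    unfold ni
    push_cast
    rfl
  rw [c1, c2] at e2
  have p1 : ni P ≠ 0 := by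
    unfold ni
    exact_mod_cast hn
  have p2 : ni P' ≠ 0 := by
    unfold ni
    exact_mod_cast hn'
  have p3 : ni P ^ 3 * ni P' ^ 3 ≠ 0 := mul_ne_zero (pow_ne_zero _ p1) (pow_ne_zero _ p2)
  refine mul_right_cancel₀ p3 ?_
  rw [e2]
  field_simp

end H77.PX
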