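import Mathlib

/-!
# [H77 PX QA] The average of the quadratic character of a discriminant (Mathlib only, 25-40 lines)

For fixed `b` and `a ≠ 0` the map `c ↦ b^2 - a c` is a bijection of `F`, so the sum over `c` is `∑ χ = 0`
(`quadraticChar_sum_zero`). For `a = 0` the sum over `c` is `q χ(b^2)`, which is `q` for `b ≠ 0` and `0` for `b = 0`.
Total `∑_{b ≠ 0} q = q (q - 1)`.
-/

set_option autoImplicit false

namespace H77.PX

theorem qavg (F : Type) [Field F] [Fintype F] [DecidableEq F] (hF : ringChar F ≠ 2) :
    ∑ x : F × F × F, quadraticChar F (x.2.1 ^ 2 - x.1 * x.2.2) =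
      (Fintype.card F : ℤ) * ((Fintype.card F : ℤ) - 1) := by
  have hc : ∀ a b : F, a ≠ 0 → ∑ c : F, quadraticChar F (b ^ 2 - a * c) = 0 := by
    intro a b ha
    rw [← quadraticChar_sum_zero hF]
    exact Equiv.sum_comp ((Equiv.mulLeft₀ a ha).trans (Equiv.subLeft (b ^ 2)))
      (fun x => quadraticChar F x)
  have h0 : ∀ b : F, ∑ c : F, quadraticChar F (b ^ 2 - 0 * c) =
      if b = 0 then 0 else (Fintype.card F : ℤ) := by
    intro b
    have h1 : ∀ c : F, quadraticChar F (b ^ 2 - 0 * c) = if b = 0 then 0 else 1 := by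
      intro c
      rw [zero_mul, sub_zero]
      split_ifs with hb
      · rw [hb, zero_pow two_ne_zero, quadraticChar_zero]
      · exact quadraticChar_sq_one' hb
    rw [Finset.sum_congr rfl fun c _ => h1 c, Finset.sum_const, Finset.card_univ]
    split_ifs
    · rw [smul_zero]
    · rw [nsmul_eq_mul, mul_one]
  rw [Fintype.sum_prod_type, Finset.sum_eq_single (0 : F)]
  · rw [Fintype.sum_prod_type]
    simp only [h0]
    rw [Finset.sum_ite, Finset.sum_const_zero, zero_add, Finset.sum_const, nsmul_eq_mul, mul_comm]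
    congr 1
    have h2 : (Finset.univ.filter fun b : F => ¬ b = 0).card = Fintype.card F - 1 := by
      rw [Finset.filter_ne' Finset.univ (0 : F), Finset.card_erase_of_mem (Finset.mem_univ _),
        Finset.card_univ]
    rw [h2, Nat.cast_sub Fintype.card_pos, Nat.cast_one]
  · intro a _ ha
    rw [Fintype.sum_prod_type]
    exact Finset.sum_eq_zero fun b _ => hc a b ha
  · intro h
    exact absurd (Finset.mem_univ _) h

end H77.PX
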