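import Pool.Agent.H77.PX.CDef
import Pool.Agent.H77.PX.Qa

/-!
# [H77 PX PSI] The sum of `psi` over the classes modulo `P` (50-80 lines)

`F = O/P` is a finite field (`P` maximal, `Ideal.Quotient.field`, finite), of characteristic `≠ 2` (`2 ∉ P`), `card F = absNorm P`
(`Ideal.absNorm_apply`, `Submodule.cardQuot_apply`). For representatives `c` of the classes
`psi P c = quadraticChar F (b^2 - a c')` with `(a, b, c')` the classes of the entries (`quadraticChar_eq_zero_iff`,
`quadraticChar_one_iff_isSquare`, `quadraticChar_neg_one_iff_not_isSquare`), so the sum is `N (N - 1)` by `qavg`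
(stated with a function `g` on `(O/P)^3` which gives `psi`).
-/

set_option autoImplicit false

open scoped NumberField
open H88.A4 H88.WS Pool.Agent.H67.WA

noncomputable section

namespace H77.PX

variable {K : Type} [Field K] [NumberField K]

open Classical in
theorem psi_sum (P : Ideal (𝓞 K)) (hP : P.IsPrime) (hP0 : P ≠ ⊥) (h2 : (2 : 𝓞 K) ∉ P)
    [Fintype (𝓞 K ⧸ P)] (g : (𝓞 K ⧸ P) × (𝓞 K ⧸ P) × (𝓞 K ⧸ P) → ℝ)
    (hg : ∀ c : T3 K, g (Ideal.Quotient.mk P c.1, Ideal.Quotient.mk P c.2.1,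
      Ideal.Quotient.mk P c.2.2) = psi P c) :
    ∑ y, g y = ni P * (ni P - 1) := by
  haveI : P.IsMaximal := hP.isMaximal hP0
  letI : Field (𝓞 K ⧸ P) := Ideal.Quotient.field P
  have hchar : ringChar (𝓞 K ⧸ P) ≠ 2 := by
    intro h
    have h3 : ((2 : ℕ) : 𝓞 K ⧸ P) = 0 := by
      have h4 := ringChar.Nat.cast_ringChar (R := 𝓞 K ⧸ P)
      rwa [h] at h4
    apply h2
    rw [← Ideal.Quotient.eq_zero_iff_mem]
    exact h3
  have hq := qavg (𝓞 K ⧸ P) hchar
  have hcard : (Fintype.card (𝓞 K ⧸ P) : ℝ) = ni P := by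
    unfold ni
    rw [Ideal.absNorm_apply, Submodule.cardQuot_apply, Nat.card_eq_fintype_card]
  have hgq : ∀ y : (𝓞 K ⧸ P) × (𝓞 K ⧸ P) × (𝓞 K ⧸ P),
      g y = ((quadraticChar (𝓞 K ⧸ P) (y.2.1 ^ 2 - y.1 * y.2.2) : ℤ) : ℝ) := by
    rintro ⟨y1, y2, y3⟩
    obtain ⟨a, rfl⟩ := Ideal.Quotient.mk_surjective y1
    obtain ⟨b, rfl⟩ := Ideal.Quotient.mk_surjective y2
    obtain ⟨c, rfl⟩ := Ideal.Quotient.mk_surjective y3
    have h5 := hg (a, b, c)
    have h6 : (Ideal.Quotient.mk P b) ^ 2 - Ideal.Quotient.mk P a * Ideal.Quotient.mk P c =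
        Ideal.Quotient.mk P (- dt (a, b, c)) := by
      rw [← map_pow, ← map_mul, ← map_sub]
      congr 1
      unfold dt
      ring
    have h7 : g (Ideal.Quotient.mk P a, Ideal.Quotient.mk P b, Ideal.Quotient.mk P c) =
      psi P (a, b, c) := h5
    rw [h7]
    change psi P (a, b, c) = ((quadraticChar (𝓞 K ⧸ P) ((Ideal.Quotient.mk P b) ^ 2 -
      Ideal.Quotient.mk P a * Ideal.Quotient.mk P c) : ℤ) : ℝ)
    rw [h6]
    unfold psi
    by_cases h8 : dt (a, b, c) ∈ P
    · rw [if_pos h8]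
      have h9 : Ideal.Quotient.mk P (- dt (a, b, c)) = 0 :=
        Ideal.Quotient.eq_zero_iff_mem.2 (P.neg_mem h8)
      rw [h9, quadraticChar_zero, Int.cast_zero]
    · rw [if_neg h8]
      have h9 : Ideal.Quotient.mk P (- dt (a, b, c)) ≠ 0 := by
        intro h10
        exact h8 (P.neg_mem_iff.1 (Ideal.Quotient.eq_zero_iff_mem.1 h10))
      by_cases h10 : ∃ x : 𝓞 K, x ^ 2 + dt (a, b, c) ∈ P
      · rw [if_pos h10]
        obtain ⟨x, hx⟩ := h10
        have h11 : IsSquare (Ideal.Quotient.mk P (- dt (a, b, c))) := by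
          refine ⟨Ideal.Quotient.mk P x, ?_⟩
          rw [← map_mul, eq_comm, Ideal.Quotient.eq]
          have e : x * x - - dt (a, b, c) = x ^ 2 + dt (a, b, c) := by ring
          rw [e]
          exact hx
        rw [(quadraticChar_one_iff_isSquare h9).2 h11, Int.cast_one]
      · rw [if_neg h10]
        have h11 : ¬ IsSquare (Ideal.Quotient.mk P (- dt (a, b, c))) := by
          rintro ⟨z, hz⟩
          obtain ⟨x, rfl⟩ := Ideal.Quotient.mk_surjective z
          apply h10
          refine ⟨x, ?_⟩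
          rw [← map_mul, eq_comm, Ideal.Quotient.eq] at hz
          have e : x * x - - dt (a, b, c) = x ^ 2 + dt (a, b, c) := by ring
          rwa [e] at hz
        rw [quadraticChar_neg_one_iff_not_isSquare.2 h11, Int.cast_neg, Int.cast_one]
  rw [Finset.sum_congr rfl fun y _ => hgq y, ← Int.cast_sum, hq]
  push_cast
  rw [hcard]

end H77.PX
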