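import Pool.Agent.H77.PX.Def

/-!
# [H77 PX RK] Rankin's trick for one exponent function (Mathlib only, 40-70 lines)

`gm_nonneg`: `l i (k+1) ≥ l i k ≥ 1`, `q i ≥ 1`, `σ ≥ 0`, so `q i ^ (σ (k+1)) ≥ q i ^ (σ k) ≥ 0`.
`gm_sum`: telescope (`Finset.sum_range_succ`, induction; `l i 0 = 1`, `q i ^ 0 = 1`).
`mf_pow`: `∏ l i (a i) * q i ^ (σ a i) = mf l a * (∏ q i ^ a i) ^ σ` (`Real.finset_prod_rpow`, `Real.rpow_natCast`, `Real.rpow_mul`).
`mf_sum`: `∏ i, ∑ j ∈ range (a i + 1), gm q σ l i j = ∑ e ∈ piFinset .., ∏ i, gm q σ l i (e i)` (`Finset.prod_univ_sum`).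
-/

set_option autoImplicit false

noncomputable section

namespace H77.PX

open Finset

variable {ι : Type} [Fintype ι]

theorem gm_nonneg {q : ι → ℝ} (hq : ∀ i, 2 ≤ q i) {l : ι → ℕ → ℝ} (hl : Lf l) {σ : ℝ} (hσ : 0 ≤ σ)
    (i : ι) (k : ℕ) : 0 ≤ gm q σ l i k := by
  cases k with
  | zero => simp [gm]
  | succ k =>
    have h1 : l i k ≤ l i (k + 1) := hl.mono i k
    have h2 : 1 ≤ l i k := hl.one_le i k
    have hq1 : 1 ≤ q i := by linarith [hq i]
    have h3 : q i ^ (σ * (k : ℝ)) ≤ q i ^ (σ * ((k : ℝ) + 1)) :=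
      Real.rpow_le_rpow_of_exponent_le hq1 (mul_le_mul_of_nonneg_left (by linarith) hσ)
    have h4 : 0 ≤ q i ^ (σ * (k : ℝ)) := Real.rpow_nonneg (by linarith) _
    have h5 : l i k * q i ^ (σ * (k : ℝ)) ≤ l i (k + 1) * q i ^ (σ * ((k : ℝ) + 1)) :=
      mul_le_mul h1 h3 h4 (by linarith)
    simp only [gm]
    linarith

theorem gm_sum {q : ι → ℝ} (hq : ∀ i, 2 ≤ q i) {l : ι → ℕ → ℝ} (hl : Lf l) (σ : ℝ) (i : ι) (k : ℕ) :
    ∑ j ∈ range (k + 1), gm q σ l i j = l i k * q i ^ (σ * (k : ℝ)) := by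
  have _ := hq i
  induction k with
  | zero => simp [gm, hl.zero i]
  | succ k ih =>
    rw [Finset.sum_range_succ, ih]
    simp only [gm]
    push_cast
    ring

/-- Rankin's weight is a sum over the divisors -/
theorem mf_sum [DecidableEq ι] {q : ι → ℝ} (hq : ∀ i, 2 ≤ q i) {l : ι → ℕ → ℝ} (hl : Lf l) (σ : ℝ)
    (a : ι → ℕ) : mf l a * nf q a ^ σ =
      ∑ e ∈ Fintype.piFinset (fun i => range (a i + 1)), mf (gm q σ l) e := by
  have h1 : nf q a ^ σ = ∏ i, q i ^ (σ * (a i : ℝ)) := by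
    unfold nf
    rw [← Real.finsetProd_rpow _ _ (fun i _ => pow_nonneg (by linarith [hq i]) _)]
    refine Finset.prod_congr rfl fun i _ => ?_
    rw [← Real.rpow_natCast, ← Real.rpow_mul (by linarith [hq i]), mul_comm]
  unfold mf
  rw [h1, ← Finset.prod_mul_distrib, ← Finset.prod_univ_sum]
  exact Finset.prod_congr rfl fun i _ => (gm_sum hq hl σ i (a i)).symm

end H77.PX
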