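import Pool.Agent.H77.PX.Def

/-!
# [H77 PX SPL] The prefix of an exponent function (Mathlib only, 60-110 lines)

`ext`: increase `f0` towards `f1` one unit at a time; induction on `∑ i, (f1 i - f0 i)` for all `f0` with `nf q f0 ≤ T`:
`f0 ≠ f1` because `nf q f0 ≤ T < nf q f1`, so there is `i` with `f0 i < f1 i` (`f0 ≤ f1`); `g = Function.update f0 i (f0 i + 1)`,
`nf q g = nf q f0 * q i ≤ T * z`. If `T < nf q g` take `a = g`, otherwise the induction hypothesis for `g` (the places where `g ≠ f1`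
are places where `f0 ≠ f1`, because `f0 i ≠ f1 i`).

`split`: `Z k = X ^ (1 / k)`. If no `k` with `1 ≤ k ≤ K1` has `nf q (cut q (Z k) f) ≤ M` take `k = K1` and the left alternative.
Otherwise let `k` be the least such `k` (`Nat.find`). NUMBER of remaining factors: if `cut q (Z k) f ≤ a ≤ f` then for all `i` with
`f i - a i ≠ 0` we have `q i > Z k`, so `Z k ^ (∑ (f i - a i)) ≤ ∏ q i ^ (f i - a i) ≤ nf q f ≤ X ^ C1` and `∑ (f i - a i) ≤ C1 * k`
(`X > 1`, take logarithms or `Real.rpow_le_rpow_left_iff`).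
* `k = 1`: `a = cut q X f` (`max (1 - 1) 1 = 1`; `K0 < 1` is impossible).
* `2 ≤ k`, and `k ≤ K0` or `M ^ (1/2) < nf q (cut q (Z k) f)`: `a = cut q (Z k) f` (`Z k ≤ Z (k - 1)`, `max (k-1) 1 = k - 1`).
* `K0 < k` and `nf q (cut q (Z k) f) ≤ M ^ (1/2)`: `ext` with `f0 = cut q (Z k) f`, `f1 = cut q (Z (k-1)) f`, `T = M ^ (1/2)`,
  `z = Z (k-1) ≤ Z K0 ≤ M ^ (1/2)`; `M ^ (1/2) ≤ M < nf q f1` by minimality of `k`; `nf q a ≤ M ^ (1/2) * M ^ (1/2) = M`.
-/

set_option autoImplicit false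

noncomputable section

namespace H77.PX

open Finset

variable {ι : Type} [Fintype ι]

theorem ext (q : ι → ℝ) (hq : ∀ i, 2 ≤ q i) (z : ℝ) (f0 f1 : ι → ℕ) (h : f0 ≤ f1)
    (hz : ∀ i, f0 i ≠ f1 i → q i ≤ z) (T : ℝ) (h0 : nf q f0 ≤ T) (h1 : T < nf q f1) :
    ∃ a, f0 ≤ a ∧ a ≤ f1 ∧ T < nf q a ∧ nf q a ≤ T * z := by
  classical
  obtain ⟨n, hn⟩ : ∃ n, ∑ i, (f1 i - f0 i) = n := ⟨_, rfl⟩
  induction n using Nat.strong_induction_on generalizing f0 with
  | _ n ih =>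
    have hne : f0 ≠ f1 := by
      rintro rfl
      linarith
    obtain ⟨i, hi⟩ : ∃ i, f0 i < f1 i := by
      by_contra hcon
      push Not at hcon
      exact hne (le_antisymm h hcon)
    have hgf0 : f0 ≤ Function.update f0 i (f0 i + 1) := by
      intro j
      by_cases hj : j = i
      · subst hj
        simp
      · simp [hj]
    have hgf1 : Function.update f0 i (f0 i + 1) ≤ f1 := by
      intro j
      by_cases hj : j = i
      · subst hj
        simpa using hi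
      · simpa [hj] using h j
    have hnfg : nf q (Function.update f0 i (f0 i + 1)) = nf q f0 * q i := by
      have hgs : Function.update f0 i (f0 i + 1) = f0 + Pi.single i 1 := by
        funext j
        by_cases hj : j = i
        · subst hj
          simp
        · simp [hj]
      rw [hgs, nf_add]
      congr 1
      unfold nf
      rw [Finset.prod_eq_single i]
      · simp
      · intro j _ hj
        simp [hj]
      · simp
    have hqz : q i ≤ z := hz i hi.ne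
    have hT1 : 1 ≤ T := (one_le_nf hq f0).trans h0
    have hgT : nf q (Function.update f0 i (f0 i + 1)) ≤ T * z := by
      rw [hnfg]
      exact mul_le_mul h0 hqz (by linarith [hq i]) (by linarith)
    by_cases hTg : T < nf q (Function.update f0 i (f0 i + 1))
    · exact ⟨_, hgf0, hgf1, hTg, hgT⟩
    · push Not at hTg
      have hlt : ∑ j, (f1 j - Function.update f0 i (f0 i + 1) j) < n := by
        rw [← hn]
        apply Finset.sum_lt_sum
        · intro j _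
          exact Nat.sub_le_sub_left (hgf0 j) _
        · refine ⟨i, Finset.mem_univ i, ?_⟩
          simp only [Function.update_self]
          omega
      obtain ⟨a, ha1, ha2, ha3, ha4⟩ := ih _ hlt _ hgf1 (fun j hj => by
        by_cases hji : j = i
        · subst hji
          exact hqz
        · exact hz j (by simpa [hji] using hj)) hTg rfl
      exact ⟨a, hgf0.trans ha1, ha2, ha3, ha4⟩

private theorem num (q : ι → ℝ) (hq : ∀ i, 2 ≤ q i) (f a : ι → ℕ) (X C1 : ℝ) (k : ℕ) (hX : 1 < X)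
    (hk : 1 ≤ k) (hf : nf q f ≤ X ^ C1) (ha : cut q (X ^ (1 / (k : ℝ))) f ≤ a) :
    ((∑ i, (f i - a i) : ℕ) : ℝ) ≤ C1 * k := by
  have hZ : 0 < X ^ (1 / (k : ℝ)) := Real.rpow_pos_of_pos (by linarith) _
  have h1 : (X ^ (1 / (k : ℝ))) ^ (∑ i, (f i - a i)) ≤ X ^ C1 := by
    refine le_trans ?_ hf
    rw [← Finset.prod_pow_eq_pow_sum]
    unfold nf
    refine Finset.prod_le_prod (fun i _ => pow_nonneg hZ.le _) fun i _ => ?_
    by_cases hi : q i ≤ X ^ (1 / (k : ℝ))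
    · have := ha i
      simp only [cut, hi, if_true] at this
      rw [Nat.sub_eq_zero_of_le this, pow_zero]
      exact one_le_pow₀ (by linarith [hq i])
    · push Not at hi
      calc (X ^ (1 / (k : ℝ))) ^ (f i - a i) ≤ q i ^ (f i - a i) := pow_le_pow_left₀ hZ.le hi.le _
        _ ≤ q i ^ f i := pow_le_pow_right₀ (by linarith [hq i]) (Nat.sub_le _ _)
  rw [← Real.rpow_natCast, ← Real.rpow_mul (by linarith), Real.rpow_le_rpow_left_iff hX] at h1
  have hk0 : (0 : ℝ) < k := by exact_mod_cast hk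
  rw [one_div, inv_mul_eq_div, div_le_iff₀ hk0] at h1
  exact h1

omit [Fintype ι] in
private theorem cut_le (q : ι → ℝ) (z : ℝ) (f : ι → ℕ) : cut q z f ≤ f := by
  intro i
  unfold cut
  split_ifs
  · exact le_rfl
  · exact Nat.zero_le _

omit [Fintype ι] in
private theorem cut_mono (q : ι → ℝ) {z z' : ℝ} (h : z ≤ z') (f : ι → ℕ) : cut q z f ≤ cut q z' f := by
  intro i
  unfold cut
  by_cases h1 : q i ≤ z
  · rw [if_pos h1, if_pos (h1.trans h)]
  · rw [if_neg h1]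
    exact Nat.zero_le _

private theorem Z_anti {X : ℝ} (hX : 1 < X) {j k : ℕ} (hj : 1 ≤ j) (hjk : j ≤ k) :
    X ^ (1 / (k : ℝ)) ≤ X ^ (1 / (j : ℝ)) := by
  have hj0 : (0 : ℝ) < j := by exact_mod_cast hj
  exact Real.rpow_le_rpow_of_exponent_le hX.le (one_div_le_one_div_of_le hj0 (by exact_mod_cast hjk))

theorem split (q : ι → ℝ) (hq : ∀ i, 2 ≤ q i) (f : ι → ℕ) (X M C1 : ℝ) (K0 K1 : ℕ) (hX : 1 < X)
    (hM : 1 ≤ M) (hK0 : 1 ≤ K0) (hK1 : 1 ≤ K1)
    (h0 : X ^ (1 / (K0 : ℝ)) ≤ M ^ (1 / 2 : ℝ)) (hf : nf q f ≤ X ^ C1) :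
    M < nf q (cut q (X ^ (1 / (K1 : ℝ))) f) ∨ ∃ k : ℕ, 1 ≤ k ∧ k ≤ K1 ∧ ∃ a : ι → ℕ, a ≤ f ∧
      (∀ i, a i ≠ 0 → q i ≤ X ^ (1 / ((max (k - 1) 1 : ℕ) : ℝ))) ∧ nf q a ≤ M ∧
      (K0 < k → M ^ (1 / 2 : ℝ) < nf q a) ∧ ((∑ i, (f i - a i) : ℕ) : ℝ) ≤ C1 * k := by
  classical
  by_cases hex : ∃ k : ℕ, 1 ≤ k ∧ k ≤ K1 ∧ nf q (cut q (X ^ (1 / (k : ℝ))) f) ≤ M
  · right
    obtain ⟨k, ⟨hk1, hkK, hkM⟩, hmin⟩ : ∃ k : ℕ, (1 ≤ k ∧ k ≤ K1 ∧ nf q (cut q (X ^ (1 / (k : ℝ))) f) ≤ M) ∧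
        ∀ m < k, ¬ (1 ≤ m ∧ m ≤ K1 ∧ nf q (cut q (X ^ (1 / (m : ℝ))) f) ≤ M) :=
      ⟨Nat.find hex, Nat.find_spec hex, fun m hm => Nat.find_min hex hm⟩
    refine ⟨k, hk1, hkK, ?_⟩
    by_cases hC : K0 < k ∧ nf q (cut q (X ^ (1 / (k : ℝ))) f) ≤ M ^ (1 / 2 : ℝ)
    · obtain ⟨hKk, hsm⟩ := hC
      have hk2 : 1 ≤ k - 1 := by omega
      have hMM : M ^ (1 / 2 : ℝ) * M ^ (1 / 2 : ℝ) = M := by
        rw [← Real.rpow_add (by linarith)]
        norm_num
      have hM2 : M ^ (1 / 2 : ℝ) ≤ M := by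
        calc M ^ (1 / 2 : ℝ) ≤ M ^ (1 : ℝ) := Real.rpow_le_rpow_of_exponent_le hM (by norm_num)
          _ = M := Real.rpow_one M
      have hbig : M < nf q (cut q (X ^ (1 / ((k - 1 : ℕ) : ℝ))) f) := by
        by_contra hcon
        push Not at hcon
        exact hmin (k - 1) (by omega) ⟨hk2, by omega, hcon⟩
      have hZ1 : X ^ (1 / (k : ℝ)) ≤ X ^ (1 / ((k - 1 : ℕ) : ℝ)) := Z_anti hX hk2 (by omega)
      obtain ⟨a, ha1, ha2, ha3, ha4⟩ := ext q hq (X ^ (1 / ((k - 1 : ℕ) : ℝ)))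
        (cut q (X ^ (1 / (k : ℝ))) f) (cut q (X ^ (1 / ((k - 1 : ℕ) : ℝ))) f) (cut_mono q hZ1 f)
        (by
          intro i hi
          by_contra hcon
          apply hi
          unfold cut
          rw [if_neg hcon, if_neg (fun h => hcon (h.trans hZ1))])
        (M ^ (1 / 2 : ℝ)) hsm (lt_of_le_of_lt hM2 hbig)
      refine ⟨a, ha2.trans (cut_le q _ f), ?_, ?_, fun _ => ha3, num q hq f a X C1 k hX hk1 hf ha1⟩
      · intro i hi
        rw [max_eq_left hk2]
        by_contra hcon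
        have := ha2 i
        simp only [cut, hcon, if_false] at this
        omega
      · refine ha4.trans ?_
        calc M ^ (1 / 2 : ℝ) * X ^ (1 / ((k - 1 : ℕ) : ℝ)) ≤ M ^ (1 / 2 : ℝ) * M ^ (1 / 2 : ℝ) := by
              refine mul_le_mul_of_nonneg_left ((Z_anti hX hK0 (by omega)).trans h0) ?_
              exact Real.rpow_nonneg (by linarith) _
          _ = M := hMM
    · refine ⟨cut q (X ^ (1 / (k : ℝ))) f, cut_le q _ f, ?_, hkM, ?_, num q hq f _ X C1 k hX hk1 hf le_rfl⟩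
      · intro i hi
        have h1 : q i ≤ X ^ (1 / (k : ℝ)) := by
          by_contra hcon
          exact hi (by unfold cut; rw [if_neg hcon])
        exact h1.trans (Z_anti hX (le_max_right _ _) (by omega))
      · intro hKk
        by_contra hcon
        exact hC ⟨hKk, not_lt.1 hcon⟩
  · left
    push Not at hex
    exact hex K1 hK1 le_rfl

end H77.PX
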