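import Pool.Agent.H77.PX.Spl
import Pool.Agent.H77.PX.Lev

/-!
# [H77 PX SUM] The sum over the levels (Mathlib only, 80-130 lines)

`M = X ^ δ`, `K0 = ⌈2 / δ⌉` (so `X ^ (1/K0) ≤ M ^ (1/2)`), `L2 = log 2`, `A = max 1 ((2 / δ) * (48 * C1 * L2 + 1))`.
By `split` every `b ∈ S` which is not exceptional has a level `k`, `1 ≤ k ≤ K1`. Choose it; `S_k` = the `b` with level `k`.
`level` for `S_k` with `n = ⌊C1 k⌋`, `m = max (k-1) 1`, `z = X ^ (1/m)` (between `X ^ (1/K1)` and `X`), `σ = A / log z = A m / log X`,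
`M0 = 1` if `k ≤ K0` and `M0 = M ^ (1/2) = X ^ (δ/2)` if `k > K0` (the hypothesis `hc` for the subset `S_k` follows from `hc` for `S`), and
`hB`: `∑_{S_k} mf l (f b) ≤ 2 ^ (48 C1 k) * w_k * W * B`, `w_k = 1` or
`w_k = X ^ (-(δ/2) A m / log X) = exp (-(δ/2) A m) ≤ exp (-(48 C1 L2 + 1) (k-1))` (`m ≥ k - 1`).
Sum over `k`: `∑_{k ≤ K0} 2 ^ (48 C1 k) + ∑_k 2 ^ (48 C1) exp (-(k-1)) ≤ K0 2 ^ (48 C1 K0) + 2 ^ (48 C1) * 2`
(`∑_{j < N} exp (-j) ≤ 2`: geometric series, `exp (-1) ≤ 1/2`). (`B ≥ 0`: `ep ≥ 0` at `z = X`, or use that all sums are `≥ 0`.)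
-/

set_option autoImplicit false

noncomputable section

namespace H77.PX

open Finset

private theorem sum_exp (N : ℕ) : ∑ k ∈ Icc 1 N, Real.exp (-((k : ℝ) - 1)) ≤ 2 := by
  have h1 : ∑ k ∈ Icc 1 N, Real.exp (-((k : ℝ) - 1)) = ∑ j ∈ range N, Real.exp (-(j : ℝ)) := by
    symm
    refine Finset.sum_bij (fun j _ => j + 1) ?_ ?_ ?_ ?_
    · intro j hj
      rw [Finset.mem_range] at hj
      rw [Finset.mem_Icc]
      omega
    · intro a _ b _ h
      omega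
    · intro b hb
      rw [Finset.mem_Icc] at hb
      exact ⟨b - 1, Finset.mem_range.2 (by omega), by omega⟩
    · intro j _
      push_cast
      congr 1
      ring
  rw [h1]
  refine le_trans ?_ (sum_geometric_two_le N)
  refine Finset.sum_le_sum fun j _ => ?_
  have h2 : Real.exp (-(j : ℝ)) = Real.exp (-1) ^ j := by
    rw [← Real.exp_nat_mul]
    congr 1
    ring
  rw [h2]
  refine pow_le_pow_left₀ (Real.exp_pos _).le ?_ j
  rw [Real.exp_neg, one_div]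
  have h3 := Real.add_one_le_exp (1 : ℝ)
  exact inv_anti₀ (by norm_num) (by linarith)

private theorem sum_cst (K0 N : ℕ) (D : ℝ) (hD : 0 ≤ D) :
    ∑ k ∈ Icc 1 N, (if k ≤ K0 then D else 0) ≤ K0 * D := by
  rw [← Finset.sum_filter, Finset.sum_const, nsmul_eq_mul]
  refine mul_le_mul_of_nonneg_right ?_ hD
  have h1 : (Icc 1 N).filter (fun k => k ≤ K0) ⊆ Icc 1 K0 := by
    intro k hk
    rw [Finset.mem_filter, Finset.mem_Icc] at hk
    rw [Finset.mem_Icc]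
    exact ⟨hk.1.1, hk.2⟩
  have h2 := Finset.card_le_card h1
  rw [Nat.card_Icc, Nat.add_sub_cancel] at h2
  exact_mod_cast h2

open Classical in
theorem levels (δ C1 : ℝ) (hδ : 0 < δ) (hC1 : 1 ≤ C1) : ∃ C A : ℝ, 0 < C ∧ 1 ≤ A ∧
    ∀ (ι β : Type) [Fintype ι] (S : Finset β) (f : β → ι → ℕ) (q : ι → ℝ) (l ρ : ι → ℕ → ℝ)
      (W X B : ℝ) (J K1 : ℕ), (∀ i, 2 ≤ q i) → Lf l → (∀ i, ρ i 0 = 1) → (∀ i k, 0 ≤ ρ i k) →
      0 ≤ W → 0 ≤ B → 3 ≤ X → 1 ≤ K1 → X ^ δ ≤ 2 ^ J → (∀ b ∈ S, nf q (f b) ≤ X ^ C1) →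
      (∀ e : ι → ℕ, nf q e ≤ X ^ δ → ((S.filter fun b => e ≤ f b).card : ℝ) ≤ W * mf ρ e) →
      (∀ z : ℝ, X ^ (1 / (K1 : ℝ)) ≤ z → z ≤ X → ep q (A / Real.log z) l ρ J z ≤ B) →
      ∑ b ∈ S.filter (fun b => nf q (cut q (X ^ (1 / (K1 : ℝ))) (f b)) ≤ X ^ δ), mf l (f b) ≤
        C * (W * B) := by
  obtain ⟨K0, hK0d⟩ : ∃ K0 : ℕ, K0 = ⌈2 / δ⌉₊ := ⟨_, rfl⟩
  have hK0a : 2 / δ ≤ K0 := by
    rw [hK0d]
    exact Nat.le_ceil _
  have hK0 : 1 ≤ K0 := by
    rw [hK0d, Nat.one_le_ceil_iff]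
    positivity
  have hK0r : (0 : ℝ) < K0 := by exact_mod_cast hK0
  have hL2 : 0 < Real.log 2 := Real.log_pos (by norm_num)
  obtain ⟨A, hAd⟩ : ∃ A : ℝ, A = max 1 (2 / δ * (48 * C1 * Real.log 2 + 1)) := ⟨_, rfl⟩
  have hA1 : 1 ≤ A := by
    rw [hAd]
    exact le_max_left _ _
  have hA2 : 48 * C1 * Real.log 2 + 1 ≤ δ / 2 * A := by
    have h1 : 2 / δ * (48 * C1 * Real.log 2 + 1) ≤ A := by
      rw [hAd]
      exact le_max_right _ _
    calc 48 * C1 * Real.log 2 + 1 = δ / 2 * (2 / δ * (48 * C1 * Real.log 2 + 1)) := by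
          field_simp
      _ ≤ _ := mul_le_mul_of_nonneg_left h1 (by positivity)
  refine ⟨K0 * (2 : ℝ) ^ (48 * C1 * K0) + (2 : ℝ) ^ (48 * C1) * 2, A, by positivity, hA1, ?_⟩
  intro ι β _ S f q l ρ W X B J K1 hq hl hρ0 hρ hW hB hX hK1 hJ hf hc hep
  have hX0 : 0 < X := by linarith
  have hX1 : 1 < X := by linarith
  have hlX : 0 < Real.log X := Real.log_pos hX1
  have hM : 1 ≤ X ^ δ := Real.one_le_rpow hX1.le hδ.le
  have h0 : X ^ (1 / (K0 : ℝ)) ≤ (X ^ δ) ^ (1 / 2 : ℝ) := by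
    rw [← Real.rpow_mul hX0.le]
    refine Real.rpow_le_rpow_of_exponent_le hX1.le ?_
    rw [div_le_iff₀ hK0r]
    rw [div_le_iff₀ hδ] at hK0a
    linarith
  obtain ⟨T, hT⟩ : ∃ T, T = S.filter (fun b => nf q (cut q (X ^ (1 / (K1 : ℝ))) (f b)) ≤ X ^ δ) :=
    ⟨_, rfl⟩
  have hTS : ∀ b ∈ T, b ∈ S := fun b hb => by
    rw [hT] at hb
    exact (Finset.mem_filter.1 hb).1
  have hk : ∀ b : β, ∃ k : ℕ, b ∈ T → (1 ≤ k ∧ k ≤ K1 ∧ ∃ a : ι → ℕ, a ≤ f b ∧
      (∀ i, a i ≠ 0 → q i ≤ X ^ (1 / ((max (k - 1) 1 : ℕ) : ℝ))) ∧ nf q a ≤ X ^ δ ∧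
      (K0 < k → (X ^ δ) ^ (1 / 2 : ℝ) < nf q a) ∧ ((∑ i, (f b i - a i) : ℕ) : ℝ) ≤ C1 * k) := by
    intro b
    by_cases hb : b ∈ T
    · rcases split q hq (f b) X (X ^ δ) C1 K0 K1 hX1 hM hK0 hK1 h0 (hf b (hTS b hb)) with h | h
      · rw [hT] at hb
        exact absurd h (not_lt.2 (Finset.mem_filter.1 hb).2)
      · obtain ⟨k, h⟩ := h
        exact ⟨k, fun _ => h⟩
    · exact ⟨0, fun h => absurd h hb⟩
  choose kk hkk using hk
  rw [← hT]
  have hmaps : ∀ b ∈ T, kk b ∈ Icc 1 K1 := fun b hb =>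
    Finset.mem_Icc.2 ⟨(hkk b hb).1, (hkk b hb).2.1⟩
  rw [← Finset.sum_fiberwise_of_maps_to hmaps]
  have hWB : 0 ≤ W * B := mul_nonneg hW hB
  have hterm : ∀ k ∈ Icc 1 K1, ∑ b ∈ T.filter (fun b => kk b = k), mf l (f b) ≤
      ((if k ≤ K0 then (2 : ℝ) ^ (48 * C1 * K0) else 0) +
        (2 : ℝ) ^ (48 * C1) * Real.exp (-((k : ℝ) - 1))) * (W * B) := by
    intro k hkI
    rw [Finset.mem_Icc] at hkI
    obtain ⟨m, hm⟩ : ∃ m, m = max (k - 1) 1 := ⟨_, rfl⟩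
    have hm1 : 1 ≤ m := by omega
    have hmK : m ≤ K1 := by omega
    have hm1r : (1 : ℝ) ≤ m := by exact_mod_cast hm1
    have hm0r : (0 : ℝ) < m := by linarith
    have hmk : (k : ℝ) - 1 ≤ m := by
      have h1 : k ≤ m + 1 := by omega
      have h2 : (k : ℝ) ≤ m + 1 := by exact_mod_cast h1
      linarith
    have hlz : Real.log (X ^ (1 / (m : ℝ))) = Real.log X / m := by
      rw [Real.log_rpow hX0]
      ring
    have hlz0 : 0 < Real.log X / m := by positivity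
    have hσ0 : 0 ≤ A / Real.log (X ^ (1 / (m : ℝ))) := by
      rw [hlz]
      positivity
    have hz1 : X ^ (1 / (K1 : ℝ)) ≤ X ^ (1 / (m : ℝ)) := by
      refine Real.rpow_le_rpow_of_exponent_le hX1.le ?_
      exact one_div_le_one_div_of_le hm0r (by exact_mod_cast hmK)
    have hz2 : X ^ (1 / (m : ℝ)) ≤ X := by
      calc X ^ (1 / (m : ℝ)) ≤ X ^ (1 : ℝ) := by
            refine Real.rpow_le_rpow_of_exponent_le hX1.le ?_
            rw [div_le_one hm0r]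
            exact hm1r
        _ = X := Real.rpow_one X
    have hepk := hep _ hz1 hz2
    obtain ⟨M0, hM0⟩ : ∃ M0 : ℝ, M0 = if k ≤ K0 then 1 else (X ^ δ) ^ (1 / 2 : ℝ) := ⟨_, rfl⟩
    have hM01 : 1 ≤ M0 := by
      rw [hM0]
      split_ifs
      · exact le_rfl
      · exact Real.one_le_rpow hM (by norm_num)
    have hlev := level (T.filter (fun b => kk b = k)) f q hq l ρ hl hρ0 hρ W (X ^ δ) M0
      (X ^ (1 / (m : ℝ))) (A / Real.log (X ^ (1 / (m : ℝ)))) J ⌊C1 * k⌋₊ hW hM01 hσ0 hJ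
      (by
        intro e he
        refine le_trans ?_ (hc e he)
        have h1 : ((T.filter (fun b => kk b = k)).filter fun b => e ≤ f b) ⊆
            S.filter fun b => e ≤ f b := by
          intro b hb
          rw [Finset.mem_filter, Finset.mem_filter] at hb
          exact Finset.mem_filter.2 ⟨hTS b hb.1.1, hb.2⟩
        exact_mod_cast Finset.card_le_card h1)
      (by
        intro b hb
        rw [Finset.mem_filter] at hb
        obtain ⟨hbT, hbk⟩ := hb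
        obtain ⟨_, _, a, ha1, ha2, ha3, ha4, ha5⟩ := hkk b hbT
        rw [hbk] at ha2 ha4 ha5
        refine ⟨a, ha1, ?_, ha3, ?_, ?_⟩
        · intro i hi
          rw [hm]
          exact ha2 i hi
        · rw [hM0]
          split_ifs with h
          · exact one_le_nf hq a
          · exact (ha4 (not_le.1 h)).le
        · exact Nat.le_floor ha5)
    refine hlev.trans ?_
    have hn : (2 : ℝ) ^ (48 * ⌊C1 * k⌋₊) ≤ (2 : ℝ) ^ (48 * C1 * k) := by
      rw [← Real.rpow_natCast]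
      refine Real.rpow_le_rpow_of_exponent_le (by norm_num) ?_
      have h1 : ((⌊C1 * k⌋₊ : ℕ) : ℝ) ≤ C1 * k := Nat.floor_le (by positivity)
      push_cast
      linarith
    have hc1 : (2 : ℝ) ^ (48 * C1 * k) * M0 ^ (-(A / Real.log (X ^ (1 / (m : ℝ))))) ≤
        (if k ≤ K0 then (2 : ℝ) ^ (48 * C1 * K0) else 0) +
        (2 : ℝ) ^ (48 * C1) * Real.exp (-((k : ℝ) - 1)) := by
      have hp : 0 ≤ (2 : ℝ) ^ (48 * C1) * Real.exp (-((k : ℝ) - 1)) := by positivity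
      rw [hM0]
      split_ifs with h
      · rw [Real.one_rpow, mul_one]
        have h1 : (2 : ℝ) ^ (48 * C1 * k) ≤ (2 : ℝ) ^ (48 * C1 * K0) := by
          refine Real.rpow_le_rpow_of_exponent_le (by norm_num) ?_
          refine mul_le_mul_of_nonneg_left ?_ (by positivity)
          exact_mod_cast h
        linarith
      · rw [zero_add, ← Real.rpow_mul hX0.le, ← Real.rpow_mul hX0.le, hlz,
          Real.rpow_def_of_pos hX0, Real.rpow_def_of_pos (by norm_num : (0 : ℝ) < 2),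
          Real.rpow_def_of_pos (by norm_num : (0 : ℝ) < 2), ← Real.exp_add, ← Real.exp_add]
        refine Real.exp_le_exp.2 ?_
        have h1 : Real.log X * (δ * (1 / 2) * -(A / (Real.log X / m))) = -(δ / 2 * A * m) := by
          field_simp
        rw [h1]
        have h2 : (48 * C1 * Real.log 2 + 1) * ((k : ℝ) - 1) ≤ δ / 2 * A * m := by
          have hk1 : (0 : ℝ) ≤ (k : ℝ) - 1 := by
            have : (1 : ℝ) ≤ k := by exact_mod_cast hkI.1
            linarith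
          exact mul_le_mul hA2 hmk hk1 (by positivity)
        nlinarith
    calc (2 : ℝ) ^ (48 * ⌊C1 * k⌋₊) * M0 ^ (-(A / Real.log (X ^ (1 / (m : ℝ))))) *
          (W * ep q (A / Real.log (X ^ (1 / (m : ℝ)))) l ρ J (X ^ (1 / (m : ℝ)))) ≤
          (2 : ℝ) ^ (48 * ⌊C1 * k⌋₊) * M0 ^ (-(A / Real.log (X ^ (1 / (m : ℝ))))) * (W * B) :=
          mul_le_mul_of_nonneg_left (mul_le_mul_of_nonneg_left hepk hW)
            (mul_nonneg (by positivity) (Real.rpow_nonneg (by linarith) _))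
      _ ≤ (2 : ℝ) ^ (48 * C1 * k) * M0 ^ (-(A / Real.log (X ^ (1 / (m : ℝ))))) * (W * B) :=
          mul_le_mul_of_nonneg_right (mul_le_mul_of_nonneg_right hn
            (Real.rpow_nonneg (by linarith) _)) hWB
      _ ≤ _ := mul_le_mul_of_nonneg_right hc1 hWB
  refine (Finset.sum_le_sum hterm).trans ?_
  rw [← Finset.sum_mul]
  refine mul_le_mul_of_nonneg_right ?_ hWB
  rw [Finset.sum_add_distrib, ← Finset.mul_sum]
  refine add_le_add (sum_cst K0 K1 _ (by positivity)) ?_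
  exact mul_le_mul_of_nonneg_left (sum_exp K1) (by positivity)

end H77.PX
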